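import Mathlib

/-!
Jacobi's identity `∏ (1 - q ^ n) ^ 3 = ∑ (-1) ^ k (2 k + 1) q ^ (k (k + 1) / 2)`, `|q| < 1`.
-/

open Finset Filter Topology

namespace JacCube

/-- `(1 - q) ... (1 - q ^ n)` -/
noncomputable def poch (q : ℂ) (n : ℕ) : ℂ := ∏ i ∈ range n, (1 - q ^ (i + 1))

lemma poch_zero (q : ℂ) : poch q 0 = 1 := by simp [poch]

lemma poch_succ (q : ℂ) (n : ℕ) : poch q (n + 1) = poch q n * (1 - q ^ (n + 1)) := by
  rw [poch, poch, prod_range_succ]

variable {q : ℂ}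

lemma one_sub_ne (hq : ‖q‖ < 1) (n : ℕ) : 1 - q ^ (n + 1) ≠ 0 := by
  intro h
  have h1 : q ^ (n + 1) = 1 := by linear_combination -h
  have h2 : ‖q‖ ^ (n + 1) = 1 := by rw [← norm_pow, h1, norm_one]
  have h3 : ‖q‖ ^ (n + 1) < 1 := pow_lt_one₀ (norm_nonneg q) hq (by omega)
  linarith

lemma poch_ne (hq : ‖q‖ < 1) (n : ℕ) : poch q n ≠ 0 :=
  prod_ne_zero_iff.mpr fun i _ => one_sub_ne hq i

/-- Gaussian binomial coefficient, as a quotient -/
noncomputable def gb (q : ℂ) (M j : ℕ) : ℂ := poch q M / (poch q j * poch q (M - j))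

/-- the exponent `j (j - 1) / 2` -/
def tri (j : ℕ) : ℕ := j * (j - 1) / 2

lemma tri_succ (j : ℕ) : tri (j + 1) = tri j + j := by
  unfold tri
  rcases Nat.eq_zero_or_pos j with rfl | h
  · simp
  · obtain ⟨k, rfl⟩ : ∃ k, j = k + 1 := ⟨j - 1, by omega⟩
    have e1 : (k + 1 + 1) * (k + 1 + 1 - 1) = (k + 1) * (k + 1 - 1) + (k + 1) * 2 := by
      simp only [Nat.add_sub_cancel]; ring
    rw [e1, Nat.add_mul_div_right _ _ (by norm_num)]

theorem qbinomial (hq : ‖q‖ < 1) (x : ℂ) (M : ℕ) :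
    ∏ k ∈ range M, (1 + x * q ^ k) = ∑ j ∈ range (M + 1), q ^ tri j * gb q M j * x ^ j := by
  induction M with
  | zero => simp [gb, poch_zero, tri]
  | succ M ih =>
    rw [prod_range_succ, ih, mul_add, mul_one]
    rw [sum_range_succ' (fun j => q ^ tri j * gb q (M + 1) j * x ^ j) (M + 1)]
    have h0 : q ^ tri 0 * gb q (M + 1) 0 * x ^ 0 = 1 := by
      have := poch_ne hq (M + 1)
      simp [gb, poch_zero, tri, this]
    have h0' : q ^ tri 0 * gb q M 0 * x ^ 0 = 1 := by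
      have := poch_ne hq M
      simp [gb, poch_zero, tri, this]
    rw [h0]
    have hA : ∑ j ∈ range (M + 1), q ^ tri j * gb q M j * x ^ j
        = ∑ j ∈ range M, q ^ tri (j + 1) * gb q M (j + 1) * x ^ (j + 1) + 1 := by
      rw [sum_range_succ', h0']
    have hB : (∑ j ∈ range (M + 1), q ^ tri j * gb q M j * x ^ j) * (x * q ^ M)
        = ∑ j ∈ range M, q ^ tri j * gb q M j * x ^ (j + 1) * q ^ M
          + q ^ tri M * gb q M M * x ^ (M + 1) * q ^ M := by
      rw [sum_range_succ, add_mul, sum_mul]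
      congr 1
      · exact sum_congr rfl fun j _ => by ring
      · ring
    rw [hB]
    rw [hA, sum_range_succ (fun j => q ^ tri (j + 1) * gb q (M + 1) (j + 1) * x ^ (j + 1)) M]
    have hC : ∀ j ∈ range M, q ^ tri (j + 1) * gb q (M + 1) (j + 1) * x ^ (j + 1)
        = q ^ tri (j + 1) * gb q M (j + 1) * x ^ (j + 1)
          + q ^ tri j * gb q M j * x ^ (j + 1) * q ^ M := by
      intro j hj
      have hj' : j < M := mem_range.mp hj
      obtain ⟨i, rfl⟩ : ∃ i, M = j + 1 + i := ⟨M - (j + 1), by omega⟩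
      have e1 : j + 1 + i + 1 - (j + 1) = i + 1 := by omega
      have e2 : j + 1 + i - (j + 1) = i := by omega
      have e3 : j + 1 + i - j = i + 1 := by omega
      simp only [gb, e1, e2, e3, tri_succ]
      rw [poch_succ q (j + 1 + i), poch_succ q i, poch_succ q j]
      have n1 := poch_ne hq j
      have n2 := poch_ne hq i
      have n3 := one_sub_ne hq j
      have n4 := one_sub_ne hq i
      have n5 := poch_ne hq (j + 1 + i)
      field_simp
      ring
    rw [sum_congr rfl hC, sum_add_distrib]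
    have hD : q ^ tri (M + 1) * gb q (M + 1) (M + 1) * x ^ (M + 1)
        = q ^ tri M * gb q M M * x ^ (M + 1) * q ^ M := by
      have n1 := poch_ne hq (M + 1)
      have n2 := poch_ne hq M
      simp only [gb, Nat.sub_self, poch_zero, mul_one, div_self n1, div_self n2, tri_succ]
      ring
    rw [hD]
    ring

lemma two_tri (n : ℕ) : 2 * tri (n + 1) = (n + 1) * n := by
  unfold tri
  rw [Nat.add_sub_cancel]
  exact Nat.two_mul_div_two_of_even (by rw [mul_comm]; exact Nat.even_mul_succ_self n)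

lemma two_tri' (n : ℕ) : (2 * (tri n : ℤ)) = n * (n - 1) := by
  rcases Nat.eq_zero_or_pos n with rfl | h
  · simp [tri]
  · obtain ⟨k, rfl⟩ : ∃ k, n = k + 1 := ⟨n - 1, by omega⟩
    have := two_tri k
    have h2 : ((2 * tri (k + 1) : ℕ) : ℤ) = (((k + 1) * k : ℕ) : ℤ) := by rw [this]
    push_cast at h2 ⊢
    rw [h2]; ring

lemma exp1 (N k : ℕ) : tri N + tri (N + 1 + k) = N * (N + k) + tri (k + 1) := by
  have h1 := two_tri' N
  have h2 := two_tri' (N + 1 + k)
  have h3 := two_tri' (k + 1)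
  have : (2 : ℤ) * ((tri N + tri (N + 1 + k) : ℕ) : ℤ)
      = 2 * ((N * (N + k) + tri (k + 1) : ℕ) : ℤ) := by
    push_cast at *
    linear_combination h1 + h2 - h3
  omega

lemma exp2 (k i : ℕ) : tri (k + 1 + i) + tri (i + 1) = (k + 1 + i) * i + tri (k + 1) := by
  have h1 := two_tri' (k + 1 + i)
  have h2 := two_tri' (i + 1)
  have h3 := two_tri' (k + 1)
  have : (2 : ℤ) * ((tri (k + 1 + i) + tri (i + 1) : ℕ) : ℤ)
      = 2 * (((k + 1 + i) * i + tri (k + 1) : ℕ) : ℤ) := by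
    push_cast at *
    linear_combination h1 + h2 - h3
  omega

lemma prod_pow_succ (N : ℕ) : ∏ k ∈ range N, q ^ (k + 1) = q ^ tri (N + 1) := by
  induction N with
  | zero => simp [tri]
  | succ N ih => rw [prod_range_succ, ih, tri_succ (N + 1), ← pow_add]

lemma prodA (hq0 : q ≠ 0) (N : ℕ) :
    ∏ k ∈ range N, (1 + (-(q ^ N)⁻¹) * q ^ k) = (-1) ^ N * (q ^ tri (N + 1))⁻¹ * poch q N := by
  rw [← prod_range_reflect]
  have : ∀ k ∈ range N, (1 + (-(q ^ N)⁻¹) * q ^ (N - 1 - k))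
      = (-1) * (q ^ (k + 1))⁻¹ * (1 - q ^ (k + 1)) := by
    intro k hk
    have hk' : k < N := mem_range.mp hk
    obtain ⟨i, rfl⟩ : ∃ i, N = k + 1 + i := ⟨N - (k + 1), by omega⟩
    have e : k + 1 + i - 1 - k = i := by omega
    rw [e, pow_add]
    field_simp
    ring
  rw [prod_congr rfl this, prod_mul_distrib, prod_mul_distrib, prod_const, card_range,
    prod_inv_distrib, prod_pow_succ, poch]

lemma prodB (hq0 : q ≠ 0) (N : ℕ) :
    ∏ i ∈ range N, (1 + (-(q ^ N)⁻¹) * q ^ (N + 1 + i)) = poch q N := by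
  rw [poch]
  refine prod_congr rfl fun i _ => ?_
  rw [show N + 1 + i = N + (i + 1) by ring, pow_add]
  field_simp
  ring

/-- derivative of the `q`-binomial theorem at the zero `-q ^ (-N)` -/
lemma deriv_identity (hq : ‖q‖ < 1) (hq0 : q ≠ 0) (N : ℕ) :
    q ^ N * ((-1) ^ N * (q ^ tri (N + 1))⁻¹ * poch q N * poch q N) =
      ∑ j ∈ range (2 * N + 1 + 1), q ^ tri j * gb q (2 * N + 1) j *
        (j * (-(q ^ N)⁻¹) ^ (j - 1)) := by
  set x0 : ℂ := -(q ^ N)⁻¹ with hx0
  have hf : ∀ x : ℂ, ∏ k ∈ range (2 * N + 1), (1 + x * q ^ k)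
      = (1 + x * q ^ N) * ((∏ k ∈ range N, (1 + x * q ^ k)) *
        ∏ i ∈ range N, (1 + x * q ^ (N + 1 + i))) := by
    intro x
    rw [show 2 * N + 1 = (N + 1) + N by ring, prod_range_add, prod_range_succ]
    ring
  have hd1 : HasDerivAt (fun x : ℂ => (1 + x * q ^ N) * ((∏ k ∈ range N, (1 + x * q ^ k)) *
        ∏ i ∈ range N, (1 + x * q ^ (N + 1 + i))))
      (q ^ N * ((-1) ^ N * (q ^ tri (N + 1))⁻¹ * poch q N * poch q N)) x0 := by
    have h1 : HasDerivAt (fun x : ℂ => 1 + x * q ^ N) (q ^ N) x0 := by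
      simpa using ((hasDerivAt_id x0).mul_const (q ^ N)).const_add 1
    have h2 : DifferentiableAt ℂ (fun x : ℂ => (∏ k ∈ range N, (1 + x * q ^ k)) *
        ∏ i ∈ range N, (1 + x * q ^ (N + 1 + i))) x0 := by
      fun_prop
    refine (h1.mul h2.hasDerivAt).congr_deriv ?_
    have h3 : 1 + x0 * q ^ N = 0 := by
      rw [hx0]
      have : q ^ N ≠ 0 := pow_ne_zero _ hq0
      field_simp
      ring
    rw [h3, zero_mul, add_zero]
    rw [hx0, prodA hq0, prodB hq0]
  have hd2 : HasDerivAt (fun x : ℂ => ∑ j ∈ range (2 * N + 1 + 1),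
      q ^ tri j * gb q (2 * N + 1) j * x ^ j)
      (∑ j ∈ range (2 * N + 1 + 1), q ^ tri j * gb q (2 * N + 1) j *
        (j * x0 ^ (j - 1))) x0 := by
    refine HasDerivAt.fun_sum fun j _ => ?_
    exact (hasDerivAt_pow j x0).const_mul _
  have he : (fun x : ℂ => (1 + x * q ^ N) * ((∏ k ∈ range N, (1 + x * q ^ k)) *
        ∏ i ∈ range N, (1 + x * q ^ (N + 1 + i)))) = (fun x : ℂ => ∑ j ∈ range (2 * N + 1 + 1),
      q ^ tri j * gb q (2 * N + 1) j * x ^ j) := by
    funext x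
    rw [← hf, qbinomial hq]
  rw [he] at hd1
  exact hd1.unique hd2

lemma gb_symm (N k : ℕ) (hk : k ≤ N) :
    gb q (2 * N + 1) (N + 1 + k) = gb q (2 * N + 1) (N - k) := by
  rw [gb, gb]
  have e1 : 2 * N + 1 - (N + 1 + k) = N - k := by omega
  have e2 : 2 * N + 1 - (N - k) = N + 1 + k := by omega
  rw [e1, e2, mul_comm (poch q (N - k))]

/-- Finite form of Jacobi's identity. -/
theorem finite_jacobi (hq : ‖q‖ < 1) (hq0 : q ≠ 0) (N : ℕ) :
    poch q N ^ 2 = ∑ k ∈ range (N + 1), (-1) ^ k * (2 * k + 1) * q ^ tri (k + 1) *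
      gb q (2 * N + 1) (N - k) := by
  have h := deriv_identity hq hq0 N
  have hqN : q ^ N ≠ 0 := pow_ne_zero _ hq0
  have h1 : poch q N ^ 2 = (-1) ^ N * q ^ tri N * (∑ j ∈ range (2 * N + 1 + 1),
      q ^ tri j * gb q (2 * N + 1) j * (j * (-(q ^ N)⁻¹) ^ (j - 1))) := by
    rw [← h, tri_succ, pow_add]
    have h2 : q ^ tri N ≠ 0 := pow_ne_zero _ hq0
    field_simp
    rw [← pow_mul, mul_comm N 2, pow_mul]
    simp
  rw [h1, show 2 * N + 1 + 1 = (N + 1) + (N + 1) by ring, sum_range_add, mul_add, ← sum_range_reflect,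
    mul_sum, mul_sum, ← sum_add_distrib]
  refine sum_congr rfl fun k hk => ?_
  have hk' : k ≤ N := by have := mem_range.mp hk; omega
  have e0 : N + 1 - 1 - k = N - k := by omega
  rw [e0, gb_symm N k hk']
  have hs : ((-1 : ℂ)) ^ N * (-1) ^ N = 1 := by rw [← pow_add, ← two_mul, pow_mul]; simp
  have hB : (-1 : ℂ) ^ N * q ^ tri N * (q ^ tri (N + 1 + k) * gb q (2 * N + 1) (N - k) *
      (((N + 1 + k : ℕ) : ℂ) * (-(q ^ N)⁻¹) ^ (N + 1 + k - 1)))
      = (-1) ^ k * (N + 1 + k) * q ^ tri (k + 1) * gb q (2 * N + 1) (N - k) := by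
    have e1 : N + 1 + k - 1 = N + k := by omega
    have e2 : q ^ tri N * q ^ tri (N + 1 + k) = q ^ (N * (N + k)) * q ^ tri (k + 1) := by
      rw [← pow_add, exp1, pow_add]
    have e3 : (-(q ^ N)⁻¹) ^ (N + k) = (-1) ^ (N + k) * (q ^ (N * (N + k)))⁻¹ := by
      rw [neg_pow, inv_pow, ← pow_mul]
    have e4 : q ^ (N * (N + k)) ≠ 0 := pow_ne_zero _ hq0
    rw [e1, e3]
    push_cast
    calc _ = ((-1) ^ N * (-1) ^ N) * (-1) ^ k * (N + 1 + k) * gb q (2 * N + 1) (N - k) *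
          ((q ^ tri N * q ^ tri (N + 1 + k)) * (q ^ (N * (N + k)))⁻¹) := by
            rw [pow_add]; ring
      _ = _ := by
          rw [e2, hs]
          field_simp
  have hA : (-1 : ℂ) ^ N * q ^ tri N * (q ^ tri (N - k) * gb q (2 * N + 1) (N - k) *
      (((N - k : ℕ) : ℂ) * (-(q ^ N)⁻¹) ^ (N - k - 1)))
      = -((-1) ^ k * (N - k) * q ^ tri (k + 1) * gb q (2 * N + 1) (N - k)) := by
    rcases Nat.eq_or_lt_of_le hk' with rfl | hlt
    · simp
    · obtain ⟨i, rfl⟩ : ∃ i, N = k + 1 + i := ⟨N - (k + 1), by omega⟩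
      have e1 : k + 1 + i - k - 1 = i := by omega
      have e1' : k + 1 + i - k = i + 1 := by omega
      have e2 : q ^ tri (k + 1 + i) * q ^ tri (i + 1)
          = q ^ ((k + 1 + i) * i) * q ^ tri (k + 1) := by
        rw [← pow_add, exp2, pow_add]
      have e3 : (-(q ^ (k + 1 + i))⁻¹) ^ i = (-1) ^ i * (q ^ ((k + 1 + i) * i))⁻¹ := by
        rw [neg_pow, inv_pow, ← pow_mul]
      have e4 : q ^ ((k + 1 + i) * i) ≠ 0 := pow_ne_zero _ hq0
      have e5 : (-1 : ℂ) ^ (k + 1 + i) * (-1) ^ i = -(-1) ^ k := by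
        rw [← pow_add, show k + 1 + i + i = k + 1 + 2 * i by ring, pow_add, pow_add, pow_mul]
        simp
      rw [e1, e1', e3]
      push_cast
      calc _ = ((-1 : ℂ) ^ (k + 1 + i) * (-1) ^ i) * (i + 1) *
            gb q (2 * (k + 1 + i) + 1) (i + 1) *
            ((q ^ tri (k + 1 + i) * q ^ tri (i + 1)) * (q ^ ((k + 1 + i) * i))⁻¹) := by ring
        _ = _ := by
            rw [e2, e5]
            field_simp
            ring
  rw [hA, hB]
  ring

/-- the infinite product -/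
noncomputable def pinf (q : ℂ) : ℂ := ∏' n : ℕ, (1 - q ^ (n + 1))

lemma pinf_mult (hq : ‖q‖ < 1) : Multipliable fun n : ℕ => 1 - q ^ (n + 1) := by
  apply multipliable_one_add_of_summable (f := fun n ↦ -q ^ (n + 1))
  simpa using (summable_nat_add_iff 1).mpr (summable_geometric_of_lt_one (norm_nonneg _) hq)

lemma pinf_ne (hq : ‖q‖ < 1) : pinf q ≠ 0 := by
  refine tprod_one_add_ne_zero_of_summable (f := fun n ↦ -q ^ (n + 1)) ?_ ?_
  · intro i
    have := one_sub_ne hq i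
    rwa [sub_eq_add_neg] at this
  · simpa using (summable_nat_add_iff 1).mpr (summable_geometric_of_lt_one (norm_nonneg _) hq)

lemma poch_tendsto (hq : ‖q‖ < 1) : Tendsto (poch q) atTop (𝓝 (pinf q)) :=
  (pinf_mult hq).hasProd.tendsto_prod_nat

lemma gb_tendsto (hq : ‖q‖ < 1) (k : ℕ) :
    Tendsto (fun N : ℕ => gb q (2 * N + 1) (N - k)) atTop (𝓝 (pinf q)⁻¹) := by
  have h := poch_tendsto hq
  have h1 : Tendsto (fun N : ℕ => poch q (2 * N + 1)) atTop (𝓝 (pinf q)) :=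
    h.comp (tendsto_atTop_mono (fun n => by omega : ∀ n : ℕ, n ≤ 2 * n + 1) tendsto_id)
  have h2 : Tendsto (fun N : ℕ => poch q (N - k)) atTop (𝓝 (pinf q)) :=
    h.comp (tendsto_sub_atTop_nat k)
  have h3 : Tendsto (fun N : ℕ => poch q (2 * N + 1 - (N - k))) atTop (𝓝 (pinf q)) :=
    h.comp (tendsto_atTop_mono (fun n => by omega : ∀ n : ℕ, n ≤ 2 * n + 1 - (n - k)) tendsto_id)
  have h4 := h1.div (h2.mul h3) (mul_ne_zero (pinf_ne hq) (pinf_ne hq))
  have e : pinf q / (pinf q * pinf q) = (pinf q)⁻¹ := by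
    have := pinf_ne hq
    field_simp
  rw [e] at h4
  exact h4

lemma gb_bdd (hq : ‖q‖ < 1) : ∃ C : ℝ, 0 ≤ C ∧ ∀ M j : ℕ, ‖gb q M j‖ ≤ C := by
  have h := poch_tendsto hq
  obtain ⟨A, hA⟩ := h.norm.bddAbove_range
  obtain ⟨B, hB⟩ := (h.inv₀ (pinf_ne hq)).norm.bddAbove_range
  have hA' : ∀ n, ‖poch q n‖ ≤ A := fun n => hA ⟨n, rfl⟩
  have hB' : ∀ n, ‖(poch q n)⁻¹‖ ≤ B := fun n => hB ⟨n, rfl⟩
  have hA0 : 0 ≤ A := (norm_nonneg _).trans (hA' 0)
  have hB0 : 0 ≤ B := (norm_nonneg _).trans (hB' 0)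
  refine ⟨A * (B * B), by positivity, fun M j => ?_⟩
  rw [gb, div_eq_mul_inv, mul_inv, norm_mul, norm_mul]
  exact mul_le_mul (hA' M) (mul_le_mul (hB' _) (hB' _) (norm_nonneg _) hB0)
    (by positivity) hA0

lemma tri_ge (k : ℕ) : k ≤ tri (k + 1) := by
  have := two_tri k
  nlinarith

lemma summable_bound (hq : ‖q‖ < 1) :
    Summable fun k : ℕ => (2 * (k : ℝ) + 1) * ‖q‖ ^ tri (k + 1) := by
  have h1 : Summable fun k : ℕ => ((k : ℝ) ^ 1) * ‖q‖ ^ k :=
    summable_pow_mul_geometric_of_norm_lt_one 1 (by simpa using hq)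
  have h2 : Summable fun k : ℕ => ‖q‖ ^ k := summable_geometric_of_lt_one (norm_nonneg _) hq
  refine Summable.of_nonneg_of_le (fun k => by positivity) (fun k => ?_)
    ((h1.mul_left 2).add h2)
  have h3 : ‖q‖ ^ tri (k + 1) ≤ ‖q‖ ^ k :=
    pow_le_pow_of_le_one (norm_nonneg _) hq.le (tri_ge k)
  have h4 : (0 : ℝ) ≤ 2 * (k : ℝ) + 1 := by positivity
  nlinarith [mul_le_mul_of_nonneg_left h3 h4]

lemma hasSum_congr_aux {f g : ℕ → ℂ} {a : ℂ} (h : HasSum f a)
    (e : ∀ i, g i = f i) : HasSum g a := by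
  rwa [show g = f from funext e]

/-- **Jacobi's identity**. -/
theorem jacobi_hasSum (hq : ‖q‖ < 1) :
    HasSum (fun k : ℕ => (-1) ^ k * (2 * (k : ℂ) + 1) * q ^ tri (k + 1)) (pinf q ^ 3) := by
  have hsum : Summable (fun k : ℕ => (-1) ^ k * (2 * (k : ℂ) + 1) * q ^ tri (k + 1)) := by
    refine Summable.of_norm_bounded (summable_bound hq) fun k => le_of_eq ?_
    rw [norm_mul, norm_mul, norm_pow, norm_pow, norm_neg, norm_one, one_pow, one_mul]
    congr 1
    have : (2 * (k : ℂ) + 1) = ((2 * k + 1 : ℕ) : ℂ) := by push_cast; ring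
    rw [this, Complex.norm_natCast]
    push_cast; ring
  by_cases hq0 : q = 0
  · subst hq0
    have h1 : pinf 0 = 1 := by
      unfold pinf
      simp
    rw [h1]
    have h2 := hasSum_ite_eq (0 : ℕ) (1 : ℂ)
    simp only [one_pow]
    refine (hasSum_congr_aux h2 fun k => ?_)
    rcases Nat.eq_zero_or_pos k with rfl | hk
    · simp [tri]
    · have : tri (k + 1) ≠ 0 := by have := tri_ge k; omega
      simp [this, hk.ne']
  · obtain ⟨C, hC0, hC⟩ := gb_bdd hq
    have hlim : Tendsto (fun N : ℕ => ∑' k : ℕ, if k ∈ range (N + 1) then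
        (-1) ^ k * (2 * (k : ℂ) + 1) * q ^ tri (k + 1) * gb q (2 * N + 1) (N - k) else 0) atTop
        (𝓝 (∑' k : ℕ, (-1) ^ k * (2 * (k : ℂ) + 1) * q ^ tri (k + 1) * (pinf q)⁻¹)) := by
      refine tendsto_tsum_of_dominated_convergence
        (bound := fun k : ℕ => (2 * (k : ℝ) + 1) * ‖q‖ ^ tri (k + 1) * C)
        ((summable_bound hq).mul_right C) ?_ ?_
      · intro k
        have h1 := (gb_tendsto hq k).const_mul ((-1) ^ k * (2 * (k : ℂ) + 1) * q ^ tri (k + 1))
        refine h1.congr' ?_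
        filter_upwards [eventually_ge_atTop k] with N hN
        rw [if_pos (mem_range.mpr (by omega))]
      · refine Eventually.of_forall fun N k => ?_
        split_ifs
        · rw [norm_mul, norm_mul, norm_mul, norm_pow, norm_pow, norm_neg, norm_one, one_pow,
            one_mul]
          have : (2 * (k : ℂ) + 1) = ((2 * k + 1 : ℕ) : ℂ) := by push_cast; ring
          rw [this, Complex.norm_natCast]
          push_cast
          exact mul_le_mul_of_nonneg_left (hC _ _) (by positivity)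
        · rw [norm_zero]; positivity
    have hfin : ∀ N : ℕ, (∑' k : ℕ, if k ∈ range (N + 1) then
        (-1) ^ k * (2 * (k : ℂ) + 1) * q ^ tri (k + 1) * gb q (2 * N + 1) (N - k) else 0)
        = poch q N ^ 2 := by
      intro N
      rw [finite_jacobi hq hq0, tsum_eq_sum (s := range (N + 1)) (fun k hk => if_neg hk)]
      exact sum_congr rfl fun k hk => if_pos hk
    simp only [hfin] at hlim
    have h2 := tendsto_nhds_unique ((poch_tendsto hq).pow 2) hlim
    rw [tsum_mul_right] at h2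
    have h3 : pinf q ^ 3 = ∑' k : ℕ, (-1) ^ k * (2 * (k : ℂ) + 1) * q ^ tri (k + 1) := by
      have h4 := pinf_ne hq
      rw [pow_succ, h2]
      field_simp
    rw [h3]
    exact hsum.hasSum

end JacCube
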