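import Mathlib

/-!
For a lattice `ℤ + ℤ τ`, `τ = x + i y`, `y > 0`: the theta series of `λ ^ 2` and the function
`Z(s) = ∑' λ ^ 2 / |λ| ^ (2 s)`: entire continuation, functional equation, and `Z'(-1)` in terms
of `Z(4)`.
-/

open Complex Real Set Filter Topology

namespace LatL

/-- the lattice point `m + n τ` -/
noncomputable def lat (x y : ℝ) (p : ℤ × ℤ) : ℂ :=
  ((p.1 + p.2 * x : ℝ) : ℂ) + ((p.2 * y : ℝ) : ℂ) * I

/-- its norm -/
noncomputable def Q (x y : ℝ) (p : ℤ × ℤ) : ℝ := (p.1 + p.2 * x) ^ 2 + (p.2 * y) ^ 2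

variable {x y : ℝ}

lemma Q_eq (p : ℤ × ℤ) : Q x y p = ‖lat x y p‖ ^ 2 := by
  rw [← Complex.normSq_eq_norm_sq, Complex.normSq_apply, lat, Q]
  simp
  ring

lemma Q_nonneg (p : ℤ × ℤ) : 0 ≤ Q x y p := by rw [Q]; positivity

/-- constant in the lower bound of the norm form -/
noncomputable def del (x y : ℝ) : ℝ := 1 / (2 + (2 * x ^ 2 + 1) / y ^ 2)

lemma del_pos : 0 < del x y := by rw [del]; positivity

lemma Q_lower (hy : 0 < y) (p : ℤ × ℤ) :
    del x y * ((p.1 : ℝ) ^ 2 + (p.2 : ℝ) ^ 2) ≤ Q x y p := by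
  rw [del, div_mul_eq_mul_div, one_mul, div_le_iff₀ (by positivity)]
  have h1 : (p.2 : ℝ) ^ 2 ≤ Q x y p / y ^ 2 := by
    rw [le_div_iff₀ (by positivity), Q]
    nlinarith [sq_nonneg ((p.1 : ℝ) + p.2 * x)]
  have h2 : ((p.1 : ℝ)) ^ 2 ≤ 2 * Q x y p + 2 * x ^ 2 * (p.2 : ℝ) ^ 2 := by
    rw [Q]
    nlinarith [sq_nonneg ((p.1 : ℝ) + 2 * p.2 * x), sq_nonneg ((p.2 : ℝ) * y)]
  have h3 : 2 * x ^ 2 * (p.2 : ℝ) ^ 2 ≤ 2 * x ^ 2 * (Q x y p / y ^ 2) :=
    mul_le_mul_of_nonneg_left h1 (by positivity)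
  calc (p.1 : ℝ) ^ 2 + (p.2 : ℝ) ^ 2
      ≤ 2 * Q x y p + 2 * x ^ 2 * (Q x y p / y ^ 2) + Q x y p / y ^ 2 := by linarith
    _ = Q x y p * (2 + (2 * x ^ 2 + 1) / y ^ 2) := by field_simp; ring

lemma sum1 {c : ℝ} (hc : 0 < c) : Summable fun n : ℤ => rexp (-c * (n : ℝ) ^ 2) := by
  have h := (HurwitzZeta.hasSum_int_evenKernel 0 (t := c / π) (by positivity)).summable
  refine h.congr fun n => ?_
  congr 1
  field_simp
  ring

lemma sum1b {a : ℝ} (ha : 0 < a) (b : ℝ) :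
    Summable fun n : ℤ => rexp (-a * (n : ℝ) ^ 2 + b * n) := by
  refine Summable.of_nonneg_of_le (fun n => (Real.exp_pos _).le) (fun n => ?_)
    ((sum1 (half_pos ha)).mul_left (rexp (b ^ 2 / (2 * a))))
  rw [← Real.exp_add]
  apply Real.exp_le_exp.mpr
  have h : b * n ≤ a / 2 * (n : ℝ) ^ 2 + b ^ 2 / (2 * a) := by
    have h1 : 0 ≤ (a * n - b) ^ 2 / (2 * a) := by positivity
    have h2 : (a * n - b) ^ 2 / (2 * a) = a / 2 * (n : ℝ) ^ 2 - b * n + b ^ 2 / (2 * a) := by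
      field_simp; ring
    linarith
  nlinarith

lemma prod_summable {f g : ℤ → ℝ} (hf : Summable f) (hg : Summable g) :
    Summable (fun p : ℤ × ℤ => f p.1 * g p.2) :=
  summable_mul_of_summable_norm (summable_norm_iff.mpr hf) (summable_norm_iff.mpr hg)

lemma sum_gauss (hy : 0 < y) {c : ℝ} (hc : 0 < c) :
    Summable fun p : ℤ × ℤ => rexp (-c * Q x y p) := by
  have hd := del_pos (x := x) (y := y)
  have h := prod_summable (sum1 (mul_pos hc hd)) (sum1 (mul_pos hc hd))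
  refine Summable.of_nonneg_of_le (fun p => (Real.exp_pos _).le) (fun p => ?_) h
  rw [← Real.exp_add]
  apply Real.exp_le_exp.mpr
  have := mul_le_mul_of_nonneg_left (Q_lower (x := x) hy p) hc.le
  linarith

lemma bound_one {c q : ℝ} (hc : 0 < c) :
    q * rexp (-c * q) ≤ (2 / c) * rexp (-(c / 2) * q) := by
  have h1 : c / 2 * q ≤ rexp (c / 2 * q) := by
    have := add_one_le_exp (c / 2 * q); linarith
  have h2 : rexp (-c * q) = rexp (-(c / 2) * q) * rexp (-(c / 2) * q) := by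
    rw [← Real.exp_add]; congr 1; ring
  have h3 : rexp (c / 2 * q) * rexp (-(c / 2) * q) = 1 := by
    rw [← Real.exp_add]; simp
  have h4 : q = (2 / c) * (c / 2 * q) := by field_simp
  have h5 : 0 < 2 / c := by positivity
  have h6 := (Real.exp_pos (-(c / 2) * q))
  calc q * rexp (-c * q) = (2 / c) * (c / 2 * q) * rexp (-c * q) := by rw [← h4]
    _ ≤ (2 / c) * rexp (c / 2 * q) * rexp (-c * q) := by gcongr
    _ = (2 / c) * rexp (-(c / 2) * q) := by
        rw [h2]; linear_combination (2 / c) * rexp (-(c / 2) * q) * h3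

lemma sum_gauss1 (hy : 0 < y) {c : ℝ} (hc : 0 < c) :
    Summable fun p : ℤ × ℤ => Q x y p * rexp (-c * Q x y p) := by
  refine Summable.of_nonneg_of_le (fun p => mul_nonneg (Q_nonneg p) (Real.exp_pos _).le)
    (fun p => bound_one hc) ?_
  exact (sum_gauss hy (half_pos hc)).mul_left _

/-- The terms of the generating theta series. -/
noncomputable def F (x y t : ℝ) (w : ℂ) (p : ℤ × ℤ) : ℂ :=
  cexp (((-(π * t / y) * Q x y p : ℝ) : ℂ) + 2 * π * w * lat x y p / y)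

lemma F_norm (hy : 0 < y) {t : ℝ} (ht : 0 < t) (w : ℂ) (p : ℤ × ℤ) :
    ‖F x y t w p‖ ≤ rexp (2 * π * ‖w‖ ^ 2 / (t * y)) * rexp (-(π * t / (2 * y)) * Q x y p) := by
  have hp := pi_pos
  rw [F, Complex.norm_exp, ← Real.exp_add]
  apply Real.exp_le_exp.mpr
  rw [Complex.add_re, Complex.ofReal_re]
  have h1 : (2 * π * w * lat x y p / y : ℂ).re ≤ 2 * π * ‖w‖ * ‖lat x y p‖ / y := by
    refine (Complex.re_le_norm _).trans ?_
    rw [norm_div, norm_mul, norm_mul, norm_mul, Complex.norm_real, Complex.norm_real,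
      Real.norm_of_nonneg hp.le, Real.norm_of_nonneg hy.le]
    simp
  have h2 : 2 * π * ‖w‖ * ‖lat x y p‖ / y
      ≤ 2 * π * ‖w‖ ^ 2 / (t * y) + (π * t / (2 * y)) * Q x y p := by
    rw [Q_eq]
    have h3 : 0 ≤ (π / (2 * t * y)) * (2 * ‖w‖ - t * ‖lat x y p‖) ^ 2 := by positivity
    have h4 : (π / (2 * t * y)) * (2 * ‖w‖ - t * ‖lat x y p‖) ^ 2
        = 2 * π * ‖w‖ ^ 2 / (t * y) + (π * t / (2 * y)) * ‖lat x y p‖ ^ 2
          - 2 * π * ‖w‖ * ‖lat x y p‖ / y := by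
      field_simp; ring
    linarith
  have h5 : π * t / y = 2 * (π * t / (2 * y)) := by field_simp
  rw [h5]
  linarith

lemma F_summable (hy : 0 < y) {t : ℝ} (ht : 0 < t) (w : ℂ) : Summable (F x y t w) := by
  refine Summable.of_norm_bounded ((sum_gauss (x := x) hy (c := π * t / (2 * y))
    (by positivity)).mul_left (rexp (2 * π * ‖w‖ ^ 2 / (t * y)))) (fun p => F_norm hy ht w p)

/-- terms after Poisson summation in the first variable, `q = (n, k)` -/
noncomputable def S (x y t : ℝ) (w : ℂ) (q : ℤ × ℤ) : ℂ :=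
  cexp (-π * y * q.2 ^ 2 / t - π * t * q.1 ^ 2 * y + 2 * π * I * w * (q.1 - q.2 / t)
    + 2 * π * I * q.2 * q.1 * x + π * w ^ 2 / (t * y))

lemma S_summable (hy : 0 < y) {t : ℝ} (ht : 0 < t) (w : ℂ) : Summable (S x y t w) := by
  have hp := pi_pos
  have h := (prod_summable (sum1b (a := π * t * y) (by positivity) (-(2 * π * w.im)))
    (sum1b (a := π * y / t) (by positivity) (2 * π * w.im / t))).mul_left
    (rexp ((π * w ^ 2 / (t * y) : ℂ).re))
  refine Summable.of_norm_bounded h (fun q => le_of_eq ?_)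
  rw [S, Complex.norm_exp, ← Real.exp_add, ← Real.exp_add]
  congr 1
  have e1 : (-π * y * q.2 ^ 2 / t - π * t * q.1 ^ 2 * y : ℂ)
      = ((-π * y * q.2 ^ 2 / t - π * t * q.1 ^ 2 * y : ℝ) : ℂ) := by push_cast; ring
  have e2 : (2 * π * I * w * (q.1 - q.2 / t) : ℂ)
      = ((2 * π * (q.1 - q.2 / t) : ℝ) : ℂ) * (I * w) := by push_cast; ring
  have e3 : (2 * π * I * q.2 * q.1 * x : ℂ) = ((2 * π * q.2 * q.1 * x : ℝ) : ℂ) * I := by
    push_cast; ring
  rw [e1, e2, e3]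
  simp only [Complex.add_re, Complex.ofReal_re, Complex.ofReal_im, Complex.mul_re, Complex.I_re,
    Complex.I_im, zero_mul, one_mul, zero_sub, mul_zero]
  ring

/-- the generating theta series -/
noncomputable def T (x y t : ℝ) (w : ℂ) : ℂ := ∑' p : ℤ × ℤ, F x y t w p

lemma row_poisson (hy : 0 < y) {t : ℝ} (ht : 0 < t) (w : ℂ) (n : ℤ) :
    ∑' m : ℤ, F x y t w (m, n) = (((√(t / y))⁻¹ : ℝ) : ℂ) * ∑' k : ℤ, S x y t w (n, k) := by
  have hty : 0 < t / y := by positivity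
  have hyc : (y : ℂ) ≠ 0 := Complex.ofReal_ne_zero.mpr hy.ne'
  have htc : (t : ℂ) ≠ 0 := Complex.ofReal_ne_zero.mpr ht.ne'
  have key := Complex.tsum_exp_neg_quadratic (a := ((t / y : ℝ) : ℂ))
    (by rw [Complex.ofReal_re]; exact hty) ((w - t * n * x) / y)
  have e0 : (1 : ℂ) / ((t / y : ℝ) : ℂ) ^ (1 / 2 : ℂ) = (((√(t / y))⁻¹ : ℝ) : ℂ) := by
    rw [Real.sqrt_eq_rpow, Complex.ofReal_inv, Complex.ofReal_cpow hty.le, one_div]
    norm_num
  rw [e0] at key
  set C : ℂ := cexp (-π * t * n ^ 2 * (x ^ 2 + y ^ 2) / y + 2 * π * w * n * (x + I * y) / y) with hC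
  have e1 : ∀ m : ℤ, F x y t w (m, n) =
      C * cexp (-π * ((t / y : ℝ) : ℂ) * m ^ 2 + 2 * π * ((w - t * n * x) / y) * m) := by
    intro m
    rw [F, hC, ← Complex.exp_add]
    congr 1
    simp only [Q, lat]
    push_cast
    field_simp
    ring
  have e2 : ∀ k : ℤ, S x y t w (n, k) =
      C * cexp (-π / ((t / y : ℝ) : ℂ) * (k + I * ((w - t * n * x) / y)) ^ 2) := by
    intro k
    rw [S, hC, ← Complex.exp_add]
    congr 1
    push_cast
    have hI : I ^ 2 = -1 := Complex.I_sq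
    field_simp
    ring_nf
    rw [hI]
    ring
  rw [tsum_congr e1, tsum_congr e2, tsum_mul_left, tsum_mul_left, key]
  ring

lemma T_eq (hy : 0 < y) {t : ℝ} (ht : 0 < t) (w : ℂ) :
    T x y t w = (((√(t / y))⁻¹ : ℝ) : ℂ) * ∑' q : ℤ × ℤ, S x y t w q := by
  have h1 := F_summable (x := x) hy ht w
  have h2 : Summable (fun c : ℤ × ℤ => F x y t w ((Equiv.prodComm ℤ ℤ) c)) :=
    (Equiv.prodComm ℤ ℤ).summable_iff.mpr h1
  rw [T, ← (Equiv.prodComm ℤ ℤ).tsum_eq, h2.tsum_prod, (S_summable hy ht w).tsum_prod,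
    ← tsum_mul_left]
  exact tsum_congr fun n => row_poisson hy ht w n

/-- the equivalence `(n, k) ↦ (-k, -n)` -/
def sw : ℤ × ℤ ≃ ℤ × ℤ where
  toFun q := (-q.2, -q.1)
  invFun q := (-q.2, -q.1)
  left_inv q := by simp
  right_inv q := by simp

lemma S_inv (hy : 0 < y) {t : ℝ} (ht : 0 < t) (w : ℂ) (q : ℤ × ℤ) :
    S x y t⁻¹ (w / t) q = S x y t w (sw q) := by
  have hyc : (y : ℂ) ≠ 0 := Complex.ofReal_ne_zero.mpr hy.ne'
  have htc : (t : ℂ) ≠ 0 := Complex.ofReal_ne_zero.mpr ht.ne'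
  rw [S, S]
  congr 1
  simp only [sw, Equiv.coe_fn_mk]
  push_cast
  field_simp
  ring

theorem T_fe (hy : 0 < y) {t : ℝ} (ht : 0 < t) (w : ℂ) :
    T x y t w = (t : ℂ)⁻¹ * T x y t⁻¹ (w / t) := by
  have hti : 0 < t⁻¹ := inv_pos.mpr ht
  have htc : (t : ℂ) ≠ 0 := Complex.ofReal_ne_zero.mpr ht.ne'
  rw [T_eq hy ht, T_eq hy hti, ← sw.tsum_eq (S x y t w),
    tsum_congr (fun q => S_inv hy ht w q), ← mul_assoc]
  congr 1
  rw [← Complex.ofReal_inv, ← Complex.ofReal_mul]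
  congr 1
  have h1 : √(t / y) = t * √(t⁻¹ / y) := by
    rw [show t / y = t ^ 2 * (t⁻¹ / y) by field_simp, Real.sqrt_mul (by positivity),
      Real.sqrt_sq ht.le]
  rw [h1, mul_inv]

/-- weighted sums -/
noncomputable def Tk (x y t : ℝ) (k : ℕ) (w : ℂ) : ℂ :=
  ∑' p : ℤ × ℤ, (2 * π * lat x y p / y) ^ k * F x y t w p

lemma lat_pow_le (k : ℕ) (hk : k ≤ 2) (p : ℤ × ℤ) : ‖lat x y p‖ ^ k ≤ 1 + Q x y p := by
  rw [Q_eq]
  have h0 := norm_nonneg (lat x y p)
  interval_cases k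
  · simp
  · nlinarith [sq_nonneg (‖lat x y p‖ - 1)]
  · linarith

lemma Tk_bound (hy : 0 < y) {t : ℝ} (ht : 0 < t) (k : ℕ) (hk : k ≤ 2) {R : ℝ} (w : ℂ)
    (hw : ‖w‖ ≤ R) (p : ℤ × ℤ) :
    ‖(2 * π * lat x y p / y) ^ k * F x y t w p‖ ≤
      (2 * π / y) ^ k * rexp (2 * π * R ^ 2 / (t * y)) *
        (rexp (-(π * t / (2 * y)) * Q x y p) + Q x y p * rexp (-(π * t / (2 * y)) * Q x y p)) := by
  have hp := pi_pos
  have h1 := F_norm (x := x) hy ht w p
  have h2 := lat_pow_le (x := x) (y := y) k hk p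
  have h3 : ‖(2 * π * lat x y p / y : ℂ) ^ k‖ = (2 * π / y) ^ k * ‖lat x y p‖ ^ k := by
    rw [norm_pow, norm_div, norm_mul, norm_mul, Complex.norm_real, Complex.norm_real,
      Real.norm_of_nonneg hp.le, Real.norm_of_nonneg hy.le, ← mul_pow]
    simp only [Complex.norm_ofNat]
    ring_nf
  have h4 : rexp (2 * π * ‖w‖ ^ 2 / (t * y)) ≤ rexp (2 * π * R ^ 2 / (t * y)) := by
    apply Real.exp_le_exp.mpr
    gcongr
  rw [norm_mul, h3]
  calc (2 * π / y) ^ k * ‖lat x y p‖ ^ k * ‖F x y t w p‖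
      ≤ (2 * π / y) ^ k * (1 + Q x y p) *
        (rexp (2 * π * R ^ 2 / (t * y)) * rexp (-(π * t / (2 * y)) * Q x y p)) := by
        have hq := Q_nonneg (x := x) (y := y) p
        gcongr
        exact h1.trans (by gcongr)
    _ = _ := by ring

lemma bound_summable (hy : 0 < y) {t : ℝ} (ht : 0 < t) (C : ℝ) :
    Summable fun p : ℤ × ℤ => C *
      (rexp (-(π * t / (2 * y)) * Q x y p) + Q x y p * rexp (-(π * t / (2 * y)) * Q x y p)) := by
  have hc : 0 < π * t / (2 * y) := by positivity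
  exact ((sum_gauss hy hc).add (sum_gauss1 hy hc)).mul_left C

lemma Tk_term_diff (t : ℝ) (k : ℕ) (p : ℤ × ℤ) (w : ℂ) :
    HasDerivAt (fun w : ℂ => (2 * π * lat x y p / y) ^ k * F x y t w p)
      ((2 * π * lat x y p / y) ^ (k + 1) * F x y t w p) w := by
  have h1 : HasDerivAt (fun w : ℂ => (((-(π * t / y) * Q x y p : ℝ) : ℂ) +
      2 * π * w * lat x y p / y)) (2 * π * lat x y p / y) w := by
    have h2 := ((hasDerivAt_id w).const_mul (2 * π * lat x y p / y : ℂ)).const_add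
      ((-(π * t / y) * Q x y p : ℝ) : ℂ)
    rw [mul_one] at h2
    refine h2.congr_of_eventuallyEq (Eventually.of_forall fun z => ?_)
    simp only [id]
    ring
  have h3 := h1.cexp.const_mul ((2 * π * lat x y p / y : ℂ) ^ k)
  refine h3.congr_deriv ?_
  rw [F]
  ring

lemma Tk_hasDerivAt (hy : 0 < y) {t : ℝ} (ht : 0 < t) (k : ℕ) (hk : k ≤ 2) (w : ℂ) :
    HasDerivAt (Tk x y t k) (Tk x y t (k + 1) w) w := by
  set R := ‖w‖ + 1
  have hU : IsOpen (Metric.ball (0 : ℂ) R) := Metric.isOpen_ball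
  have hwU : w ∈ Metric.ball (0 : ℂ) R := by simp [R]
  have hd : ∀ p : ℤ × ℤ, DifferentiableOn ℂ
      (fun w : ℂ => (2 * π * lat x y p / y) ^ k * F x y t w p) (Metric.ball (0 : ℂ) R) :=
    fun p z _ => (Tk_term_diff t k p z).differentiableAt.differentiableWithinAt
  have hb : ∀ (p : ℤ × ℤ) (z : ℂ), z ∈ Metric.ball (0 : ℂ) R →
      ‖(2 * π * lat x y p / y) ^ k * F x y t z p‖ ≤ _ := fun p z hz =>
    Tk_bound hy ht k hk z (by simpa using (mem_ball_zero_iff.mp hz).le) p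
  have hs := bound_summable (x := x) hy ht ((2 * π / y) ^ k * rexp (2 * π * R ^ 2 / (t * y)))
  have h1 := Complex.hasSum_deriv_of_summable_norm hs hd hU hb hwU
  have h2 := (Complex.differentiableOn_tsum_of_summable_norm hs hd hU hb).differentiableAt
    (hU.mem_nhds hwU)
  have h3 : Tk x y t (k + 1) w = deriv (Tk x y t k) w := by
    rw [Tk]
    rw [← tsum_congr (fun p => (Tk_term_diff t k p w).deriv)]
    exact h1.tsum_eq
  rw [h3]
  exact h2.hasDerivAt

lemma Tk_zero (t : ℝ) : Tk x y t 0 = T x y t := by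
  funext w
  simp [Tk, T]

theorem T2_fe (hy : 0 < y) {t : ℝ} (ht : 0 < t) :
    Tk x y t 2 0 = ((t : ℂ)⁻¹) ^ 3 * Tk x y t⁻¹ 2 0 := by
  have hti : 0 < t⁻¹ := inv_pos.mpr ht
  have h0 : ∀ w : ℂ, Tk x y t 0 w = (t : ℂ)⁻¹ * Tk x y t⁻¹ 0 (w * (t : ℂ)⁻¹) := fun w => by
    rw [Tk_zero, Tk_zero, T_fe hy ht w, div_eq_mul_inv]
  have step : ∀ (k : ℕ) (c : ℂ), k ≤ 2 → (∀ w : ℂ, Tk x y t k w = c * Tk x y t⁻¹ k (w * (t : ℂ)⁻¹)) →
      ∀ w : ℂ, Tk x y t (k + 1) w = (c * (t : ℂ)⁻¹) * Tk x y t⁻¹ (k + 1) (w * (t : ℂ)⁻¹) := by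
    intro k c hk h w
    have h1 := Tk_hasDerivAt (x := x) hy ht k hk w
    have h2 : HasDerivAt (fun w : ℂ => w * (t : ℂ)⁻¹) ((t : ℂ)⁻¹) w := by
      simpa using (hasDerivAt_id w).mul_const ((t : ℂ)⁻¹)
    have h3 := ((Tk_hasDerivAt (x := x) hy hti k hk (w * (t : ℂ)⁻¹)).comp w h2).const_mul c
    have h4 : HasDerivAt (Tk x y t k) _ w := h3.congr_of_eventuallyEq
      (Eventually.of_forall fun z => h z)
    rw [h1.unique h4]
    ring
  have h1 := step 0 _ (by norm_num) h0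
  have h2 := step 1 _ (by norm_num) h1 0
  rw [zero_mul] at h2
  rw [h2]
  ring

/-- the theta series of `λ ^ 2` -/
noncomputable def th (x y t : ℝ) : ℂ :=
  ∑' p : ℤ × ℤ, lat x y p ^ 2 * ((rexp (-(π / y * Q x y p) * t) : ℝ) : ℂ)

lemma th_term_norm (t : ℝ) (p : ℤ × ℤ) :
    ‖lat x y p ^ 2 * ((rexp (-(π / y * Q x y p) * t) : ℝ) : ℂ)‖
      = Q x y p * rexp (-(π / y * t) * Q x y p) := by
  rw [norm_mul, norm_pow, ← Q_eq, Complex.norm_real, Real.norm_eq_abs,
    abs_of_pos (Real.exp_pos _)]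
  congr 2
  ring

lemma th_summable (hy : 0 < y) {t : ℝ} (ht : 0 < t) :
    Summable fun p : ℤ × ℤ => lat x y p ^ 2 * ((rexp (-(π / y * Q x y p) * t) : ℝ) : ℂ) := by
  refine Summable.of_norm ?_
  simp only [th_term_norm]
  exact sum_gauss1 hy (by have := pi_pos; positivity)

lemma hasSum_th (hy : 0 < y) {t : ℝ} (ht : 0 < t) :
    HasSum (fun p : ℤ × ℤ => lat x y p ^ 2 * ((rexp (-(π / y * Q x y p) * t) : ℝ) : ℂ))
      (th x y t) := (th_summable hy ht).hasSum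

lemma Tk_two (t : ℝ) : Tk x y t 2 0 = (2 * π / y) ^ 2 * th x y t := by
  rw [Tk, th, ← tsum_mul_left]
  refine tsum_congr fun p => ?_
  rw [F, Complex.ofReal_exp]
  rw [show (((-(π * t / y) * Q x y p : ℝ) : ℂ) + 2 * π * 0 * lat x y p / y)
    = ((-(π / y * Q x y p) * t : ℝ) : ℂ) by push_cast; ring]
  ring

theorem th_fe (hy : 0 < y) {t : ℝ} (ht : 0 < t) : th x y (1 / t) = (t : ℂ) ^ 3 * th x y t := by
  have h := T2_fe (x := x) hy ht
  rw [Tk_two, Tk_two] at h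
  have hp : (π : ℂ) ≠ 0 := Complex.ofReal_ne_zero.mpr pi_pos.ne'
  have hyc : (y : ℂ) ≠ 0 := Complex.ofReal_ne_zero.mpr hy.ne'
  have htc : (t : ℂ) ≠ 0 := Complex.ofReal_ne_zero.mpr ht.ne'
  have h2 : th x y t = ((t : ℂ)⁻¹) ^ 3 * th x y t⁻¹ := by
    have hne : ((2 * π / y : ℂ)) ^ 2 ≠ 0 := pow_ne_zero 2 (div_ne_zero (mul_ne_zero two_ne_zero hp) hyc)
    refine mul_left_cancel₀ hne ?_
    rw [h]; ring
  rw [h2, one_div]
  field_simp

lemma one_le_sq {p : ℤ × ℤ} (hp : p ≠ 0) : (1 : ℝ) ≤ (p.1 : ℝ) ^ 2 + (p.2 : ℝ) ^ 2 := by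
  have h : (1 : ℤ) ≤ p.1 ^ 2 + p.2 ^ 2 := by
    by_contra hc
    have h1 : p.1 ^ 2 + p.2 ^ 2 ≤ 0 := by omega
    have h2 : p.1 = 0 := by
      have : p.1 ^ 2 = 0 := le_antisymm (by nlinarith [sq_nonneg p.2]) (sq_nonneg _)
      exact pow_eq_zero_iff (two_ne_zero) |>.mp this
    have h3 : p.2 = 0 := by
      have : p.2 ^ 2 = 0 := le_antisymm (by nlinarith [sq_nonneg p.1]) (sq_nonneg _)
      exact pow_eq_zero_iff (two_ne_zero) |>.mp this
    exact hp (Prod.ext h2 h3)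
  exact_mod_cast h

lemma del_le_Q (hy : 0 < y) {p : ℤ × ℤ} (hp : p ≠ 0) : del x y ≤ Q x y p := by
  have h1 := Q_lower (x := x) hy p
  have h2 := one_le_sq hp
  have h3 := del_pos (x := x) (y := y)
  nlinarith

lemma Q_zero : Q x y 0 = 0 := by simp [Q]

lemma th_bound (hy : 0 < y) {t : ℝ} (ht : 1 ≤ t) :
    ‖th x y t‖ ≤ (∑' p : ℤ × ℤ, Q x y p * rexp (-(π / y) * Q x y p)) *
      rexp (-(π / y * del x y) * (t - 1)) := by
  have hp := pi_pos
  have hd := del_pos (x := x) (y := y)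
  have hc : 0 < π / y := by positivity
  have h1 := (sum_gauss1 (x := x) hy hc).hasSum.mul_right (rexp (-(π / y * del x y) * (t - 1)))
  rw [th, ← h1.tsum_eq]
  refine tsum_of_norm_bounded h1.summable.hasSum fun p => ?_
  rw [th_term_norm]
  by_cases hz : p = 0
  · subst hz
    simp [Q_zero]
  · have h3 := del_le_Q (x := x) hy hz
    rw [mul_assoc (Q x y p), ← Real.exp_add]
    refine mul_le_mul_of_nonneg_left (Real.exp_le_exp.mpr ?_) (Q_nonneg p)
    nlinarith [mul_nonneg hc.le (mul_nonneg (sub_nonneg.mpr h3) (sub_nonneg.mpr ht))]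

lemma th_isBigO (hy : 0 < y) (r : ℝ) : (fun t : ℝ => th x y t) =O[atTop] (fun t : ℝ => t ^ r) := by
  have hp := pi_pos
  have hd := del_pos (x := x) (y := y)
  have h4 : 0 < π / y * del x y := by positivity
  have h1 : (fun t : ℝ => th x y t) =O[atTop] (fun t : ℝ => rexp (-(π / y * del x y) * t)) := by
    refine Asymptotics.IsBigO.of_bound ((∑' p : ℤ × ℤ, Q x y p * rexp (-(π / y) * Q x y p)) *
      rexp (π / y * del x y)) ?_
    filter_upwards [eventually_ge_atTop 1] with t ht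
    rw [Real.norm_eq_abs, abs_of_pos (Real.exp_pos _), mul_assoc, ← Real.exp_add]
    convert th_bound hy ht using 3
    ring
  exact h1.trans (isLittleO_exp_neg_mul_rpow_atTop h4 r).isBigO

lemma continuousOn_th (hy : 0 < y) : ContinuousOn (th x y) (Ioi 0) := by
  intro u hu
  have hu' : 0 < u := hu
  have hp := pi_pos
  have h : ContinuousOn (th x y) (Ioi (u / 2)) := by
    refine continuousOn_tsum (u := fun p : ℤ × ℤ => Q x y p * rexp (-(π / y * (u / 2)) * Q x y p))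
      (fun p => ?_) (sum_gauss1 hy (by positivity)) ?_
    · refine ContinuousOn.mul continuousOn_const ?_
      exact Continuous.continuousOn (by fun_prop)
    · intro p v hv
      have hv' : u / 2 < v := hv
      rw [th_term_norm]
      refine mul_le_mul_of_nonneg_left (Real.exp_le_exp.mpr ?_) (Q_nonneg p)
      have h1 : 0 ≤ π / y * Q x y p := mul_nonneg (by positivity) (Q_nonneg p)
      nlinarith
  exact (h.continuousAt (Ioi_mem_nhds (by linarith))).continuousWithinAt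

/-- the pair of functions with functional equation -/
noncomputable def P (x : ℝ) {y : ℝ} (hy : 0 < y) : WeakFEPair ℂ where
  f := fun t => th x y t
  g := fun t => th x y t
  k := 3
  ε := 1
  f₀ := 0
  g₀ := 0
  hf_int := (continuousOn_th hy).locallyIntegrableOn measurableSet_Ioi
  hg_int := (continuousOn_th hy).locallyIntegrableOn measurableSet_Ioi
  hk := by norm_num
  hε := one_ne_zero
  h_feq := fun t ht => by
    have ht' : 0 < t := ht
    rw [th_fe hy ht', one_mul, smul_eq_mul]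
    congr 1
    rw [← Complex.ofReal_pow]
    congr 1
    rw [← Real.rpow_natCast]
    norm_num
  hf_top := fun r => by simpa using th_isBigO hy r
  hg_top := fun r => by simpa using th_isBigO hy r

lemma P_strong (x : ℝ) (hy : 0 < y) : IsStrongFEPair (P x hy) := ⟨rfl, rfl⟩

lemma Lam_diff (x : ℝ) (hy : 0 < y) : Differentiable ℂ (P x hy).Λ :=
  (P_strong x hy).differentiable_Λ

lemma Lam_fe (x : ℝ) (hy : 0 < y) (s : ℂ) : (P x hy).Λ (3 - s) = (P x hy).Λ s := by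
  have h := (P x hy).functional_equation s
  have h2 : (P x hy).symm.Λ s = (P x hy).Λ s := by
    have e1 : (P x hy).symm.Λ = mellin (P x hy).symm.f := (P_strong x hy).symm.Λ_eq
    have e2 : (P x hy).Λ = mellin (P x hy).f := (P_strong x hy).Λ_eq
    rw [e1, e2]
    rfl
  rw [h2] at h
  have h3 : (P x hy).ε = 1 := rfl
  have h4 : (((P x hy).k : ℝ) : ℂ) = 3 := by
    have : (P x hy).k = 3 := rfl
    rw [this]; norm_num
  rw [h3, h4, one_smul] at h
  exact h

lemma Q_ge (hy : 0 < y) (p : ℤ × ℤ) : del x y * ‖p‖ ^ 2 ≤ Q x y p := by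
  have h1 : ‖p‖ = max ‖p.1‖ ‖p.2‖ := rfl
  have hd := del_pos (x := x) (y := y)
  refine le_trans ?_ (Q_lower (x := x) hy p)
  refine mul_le_mul_of_nonneg_left ?_ hd.le
  rw [h1, Int.norm_eq_abs, Int.norm_eq_abs]
  rcases le_total |(p.1 : ℝ)| |(p.2 : ℝ)| with h | h
  · rw [max_eq_right h, sq_abs]
    nlinarith [sq_nonneg (p.1 : ℝ)]
  · rw [max_eq_left h, sq_abs]
    nlinarith [sq_nonneg (p.2 : ℝ)]

lemma summable_Q_rpow (hy : 0 < y) {r : ℝ} (hr : 1 < r) :
    Summable (fun p : ℤ × ℤ => (Q x y p) ^ (-r)) := by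
  have hd := del_pos (x := x) (y := y)
  have h1 : Summable (fun p : ℤ × ℤ => ‖p‖ ^ (-(2 * r))) := by
    have := EisensteinSeries.summable_one_div_norm_rpow (k := 2 * r) (by linarith)
    rw [← (finTwoArrowEquiv ℤ).symm.summable_iff] at this
    refine this.congr fun p => ?_
    simp only [Function.comp]
    congr 1
    have e : ‖p‖ = max ‖p.1‖ ‖p.2‖ := rfl
    rw [e]
    rw [EisensteinSeries.norm_eq_max_natAbs]
    simp [finTwoArrowEquiv_symm_apply, Int.norm_eq_abs, Nat.cast_natAbs]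
  refine Summable.of_nonneg_of_le (fun p => Real.rpow_nonneg (Q_nonneg p) _) (fun p => ?_)
    (h1.mul_left ((del x y) ^ (-r)))
  by_cases hz : p = 0
  · subst hz
    rw [Q_zero, Real.zero_rpow (by linarith)]
    positivity
  · have hpos : 0 < ‖p‖ := norm_pos_iff.mpr hz
    calc (Q x y p) ^ (-r) ≤ (del x y * ‖p‖ ^ 2) ^ (-r) :=
          Real.rpow_le_rpow_of_nonpos (by positivity) (Q_ge hy p) (by linarith)
      _ = (del x y) ^ (-r) * ‖p‖ ^ (-(2 * r)) := by
          rw [Real.mul_rpow hd.le (by positivity), ← Real.rpow_natCast,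
            ← Real.rpow_mul (norm_nonneg p)]
          congr 2
          push_cast; ring

lemma hasSum_Lam (x : ℝ) (hy : 0 < y) {s : ℂ} (hs : 2 < s.re) :
    HasSum (fun p : ℤ × ℤ => Complex.Gamma s * lat x y p ^ 2 / ((π / y * Q x y p : ℝ) : ℂ) ^ s)
      ((P x hy).Λ s) := by
  have hp := pi_pos
  have e2 : (P x hy).Λ = mellin (P x hy).f := (P_strong x hy).Λ_eq
  rw [e2]
  refine hasSum_mellin (a := fun p : ℤ × ℤ => lat x y p ^ 2) (p := fun p => π / y * Q x y p)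
    (F := (P x hy).f) (s := s) ?_ (by linarith) ?_ ?_
  · intro p
    by_cases hz : p = 0
    · left; subst hz; simp [lat]
    · right
      have h1 := del_le_Q (x := x) hy hz
      have h2 := del_pos (x := x) (y := y)
      have h3 : 0 < Q x y p := by linarith
      positivity
  · intro t ht
    exact hasSum_th hy ht
  · have h1 := (summable_Q_rpow (x := x) hy (r := s.re - 1) (by linarith)).mul_left
      (((π / y) ^ s.re)⁻¹)
    refine h1.congr fun p => ?_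
    rw [norm_pow, ← Q_eq]
    by_cases hz : p = 0
    · subst hz
      rw [Q_zero, Real.zero_rpow (by linarith)]
      simp
    · have h1 := del_le_Q (x := x) hy hz
      have h3 := del_pos (x := x) (y := y)
      have h2 : 0 < Q x y p := by linarith
      rw [Real.mul_rpow (by positivity) h2.le, show -(s.re - 1) = 1 - s.re by ring,
        Real.rpow_sub h2, Real.rpow_one]
      field_simp

lemma hsC {ι : Type*} {f g : ι → ℂ} {a : ℂ} (h : HasSum f a)
    (e : ∀ i, g i = f i) : HasSum g a := by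
  rwa [show g = f from funext e]

/-- `Z(s) = ∑' λ ^ 2 / |λ| ^ (2 s)`, continued. -/
noncomputable def Z (x : ℝ) {y : ℝ} (hy : 0 < y) (s : ℂ) : ℂ :=
  (P x hy).Λ s * ((π / y : ℝ) : ℂ) ^ s * (Complex.Gamma s)⁻¹

lemma Z_diff (x : ℝ) (hy : 0 < y) : Differentiable ℂ (Z x hy) := by
  have hp := pi_pos
  have h0 : ((π / y : ℝ) : ℂ) ≠ 0 := by
    rw [Complex.ofReal_ne_zero]; positivity
  refine ((Lam_diff x hy).mul ?_).mul Complex.differentiable_one_div_Gamma
  intro s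
  exact (differentiableAt_id.const_cpow (Or.inl h0))

lemma hasSum_Z (x : ℝ) (hy : 0 < y) {s : ℂ} (hs : 2 < s.re) :
    HasSum (fun p : ℤ × ℤ => lat x y p ^ 2 / ((Q x y p : ℝ) : ℂ) ^ s) (Z x hy s) := by
  have hp := pi_pos
  have h0 : ((π / y : ℝ) : ℂ) ≠ 0 := by
    rw [Complex.ofReal_ne_zero]; positivity
  have hG : Complex.Gamma s ≠ 0 := Complex.Gamma_ne_zero_of_re_pos (by linarith)
  have h := ((hasSum_Lam x hy hs).mul_right (((π / y : ℝ) : ℂ) ^ s)).mul_right (Complex.Gamma s)⁻¹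
  have h1 : ((π / y : ℝ) : ℂ) ^ s ≠ 0 := by
    rw [Complex.cpow_def_of_ne_zero h0]; exact Complex.exp_ne_zero _
  refine hsC h fun p => ?_
  have e : (((π / y * Q x y p : ℝ)) : ℂ) ^ s
      = ((π / y : ℝ) : ℂ) ^ s * ((Q x y p : ℝ) : ℂ) ^ s := by
    rw [← Complex.mul_cpow_ofReal_nonneg (by positivity) (Q_nonneg p), ← Complex.ofReal_mul]
  rw [e]
  by_cases h2 : ((Q x y p : ℝ) : ℂ) ^ s = 0
  · rw [h2]; simp
  · field_simp

lemma hasDerivAt_invGamma : HasDerivAt (fun s : ℂ => (Complex.Gamma s)⁻¹) (-1) (-1) := by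
  have e : (fun s : ℂ => (Complex.Gamma s)⁻¹)
      = fun s => s * ((s + 1) * (Complex.Gamma (s + 2))⁻¹) := by
    funext s
    rw [Complex.one_div_Gamma_eq_self_mul_one_div_Gamma_add_one,
      Complex.one_div_Gamma_eq_self_mul_one_div_Gamma_add_one (s + 1)]
    congr 4
    ring
  have hh : DifferentiableAt ℂ (fun s : ℂ => (Complex.Gamma (s + 2))⁻¹) (-1) :=
    (Complex.differentiable_one_div_Gamma.comp (differentiable_id.add_const 2)) (-1)
  have h1 := ((hasDerivAt_id (-1 : ℂ)).add_const 1).mul hh.hasDerivAt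
  have h2 := (hasDerivAt_id (-1 : ℂ)).mul h1
  rw [e]
  have hG1 : Complex.Gamma (-1 + 2) = 1 := by
    rw [show (-1 + 2 : ℂ) = 1 by norm_num, Complex.Gamma_one]
  refine (h2 : HasDerivAt (fun s : ℂ => s * ((s + 1) * (Complex.Gamma (s + 2))⁻¹)) _
    (-1)).congr_deriv ?_
  simp [hG1]

theorem hasDerivAt_Z (x : ℝ) (hy : 0 < y) :
    HasDerivAt (Z x hy) (-(6 * ((y / π) ^ 5 : ℝ)) * Z x hy 4) (-1) := by
  have hp := pi_pos
  have h0 : ((π / y : ℝ) : ℂ) ≠ 0 := by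
    rw [Complex.ofReal_ne_zero]; positivity
  have hg : DifferentiableAt ℂ (fun s : ℂ => (P x hy).Λ s * ((π / y : ℝ) : ℂ) ^ s) (-1) := by
    refine (Lam_diff x hy (-1)).mul ?_
    exact (differentiableAt_id.const_cpow (Or.inl h0))
  have h1 := hg.hasDerivAt.mul hasDerivAt_invGamma
  refine (h1 : HasDerivAt (Z x hy) _ (-1)).congr_deriv ?_
  have hG1 : Complex.Gamma (-1 : ℂ) = 0 := by
    have := Complex.Gamma_neg_nat_eq_zero 1
    simpa using this
  have hG4 : Complex.Gamma (4 : ℂ) = 6 := by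
    have := Complex.Gamma_nat_eq_factorial 3
    have h3 : ((3 : ℕ) : ℂ) + 1 = 4 := by norm_num
    rw [h3] at this
    rw [this]
    norm_num [Nat.factorial]
  have hfe : (P x hy).Λ (-1) = (P x hy).Λ 4 := by
    have := Lam_fe x hy 4
    rw [← this]; norm_num
  rw [hG1, inv_zero, mul_zero, zero_add, hfe, Z, hG4]
  have e1 : ((π / y : ℝ) : ℂ) ^ (-1 : ℂ) = (((y / π : ℝ)) : ℂ) := by
    rw [Complex.cpow_neg_one, ← Complex.ofReal_inv, inv_div]
  have e4 : ((π / y : ℝ) : ℂ) ^ (4 : ℂ) = ((((y / π) ^ 4)⁻¹ : ℝ) : ℂ) := by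
    rw [show (4 : ℂ) = ((4 : ℕ) : ℂ) by norm_num, Complex.cpow_natCast, ← Complex.ofReal_pow]
    congr 1
    rw [← inv_pow, inv_div]
  rw [e1, e4]
  have hx : 0 < y / π := by positivity
  generalize y / π = v at *
  have hx' : (v : ℂ) ≠ 0 := by rw [Complex.ofReal_ne_zero]; exact hx.ne'
  push_cast
  field_simp

lemma Z_neg_one (x : ℝ) (hy : 0 < y) : Z x hy (-1) = 0 := by
  have hG1 : Complex.Gamma (-1 : ℂ) = 0 := by
    have := Complex.Gamma_neg_nat_eq_zero 1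
    simpa using this
  rw [Z, hG1, inv_zero, mul_zero]

/-- Summary for an arbitrary lattice `ℤ + ℤ (x + i y)`. -/
theorem lattice_L (x y : ℝ) (hy : 0 < y) :
    ∃ Z : ℂ → ℂ, Differentiable ℂ Z ∧
      (∀ s : ℂ, 2 < s.re → HasSum (fun p : ℤ × ℤ =>
        lat x y p ^ 2 / ((‖lat x y p‖ ^ 2 : ℝ) : ℂ) ^ s) (Z s)) ∧
      HasDerivAt Z (-(6 * ((y / π) ^ 5 : ℝ)) * Z 4) (-1) :=
  ⟨Z x hy, Z_diff x hy, fun s hs => by simpa only [Q_eq] using hasSum_Z x hy hs,
    hasDerivAt_Z x hy⟩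

end LatL
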