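import Mathlib

/-!
The theta series of `a ^ 2` over the ring of integers of `ℚ(√-7)` and the L-function
`L(f, s)` of the CM newform `f = 1/2 ∑ a ^ 2 q ^ |a| ^ 2` of weight 3 and level 7:
entire continuation, functional equation, `L'(f, -1)` in terms of `L(f, 4)`.
-/

open Complex Real Set Filter HurwitzZeta Topology

namespace BZLFun

/-- Gaussian sum in one variable with coefficients `c`. -/
noncomputable def K (c : ℤ → ℝ) (a u : ℝ) : ℝ :=
  ∑' j : ℤ, c j * rexp (-π * (j + a) ^ 2 * u)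

/-- The same with the weight `(j + a) ^ 2`. -/
noncomputable def K2 (c : ℤ → ℝ) (a u : ℝ) : ℝ :=
  ∑' j : ℤ, c j * ((j + a) ^ 2 * rexp (-π * (j + a) ^ 2 * u))

lemma sumG (a : ℝ) {u : ℝ} (hu : 0 < u) :
    Summable fun j : ℤ => rexp (-π * (j + a) ^ 2 * u) :=
  (hasSum_int_evenKernel a hu).summable

lemma bound2 {x u : ℝ} (hu : 0 < u) :
    x ^ 2 * rexp (-π * x ^ 2 * u) ≤ (2 / (π * u)) * rexp (-π * x ^ 2 * (u / 2)) := by
  have hp := pi_pos
  have h1 : π * x ^ 2 * (u / 2) ≤ rexp (π * x ^ 2 * (u / 2)) := by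
    have := add_one_le_exp (π * x ^ 2 * (u / 2)); linarith
  have h2 : rexp (-π * x ^ 2 * u) = rexp (-π * x ^ 2 * (u / 2)) * rexp (-π * x ^ 2 * (u / 2)) := by
    rw [← Real.exp_add]; congr 1; ring
  have h3 : rexp (π * x ^ 2 * (u / 2)) * rexp (-π * x ^ 2 * (u / 2)) = 1 := by
    rw [← Real.exp_add]; simp
  have h4 : x ^ 2 = (2 / (π * u)) * (π * x ^ 2 * (u / 2)) := by
    field_simp
  have h5 : 0 < 2 / (π * u) := by positivity
  have h6 := (Real.exp_pos (-π * x ^ 2 * (u / 2)))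
  calc x ^ 2 * rexp (-π * x ^ 2 * u)
      = (2 / (π * u)) * (π * x ^ 2 * (u / 2)) * rexp (-π * x ^ 2 * u) := by rw [← h4]
    _ ≤ (2 / (π * u)) * rexp (π * x ^ 2 * (u / 2)) * rexp (-π * x ^ 2 * u) := by
        gcongr
    _ = (2 / (π * u)) * rexp (-π * x ^ 2 * (u / 2)) := by
        rw [h2]; linear_combination (2 / (π * u)) * rexp (-π * x ^ 2 * (u / 2)) * h3


lemma sumG2 (a : ℝ) {u : ℝ} (hu : 0 < u) :
    Summable fun j : ℤ => (j + a) ^ 2 * rexp (-π * (j + a) ^ 2 * u) := by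
  refine Summable.of_nonneg_of_le (fun j => by positivity) (fun j => bound2 hu) ?_
  exact (sumG a (half_pos hu)).mul_left _

lemma sumK {c : ℤ → ℝ} (hc : ∀ j, |c j| ≤ 1) (a : ℝ) {u : ℝ} (hu : 0 < u) :
    Summable fun j : ℤ => c j * rexp (-π * (j + a) ^ 2 * u) := by
  refine Summable.of_norm_bounded (sumG a hu) (fun j => ?_)
  rw [norm_mul, Real.norm_eq_abs, Real.norm_eq_abs, abs_of_pos (Real.exp_pos _)]
  have := Real.exp_pos (-π * (j + a) ^ 2 * u)
  nlinarith [hc j]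

lemma sumK2 {c : ℤ → ℝ} (hc : ∀ j, |c j| ≤ 1) (a : ℝ) {u : ℝ} (hu : 0 < u) :
    Summable fun j : ℤ => c j * ((j + a) ^ 2 * rexp (-π * (j + a) ^ 2 * u)) := by
  refine Summable.of_norm_bounded (sumG2 a hu) (fun j => ?_)
  have h : 0 ≤ (j + a) ^ 2 * rexp (-π * (j + a) ^ 2 * u) := by positivity
  rw [norm_mul, Real.norm_eq_abs, Real.norm_eq_abs, abs_of_nonneg h]
  nlinarith [hc j]

lemma hasDerivAt_K {c : ℤ → ℝ} (hc : ∀ j, |c j| ≤ 1) (a : ℝ) {u : ℝ} (hu : 0 < u) :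
    HasDerivAt (K c a) (-π * K2 c a u) u := by
  have key := hasDerivAt_tsum_of_isPreconnected (𝕜 := ℝ) (t := Ioi (u / 2))
    (g := fun (j : ℤ) (v : ℝ) => c j * rexp (-π * (j + a) ^ 2 * v))
    (g' := fun (j : ℤ) (v : ℝ) => c j * (rexp (-π * (j + a) ^ 2 * v) * (-π * (j + a) ^ 2)))
    (u := fun j : ℤ => π * ((j + a) ^ 2 * rexp (-π * (j + a) ^ 2 * (u / 2)))) (y₀ := u) (y := u)
    ((sumG2 a (half_pos hu)).mul_left π) isOpen_Ioi isPreconnected_Ioi ?_ ?_
    (by simp [hu]) (sumK hc a hu) (by simp [hu])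
  · have e : (∑' j : ℤ, c j * (rexp (-π * (j + a) ^ 2 * u) * (-π * (j + a) ^ 2)))
        = -π * K2 c a u := by
      rw [K2, ← tsum_mul_left]
      refine tsum_congr fun j => ?_
      ring
    rw [← e]
    exact key
  · intro j v _
    have h1 : HasDerivAt (fun v : ℝ => -π * ((j : ℝ) + a) ^ 2 * v) (-π * ((j : ℝ) + a) ^ 2) v := by
      have := (hasDerivAt_id v).const_mul (-π * ((j : ℝ) + a) ^ 2)
      rwa [mul_one] at this
    exact h1.exp.const_mul (c j)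
  · intro j v hv
    have hv' : u / 2 < v := hv
    have h1 : rexp (-π * ((j : ℝ) + a) ^ 2 * v) ≤ rexp (-π * ((j : ℝ) + a) ^ 2 * (u / 2)) := by
      apply Real.exp_le_exp.mpr
      have : 0 ≤ π * ((j : ℝ) + a) ^ 2 := by have := pi_pos; positivity
      nlinarith
    have hp := pi_pos
    have h0 : |(-π * ((j : ℝ) + a) ^ 2)| = π * ((j : ℝ) + a) ^ 2 := by
      rw [abs_mul, abs_neg, abs_of_pos hp, abs_of_nonneg (sq_nonneg _)]
    rw [norm_mul, norm_mul, Real.norm_eq_abs, Real.norm_eq_abs, Real.norm_eq_abs,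
      abs_of_pos (Real.exp_pos _), h0]
    calc |c j| * (rexp (-π * ((j : ℝ) + a) ^ 2 * v) * (π * ((j : ℝ) + a) ^ 2))
        ≤ 1 * (rexp (-π * ((j : ℝ) + a) ^ 2 * (u / 2)) * (π * ((j : ℝ) + a) ^ 2)) := by
          gcongr
          exact hc j
      _ = _ := by ring

/-- The three coefficient patterns. -/
lemma abs_one_le (j : ℤ) : |(fun _ : ℤ => (1 : ℝ)) j| ≤ 1 := by simp

noncomputable def sg (j : ℤ) : ℝ := (-1 : ℝ) ^ j.natAbs

lemma abs_sg (j : ℤ) : |sg j| ≤ 1 := by simp [sg]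

lemma K_even (a : ℝ) {u : ℝ} (hu : 0 < u) : K (fun _ => 1) a u = evenKernel (a : UnitAddCircle) u := by
  have := (hasSum_int_evenKernel a hu).tsum_eq
  simp only [K, one_mul]
  exact this

lemma K_cos_half {u : ℝ} (hu : 0 < u) :
    K sg 0 u = cosKernel (((1 / 2 : ℝ) : ℝ) : UnitAddCircle) u := by
  have h := hasSum_int_cosKernel (1 / 2) hu
  have h2 : HasSum (fun n : ℤ => ((sg n * rexp (-π * (n + (0 : ℝ)) ^ 2 * u) : ℝ) : ℂ))
      ((cosKernel (((1 / 2 : ℝ) : ℝ) : UnitAddCircle) u : ℝ) : ℂ) := by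
    convert h using 2 with n
    have h3 : cexp (2 * π * I * ((1 / 2 : ℝ) : ℂ) * n) = ((sg n : ℝ) : ℂ) := by
      have : (2 * π * I * ((1 / 2 : ℝ) : ℂ) * n : ℂ) = n * (π * I) := by push_cast; ring
      rw [this, Complex.exp_int_mul, Complex.exp_pi_mul_I, sg]
      push_cast
      rcases Int.even_or_odd n with hn | hn
      · rw [hn.neg_one_zpow, Even.neg_one_pow (by simpa using hn)]
      · rw [hn.neg_one_zpow, Odd.neg_one_pow (by simpa using hn)]
    rw [h3]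
    push_cast
    simp
  have h4 := Complex.hasSum_iff _ _ |>.mp h2
  have h5 := h4.1
  simp only [Complex.ofReal_re] at h5
  rw [K]
  exact h5.tsum_eq

lemma F2_eq {F G F2 G2 : ℝ → ℝ} (hF : ∀ u, 0 < u → F u = (√u)⁻¹ * G (u⁻¹))
    (hF' : ∀ u, 0 < u → HasDerivAt F (-π * F2 u) u)
    (hG' : ∀ u, 0 < u → HasDerivAt G (-π * G2 u) u) {u : ℝ} (hu : 0 < u) :
    F2 u = (2 * π)⁻¹ * (√u * u)⁻¹ * G (u⁻¹) - (√u * u ^ 2)⁻¹ * G2 (u⁻¹) := by
  have hs : 0 < √u := Real.sqrt_pos.mpr hu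
  have hs2 : √u * √u = u := Real.mul_self_sqrt hu.le
  have h1 : HasDerivAt (fun v : ℝ => (√v)⁻¹) (-(1 / (2 * √u)) / (√u) ^ 2) u :=
    (Real.hasDerivAt_sqrt hu.ne').inv hs.ne'
  have h2 : HasDerivAt (fun v : ℝ => G (v⁻¹)) ((-π * G2 (u⁻¹)) * (-(u ^ 2)⁻¹)) u :=
    (hG' (u⁻¹) (inv_pos.mpr hu)).comp u (hasDerivAt_inv hu.ne')
  have h3 := h1.mul h2
  have h4 : HasDerivAt F _ u := h3.congr_of_eventuallyEq (by
    filter_upwards [Ioi_mem_nhds hu] with v hv
    simpa using hF v hv)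
  have h5 := (hF' u hu).unique h4
  have hp := pi_pos
  have h6 : F2 u = -(π⁻¹) * (-π * F2 u) := by field_simp
  rw [h6, h5]
  generalize √u = s at *
  subst hs2
  field_simp
  ring

lemma _root_.HasSum.congr_fun' {ι : Type*} {f g : ι → ℝ} {a : ℝ} (h : HasSum f a)
    (e : ∀ i, g i = f i) : HasSum g a := by
  rwa [show g = f from funext e]

lemma _root_.HasSum.congr_fun'' {ι : Type*} {f g : ι → ℂ} {a : ℂ} (h : HasSum f a)
    (e : ∀ i, g i = f i) : HasSum g a := by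
  rwa [show g = f from funext e]

lemma bracket_fe {F G F2 G2 : ℝ → ℝ} (hF : ∀ u, 0 < u → F u = (√u)⁻¹ * G (u⁻¹))
    (hF' : ∀ u, 0 < u → HasDerivAt F (-π * F2 u) u)
    (hG' : ∀ u, 0 < u → HasDerivAt G (-π * G2 u) u) {u : ℝ} (hu : 0 < u) :
    F2 u * F (7 * u) - 7 * (F u * F2 (7 * u)) =
      -((√7)⁻¹ * (u ^ 3)⁻¹) * (G2 (u⁻¹) * G ((7 * u)⁻¹) -
        7⁻¹ * (G (u⁻¹) * G2 ((7 * u)⁻¹))) := by
  have h7u : 0 < 7 * u := by positivity
  rw [F2_eq hF hF' hG' hu, F2_eq hF hF' hG' h7u, hF u hu, hF _ h7u, Real.sqrt_mul (by norm_num)]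
  have hs : 0 < √u := Real.sqrt_pos.mpr hu
  have hs2 : √u * √u = u := Real.mul_self_sqrt hu.le
  have hr : 0 < √(7 : ℝ) := Real.sqrt_pos.mpr (by norm_num)
  have hr2 : √(7 : ℝ) * √(7 : ℝ) = 7 := Real.mul_self_sqrt (by norm_num)
  have hp := pi_pos
  generalize √(7 : ℝ) = r at *
  generalize G (u⁻¹) = g1
  generalize G ((7 * u)⁻¹) = g2
  generalize G2 (u⁻¹) = g3
  generalize G2 ((7 * u)⁻¹) = g4
  generalize √u = s at *
  subst hs2
  field_simp
  ring

/-- `a = m + n ω`, `ω = (1 + √-7) / 2`: norm and real part of the square. -/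
noncomputable def Nm (p : ℤ × ℤ) : ℝ := ((2 * p.1 + p.2 : ℝ) ^ 2 + 7 * (p.2 : ℝ) ^ 2) / 4
noncomputable def Rs (p : ℤ × ℤ) : ℝ := ((2 * p.1 + p.2 : ℝ) ^ 2 - 7 * (p.2 : ℝ) ^ 2) / 4

noncomputable def one1 : ℤ → ℝ := fun _ => 1

lemma abs_one1 (j : ℤ) : |one1 j| ≤ 1 := by simp [one1]

lemma hs_mul {f g : ℤ → ℝ} (hf : Summable f) (hg : Summable g) :
    HasSum (fun p : ℤ × ℤ => f p.1 * g p.2) ((∑' j, f j) * ∑' j, g j) := by
  refine hf.hasSum.mul hg.hasSum ?_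
  exact summable_mul_of_summable_norm (summable_norm_iff.mpr hf) (summable_norm_iff.mpr hg)

/-- bracket of products -/
lemma hasSum_bracket {c : ℤ → ℝ} (hc : ∀ j, |c j| ≤ 1) (a : ℝ) {u v : ℝ} (hu : 0 < u)
    (hv : 0 < v) (k : ℝ) :
    HasSum (fun p : ℤ × ℤ => (c p.1 * c p.2) * (((p.1 + a) ^ 2 - k * (p.2 + a) ^ 2) *
      (rexp (-π * (p.1 + a) ^ 2 * u) * rexp (-π * (p.2 + a) ^ 2 * v))))
      (K2 c a u * K c a v - k * (K c a u * K2 c a v)) := by
  have h1 := hs_mul (sumK2 hc a hu) (sumK hc a hv)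
  have h2 := (hs_mul (sumK hc a hu) (sumK2 hc a hv)).mul_left k
  refine (h1.sub h2).congr_fun' fun p => ?_
  ring

/-- the theta series, as a bracket of one variable theta functions -/
noncomputable def th (t : ℝ) : ℝ :=
  (K2 one1 0 (2 * t / √7) * K one1 0 (7 * (2 * t / √7)) -
      7 * (K one1 0 (2 * t / √7) * K2 one1 0 (7 * (2 * t / √7)))) +
    (K2 one1 (1 / 2) (2 * t / √7) * K one1 (1 / 2) (7 * (2 * t / √7)) -
      7 * (K one1 (1 / 2) (2 * t / √7) * K2 one1 (1 / 2) (7 * (2 * t / √7))))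

/-- splitting of `O_K` in `ℤ + ℤ √-7` and its other coset -/
def spl : (ℤ × ℤ) ⊕ (ℤ × ℤ) ≃ ℤ × ℤ where
  toFun := Sum.elim (fun q => (q.1 - q.2, 2 * q.2)) (fun q => (q.1 - q.2, 2 * q.2 + 1))
  invFun p := if p.2 % 2 = 0 then Sum.inl (p.1 + p.2 / 2, p.2 / 2)
    else Sum.inr (p.1 + p.2 / 2, p.2 / 2)
  left_inv := by
    rintro (⟨x, y⟩ | ⟨x, y⟩)
    · simp
    · have h1 : (2 * y + 1) % 2 = 1 := by omega
      have h2 : (2 * y + 1) / 2 = y := by omega
      simp [h1, h2]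
  right_inv := by
    rintro ⟨x, y⟩
    by_cases h : y % 2 = 0
    · simp only [h, if_true, Sum.elim_inl, Prod.mk.injEq]
      omega
    · simp only [h, if_false, Sum.elim_inr, Prod.mk.injEq]
      omega

lemma sqrt7_pos : 0 < √(7 : ℝ) := Real.sqrt_pos.mpr (by norm_num)

lemma sqrt7_sq : √(7 : ℝ) * √(7 : ℝ) = 7 := Real.mul_self_sqrt (by norm_num)

lemma hasSum_gen {t : ℝ} (ht : 0 < t) (k : ℝ) :
    HasSum (fun p : ℤ × ℤ => ((2 * p.1 + p.2 : ℝ) ^ 2 - k * (p.2 : ℝ) ^ 2) / 4 *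
      rexp (-(2 * π * Nm p / √7) * t))
      ((K2 one1 0 (2 * t / √7) * K one1 0 (7 * (2 * t / √7)) -
      k * (K one1 0 (2 * t / √7) * K2 one1 0 (7 * (2 * t / √7)))) +
    (K2 one1 (1 / 2) (2 * t / √7) * K one1 (1 / 2) (7 * (2 * t / √7)) -
      k * (K one1 (1 / 2) (2 * t / √7) * K2 one1 (1 / 2) (7 * (2 * t / √7))))) := by
  have hr := sqrt7_pos
  have hr2 := sqrt7_sq
  have hu : 0 < 2 * t / √7 := by positivity
  have hv : 0 < 7 * (2 * t / √7) := by positivity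
  rw [← spl.hasSum_iff]
  refine HasSum.sum ?_ ?_
  · convert hasSum_bracket abs_one1 0 hu hv k using 2 with p
    simp only [Function.comp, spl, Equiv.coe_fn_mk, Sum.elim_inl, Nm, one1]
    rw [← Real.exp_add, one_mul, one_mul]
    congr 1
    · push_cast; ring
    · congr 1; push_cast; ring
  · convert hasSum_bracket abs_one1 (1 / 2) hu hv k using 2 with p
    simp only [Function.comp, spl, Equiv.coe_fn_mk, Sum.elim_inr, Nm, one1]
    rw [← Real.exp_add, one_mul, one_mul]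
    congr 1
    · push_cast; ring
    · congr 1; push_cast; ring

lemma hasSum_th {t : ℝ} (ht : 0 < t) :
    HasSum (fun p : ℤ × ℤ => Rs p * rexp (-(2 * π * Nm p / √7) * t)) (th t) :=
  hasSum_gen ht 7

lemma summable_Nm {t : ℝ} (ht : 0 < t) :
    Summable (fun p : ℤ × ℤ => Nm p * rexp (-(2 * π * Nm p / √7) * t)) := by
  refine (hasSum_gen ht (-7)).summable.congr fun p => ?_
  simp only [Nm]
  congr 1
  ring

lemma E_fe (u : ℝ) (hu : 0 < u) : K one1 0 u = (√u)⁻¹ * K one1 0 (u⁻¹) := by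
  have h1 := K_even 0 hu
  have h2 := K_even 0 (inv_pos.mpr hu)
  have h3 := evenKernel_functional_equation 0 u
  rw [← evenKernel_eq_cosKernel_of_zero, one_div (u ^ (1 / 2 : ℝ)), one_div u,
    ← Real.sqrt_eq_rpow] at h3
  unfold one1
  rw [h1, h2]
  simpa using h3

lemma O_fe (u : ℝ) (hu : 0 < u) : K one1 (1 / 2) u = (√u)⁻¹ * K sg 0 (u⁻¹) := by
  have h1 := K_even (1 / 2) hu
  have h2 := K_cos_half (inv_pos.mpr hu)
  have h3 := evenKernel_functional_equation (((1 / 2 : ℝ) : ℝ) : UnitAddCircle) u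
  rw [one_div (u ^ (1 / 2 : ℝ)), one_div u, ← Real.sqrt_eq_rpow] at h3
  unfold one1
  rw [h1, h2]
  exact h3

/-- pairs of integers of the same parity -/
def par (q : ℤ × ℤ) : ℤ × ℤ := (q.2, 2 * q.1 + q.2)

lemma par_inj : Function.Injective par := by
  rintro ⟨a, b⟩ ⟨c, d⟩ h
  simp only [par, Prod.mk.injEq] at h ⊢
  omega

lemma one_add_sg (m n : ℤ) (h : (m, n) ∉ range par) : 1 + sg m * sg n = 0 := by
  have h1 : Odd (m + n) := by
    rw [← Int.not_even_iff_odd]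
    rintro ⟨k, hk⟩
    refine h ⟨(n - k, m), ?_⟩
    simp only [par]
    congr 1
    omega
  unfold sg
  rw [← pow_add]
  have h2 : Odd (m.natAbs + n.natAbs) := by
    rw [← Int.odd_coe_nat]
    push_cast
    rcases abs_cases m with hm | hm <;> rcases abs_cases n with hn | hn <;> rw [hm.1, hn.1]
    · exact h1
    · rw [← Int.not_even_iff_odd] at *; simpa [parity_simps] using h1
    · rw [← Int.not_even_iff_odd] at *; simpa [parity_simps] using h1
    · rw [← Int.not_even_iff_odd] at *; simpa [parity_simps] using h1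
  rw [h2.neg_one_pow]
  ring

lemma sg_mul_same (a b : ℤ) : sg b * sg (2 * a + b) = 1 := by
  unfold sg
  rw [← pow_add]
  apply Even.neg_one_pow
  rw [← Int.even_coe_nat]
  push_cast
  rcases abs_cases b with hm | hm <;> rcases abs_cases (2 * a + b) with hn | hn <;>
    rw [hm.1, hn.1]
  · exact ⟨a + b, by ring⟩
  · exact ⟨-a, by ring⟩
  · exact ⟨a, by ring⟩
  · exact ⟨-a - b, by ring⟩

lemma dual_bracket {w : ℝ} (hw : 0 < w) (t : ℝ) (ht : 0 < t) (e : w = √7 * t / 14) :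
    (K2 one1 0 (7 * w) * K one1 0 w - 7⁻¹ * (K one1 0 (7 * w) * K2 one1 0 w)) +
      (K2 sg 0 (7 * w) * K sg 0 w - 7⁻¹ * (K sg 0 (7 * w) * K2 sg 0 w)) = -(8 / 7) * th t := by
  have hr := sqrt7_pos
  have hr2 := sqrt7_sq
  have h7w : 0 < 7 * w := by positivity
  have h1 := (hasSum_bracket abs_one1 0 h7w hw 7⁻¹).add (hasSum_bracket abs_sg 0 h7w hw 7⁻¹)
  have h2 := (hasSum_th ht).mul_left (-(8 / 7))
  refine HasSum.unique h1 ?_
  rw [← par_inj.hasSum_iff]
  · refine h2.congr_fun' fun p => ?_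
    have e1 : rexp (-(2 * π * Nm p / √7) * t)
        = rexp (-π * ((par p).1 + (0 : ℝ)) ^ 2 * (7 * w)) *
          rexp (-π * ((par p).2 + (0 : ℝ)) ^ 2 * w) := by
      rw [← Real.exp_add]
      congr 1
      rw [e]
      simp only [par, Nm]
      push_cast
      field_simp
      have : √(7 : ℝ) ^ 2 = 7 := Real.sq_sqrt (by norm_num)
      rw [this]
      ring
    rw [e1]
    simp only [Function.comp, par, one1, Rs]
    have := sg_mul_same p.1 p.2
    push_cast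
    rw [show (1 : ℝ) * 1 = 1 by ring, this]
    ring
  · intro p hp
    have h3 := one_add_sg p.1 p.2 hp
    simp only [one1]
    linear_combination ((p.1 + (0 : ℝ)) ^ 2 - 7⁻¹ * (p.2 + (0 : ℝ)) ^ 2) *
      (rexp (-π * (p.1 + (0 : ℝ)) ^ 2 * (7 * w)) * rexp (-π * (p.2 + (0 : ℝ)) ^ 2 * w)) * h3

theorem th_fe {t : ℝ} (ht : 0 < t) : th (1 / t) = t ^ 3 * th t := by
  have hr := sqrt7_pos
  have hr2 := sqrt7_sq
  have hu : 0 < 2 * (1 / t) / √7 := by positivity
  have hE := bracket_fe (F := K one1 0) (G := K one1 0) (F2 := K2 one1 0) (G2 := K2 one1 0)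
    E_fe (fun u hu => hasDerivAt_K abs_one1 0 hu) (fun u hu => hasDerivAt_K abs_one1 0 hu) hu
  have hO := bracket_fe (F := K one1 (1 / 2)) (G := K sg 0) (F2 := K2 one1 (1 / 2)) (G2 := K2 sg 0)
    O_fe (fun u hu => hasDerivAt_K abs_one1 (1 / 2) hu) (fun u hu => hasDerivAt_K abs_sg 0 hu) hu
  have hw : 0 < √7 * t / 14 := by positivity
  have hd := dual_bracket hw t ht rfl
  have e1 : (2 * (1 / t) / √7)⁻¹ = 7 * (√7 * t / 14) := by
    field_simp
    norm_num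
  have e2 : (7 * (2 * (1 / t) / √7))⁻¹ = √7 * t / 14 := by
    field_simp
    nlinarith
  rw [th, hE, hO, e1, e2]
  have h3 : (√7)⁻¹ * ((2 * (1 / t) / √7) ^ 3)⁻¹ = 7 / 8 * t ^ 3 := by
    field_simp
    have : √(7 : ℝ) ^ 2 = 7 := Real.sq_sqrt (by norm_num)
    rw [this]
    norm_num
  rw [h3]
  linear_combination (-(7 / 8) * t ^ 3) * hd

/-- `(1 + √-7) / 2` -/
noncomputable def om : ℂ := ((1 / 2 : ℝ) : ℂ) + ((√7 / 2 : ℝ) : ℂ) * I

/-- The element `m + n (1 + √-7) / 2` of the ring of integers of `ℚ(√-7)`. -/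
noncomputable def el (p : ℤ × ℤ) : ℂ := p.1 + p.2 * om

lemma el_re (p : ℤ × ℤ) : (el p).re = p.1 + p.2 / 2 := by
  simp [el, om]; ring

lemma el_im (p : ℤ × ℤ) : (el p).im = p.2 * √7 / 2 := by
  simp [el, om]; ring

lemma Nm_eq (p : ℤ × ℤ) : Nm p = ‖el p‖ ^ 2 := by
  rw [← Complex.normSq_eq_norm_sq, Complex.normSq_apply, el_re, el_im, Nm]
  have := sqrt7_sq
  linear_combination (-(p.2 : ℝ) ^ 2 / 4) * this

lemma el_sq_re (p : ℤ × ℤ) : (el p ^ 2).re = Rs p := by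
  rw [pow_two, Complex.mul_re, el_re, el_im, Rs]
  have := sqrt7_sq
  linear_combination (-(p.2 : ℝ) ^ 2 / 4) * this

lemma Nm_int (p : ℤ × ℤ) : Nm p = ((p.1 ^ 2 + p.1 * p.2 + 2 * p.2 ^ 2 : ℤ) : ℝ) := by
  simp only [Nm]; push_cast; ring

lemma one_le_Nm {p : ℤ × ℤ} (hp : p ≠ 0) : 1 ≤ Nm p := by
  rw [Nm_int]
  have h : 0 < p.1 ^ 2 + p.1 * p.2 + 2 * p.2 ^ 2 := by
    by_contra hc
    have h1 : (2 * p.1 + p.2) ^ 2 + 7 * p.2 ^ 2 ≤ 0 := by nlinarith
    have h2 : p.2 ^ 2 ≤ 0 := by nlinarith [sq_nonneg (2 * p.1 + p.2)]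
    have h3 : p.2 = 0 := by
      have := le_antisymm h2 (sq_nonneg _)
      exact pow_eq_zero_iff (two_ne_zero) |>.mp this
    have h4 : p.1 = 0 := by
      rw [h3] at h1
      have : p.1 ^ 2 ≤ 0 := by nlinarith
      have := le_antisymm this (sq_nonneg _)
      exact pow_eq_zero_iff (two_ne_zero) |>.mp this
    exact hp (Prod.ext h4 h3)
  exact_mod_cast h

lemma Nm_nonneg (p : ℤ × ℤ) : 0 ≤ Nm p := by rw [Nm_eq]; positivity

lemma abs_Rs_le (p : ℤ × ℤ) : |Rs p| ≤ Nm p := by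
  rw [← el_sq_re, Nm_eq, ← norm_pow]
  exact Complex.abs_re_le_norm _

/-- complex conjugation on the index set -/
def cj : ℤ × ℤ ≃ ℤ × ℤ where
  toFun p := (p.1 + p.2, -p.2)
  invFun p := (p.1 + p.2, -p.2)
  left_inv p := by ext <;> simp
  right_inv p := by ext <;> simp

lemma el_cj (p : ℤ × ℤ) : el (cj p) = (starRingEnd ℂ) (el p) := by
  apply Complex.ext
  · rw [Complex.conj_re, el_re, el_re]; simp only [cj, Equiv.coe_fn_mk]; push_cast; ring
  · rw [Complex.conj_im, el_im, el_im]; simp only [cj, Equiv.coe_fn_mk]; push_cast; ring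

lemma Nm_cj (p : ℤ × ℤ) : Nm (cj p) = Nm p := by
  rw [Nm_eq, Nm_eq, el_cj, Complex.norm_conj]

lemma hasSum_thC {t : ℝ} (ht : 0 < t) :
    HasSum (fun p : ℤ × ℤ => el p ^ 2 * (rexp (-(2 * π * Nm p / √7) * t) : ℝ)) (th t : ℂ) := by
  have hs : Summable (fun p : ℤ × ℤ => el p ^ 2 * ((rexp (-(2 * π * Nm p / √7) * t) : ℝ) : ℂ)) := by
    refine Summable.of_norm_bounded (summable_Nm ht) fun p => ?_
    rw [norm_mul, norm_pow, ← Nm_eq, Complex.norm_real, Real.norm_eq_abs,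
      abs_of_pos (Real.exp_pos _)]
  have h1 := hs.hasSum
  have h2 : HasSum (fun p : ℤ × ℤ => (starRingEnd ℂ) (el p ^ 2 *
      ((rexp (-(2 * π * Nm p / √7) * t) : ℝ) : ℂ))) _ := h1.mapL (Complex.conjCLE.toContinuousLinearMap)
  have h3 : (starRingEnd ℂ) (∑' p : ℤ × ℤ, el p ^ 2 * ((rexp (-(2 * π * Nm p / √7) * t) : ℝ) : ℂ))
      = ∑' p : ℤ × ℤ, el p ^ 2 * ((rexp (-(2 * π * Nm p / √7) * t) : ℝ) : ℂ) := by
    refine HasSum.unique h2 ?_
    rw [← cj.hasSum_iff]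
    convert h1 using 2 with p
    simp only [Function.comp]
    rw [Nm_cj, el_cj, map_mul, map_pow, Complex.conj_conj, Complex.conj_ofReal]
  have h4 := Complex.hasSum_iff _ _ |>.mp h1
  have h5 : (∑' p : ℤ × ℤ, el p ^ 2 * ((rexp (-(2 * π * Nm p / √7) * t) : ℝ) : ℂ)) = (th t : ℂ) := by
    apply Complex.ext
    · rw [Complex.ofReal_re]
      refine HasSum.unique h4.1 ?_
      refine (hasSum_th ht).congr_fun' fun p => ?_
      rw [Complex.re_mul_ofReal, el_sq_re]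
    · rw [Complex.ofReal_im]
      exact Complex.conj_eq_iff_im.mp h3
  rw [← h5]
  exact h1

lemma th_bound {t : ℝ} (ht : 1 ≤ t) :
    |th t| ≤ (∑' p : ℤ × ℤ, Nm p * rexp (-(2 * π * Nm p / √7) * 1)) *
      rexp (-(2 * π / √7) * (t - 1)) := by
  have hr := sqrt7_pos
  have hp := pi_pos
  have h0 : 0 < t := by linarith
  have h1 := (summable_Nm one_pos).hasSum.mul_right (rexp (-(2 * π / √7) * (t - 1)))
  have h2 := hasSum_th h0
  rw [← Real.norm_eq_abs, ← h2.tsum_eq, ← h1.tsum_eq]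
  refine tsum_of_norm_bounded h1.summable.hasSum fun p => ?_
  rw [norm_mul, Real.norm_eq_abs, Real.norm_eq_abs, abs_of_pos (Real.exp_pos _)]
  by_cases hz : p = 0
  · subst hz
    simp [Rs, Nm]
  · have h3 := one_le_Nm hz
    rw [mul_assoc (Nm p), ← Real.exp_add]
    refine mul_le_mul (abs_Rs_le p) (Real.exp_le_exp.mpr ?_) (Real.exp_pos _).le (Nm_nonneg p)
    have h4 : 0 < 2 * π / √7 := by positivity
    have h5 : 2 * π * Nm p / √7 = 2 * π / √7 * Nm p := by ring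
    rw [h5]
    nlinarith [mul_nonneg h4.le (mul_nonneg (sub_nonneg.mpr h3) (sub_nonneg.mpr ht))]

lemma th_isBigO (r : ℝ) : (fun t : ℝ => ((th t : ℝ) : ℂ)) =O[atTop] (fun t : ℝ => t ^ r) := by
  have hr := sqrt7_pos
  have hp := pi_pos
  have h4 : 0 < 2 * π / √7 := by positivity
  have h1 : (fun t : ℝ => ((th t : ℝ) : ℂ)) =O[atTop] (fun t : ℝ => rexp (-(2 * π / √7) * t)) := by
    refine Asymptotics.IsBigO.of_bound ((∑' p : ℤ × ℤ, Nm p * rexp (-(2 * π * Nm p / √7) * 1)) *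
      rexp (2 * π / √7)) ?_
    filter_upwards [eventually_ge_atTop 1] with t ht
    rw [Complex.norm_real, Real.norm_eq_abs, Real.norm_eq_abs, abs_of_pos (Real.exp_pos _),
      mul_assoc, ← Real.exp_add]
    convert th_bound ht using 3
    ring
  exact h1.trans (isLittleO_exp_neg_mul_rpow_atTop h4 r).isBigO

lemma continuousOn_K {c : ℤ → ℝ} (hc : ∀ j, |c j| ≤ 1) (a : ℝ) :
    ContinuousOn (K c a) (Ioi 0) := fun _ hu =>
  (hasDerivAt_K hc a hu).continuousAt.continuousWithinAt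

lemma continuousOn_K2 {c : ℤ → ℝ} (hc : ∀ j, |c j| ≤ 1) (a : ℝ) :
    ContinuousOn (K2 c a) (Ioi 0) := by
  intro u hu
  have hu' : 0 < u := hu
  have h : ContinuousOn (K2 c a) (Ioi (u / 2)) := by
    refine continuousOn_tsum (u := fun j : ℤ => (j + a) ^ 2 * rexp (-π * (j + a) ^ 2 * (u / 2)))
      (fun j => by fun_prop) (sumG2 a (half_pos hu')) ?_
    intro j v hv
    have hv' : u / 2 < v := hv
    have h1 : rexp (-π * ((j : ℝ) + a) ^ 2 * v) ≤ rexp (-π * ((j : ℝ) + a) ^ 2 * (u / 2)) := by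
      apply Real.exp_le_exp.mpr
      have : 0 ≤ π * ((j : ℝ) + a) ^ 2 := by have := pi_pos; positivity
      nlinarith
    have h0 : 0 ≤ ((j : ℝ) + a) ^ 2 * rexp (-π * ((j : ℝ) + a) ^ 2 * v) := by positivity
    rw [norm_mul, Real.norm_eq_abs, Real.norm_eq_abs, abs_of_nonneg h0]
    calc |c j| * (((j : ℝ) + a) ^ 2 * rexp (-π * ((j : ℝ) + a) ^ 2 * v))
        ≤ 1 * (((j : ℝ) + a) ^ 2 * rexp (-π * ((j : ℝ) + a) ^ 2 * (u / 2))) := by
          gcongr
          exact hc j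
      _ = _ := by ring
  exact (h.continuousAt (Ioi_mem_nhds (by linarith))).continuousWithinAt

lemma continuousOn_th : ContinuousOn th (Ioi 0) := by
  have hr := sqrt7_pos
  have m1 : MapsTo (fun t : ℝ => 2 * t / √7) (Ioi 0) (Ioi 0) := fun t ht => by
    have ht' : 0 < t := ht
    exact (by positivity : 0 < 2 * t / √7)
  have m2 : MapsTo (fun t : ℝ => 7 * (2 * t / √7)) (Ioi 0) (Ioi 0) := fun t ht => by
    have ht' : 0 < t := ht
    exact (by positivity : 0 < 7 * (2 * t / √7))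
  have c1 : ContinuousOn (fun t : ℝ => 2 * t / √7) (Ioi 0) := by fun_prop
  have c2 : ContinuousOn (fun t : ℝ => 7 * (2 * t / √7)) (Ioi 0) := by fun_prop
  have k1 := fun a => (continuousOn_K abs_one1 a).comp c1 m1
  have k2 := fun a => (continuousOn_K abs_one1 a).comp c2 m2
  have k3 := fun a => (continuousOn_K2 abs_one1 a).comp c1 m1
  have k4 := fun a => (continuousOn_K2 abs_one1 a).comp c2 m2
  exact ((((k3 0).mul (k2 0)).sub (continuousOn_const.mul ((k1 0).mul (k4 0)))).add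
    (((k3 (1 / 2)).mul (k2 (1 / 2))).sub (continuousOn_const.mul ((k1 (1 / 2)).mul (k4 (1 / 2))))))

/-- the pair of functions with functional equation -/
noncomputable def P : WeakFEPair ℂ where
  f := fun t => (th t : ℂ)
  g := fun t => (th t : ℂ)
  k := 3
  ε := 1
  f₀ := 0
  g₀ := 0
  hf_int := (continuous_ofReal.comp_continuousOn continuousOn_th).locallyIntegrableOn
    measurableSet_Ioi
  hg_int := (continuous_ofReal.comp_continuousOn continuousOn_th).locallyIntegrableOn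
    measurableSet_Ioi
  hk := by norm_num
  hε := one_ne_zero
  h_feq := fun x hx => by
    have hx' : 0 < x := hx
    rw [th_fe hx', one_mul, smul_eq_mul, ← Complex.ofReal_mul]
    congr 2
    rw [← Real.rpow_natCast]
    norm_num
  hf_top := fun r => by simpa using th_isBigO r
  hg_top := fun r => by simpa using th_isBigO r

lemma P_strong : IsStrongFEPair P := ⟨rfl, rfl⟩

lemma Lam_diff : Differentiable ℂ P.Λ := P_strong.differentiable_Λ

lemma Lam_fe (s : ℂ) : P.Λ (3 - s) = P.Λ s := by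
  have h := P.functional_equation s
  have h2 : P.symm.Λ s = P.Λ s := by
    have e1 : P.symm.Λ = mellin P.symm.f := P_strong.symm.Λ_eq
    have e2 : P.Λ = mellin P.f := P_strong.Λ_eq
    rw [e1, e2]
    rfl
  rw [h2] at h
  have h3 : P.ε = 1 := rfl
  have h4 : ((P.k : ℝ) : ℂ) = 3 := by
    have : P.k = 3 := rfl
    rw [this]; norm_num
  rw [h3, h4, one_smul] at h
  exact h

lemma Nm_ge (p : ℤ × ℤ) : (1 / 2 : ℝ) * ‖p‖ ^ 2 ≤ Nm p := by
  have h1 : ‖p‖ = max ‖p.1‖ ‖p.2‖ := rfl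
  rw [h1, Int.norm_eq_abs, Int.norm_eq_abs, Nm]
  rcases le_total |(p.1 : ℝ)| |(p.2 : ℝ)| with h | h
  · rw [max_eq_right h, sq_abs]
    nlinarith [sq_nonneg (2 * (p.1 : ℝ) + p.2)]
  · rw [max_eq_left h, sq_abs]
    nlinarith [sq_nonneg ((p.1 : ℝ) + 4 * p.2)]

lemma summable_Nm_rpow {r : ℝ} (hr : 1 < r) :
    Summable (fun p : ℤ × ℤ => (Nm p) ^ (-r)) := by
  have h1 : Summable (fun p : ℤ × ℤ => ‖p‖ ^ (-(2 * r))) := by
    have := EisensteinSeries.summable_one_div_norm_rpow (k := 2 * r) (by linarith)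
    rw [← (finTwoArrowEquiv ℤ).symm.summable_iff] at this
    refine this.congr fun p => ?_
    simp only [Function.comp]
    congr 1
    have e : ‖p‖ = max ‖p.1‖ ‖p.2‖ := rfl
    rw [e]
    rw [EisensteinSeries.norm_eq_max_natAbs]
    simp [finTwoArrowEquiv_symm_apply, Int.norm_eq_abs, Nat.cast_natAbs]
  refine Summable.of_nonneg_of_le (fun p => Real.rpow_nonneg (Nm_nonneg p) _) (fun p => ?_)
    (h1.mul_left ((1 / 2 : ℝ) ^ (-r)))
  by_cases hz : p = 0
  · subst hz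
    have : Nm (0 : ℤ × ℤ) = 0 := by simp [Nm]
    rw [this, Real.zero_rpow (by linarith)]
    positivity
  · have hpos : 0 < ‖p‖ := norm_pos_iff.mpr hz
    calc (Nm p) ^ (-r) ≤ ((1 / 2 : ℝ) * ‖p‖ ^ 2) ^ (-r) :=
          Real.rpow_le_rpow_of_nonpos (by positivity) (Nm_ge p) (by linarith)
      _ = (1 / 2 : ℝ) ^ (-r) * ‖p‖ ^ (-(2 * r)) := by
          rw [Real.mul_rpow (by norm_num) (by positivity), ← Real.rpow_natCast,
            ← Real.rpow_mul (norm_nonneg p)]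
          congr 2
          push_cast; ring

lemma hasSum_Lam {s : ℂ} (hs : 2 < s.re) :
    HasSum (fun p : ℤ × ℤ => Gamma s * el p ^ 2 / ((2 * π * Nm p / √7 : ℝ) : ℂ) ^ s) (P.Λ s) := by
  have hr := sqrt7_pos
  have hp := pi_pos
  have e2 : P.Λ = mellin P.f := P_strong.Λ_eq
  rw [e2]
  refine hasSum_mellin (a := fun p : ℤ × ℤ => el p ^ 2) (p := fun p => 2 * π * Nm p / √7)
    (F := P.f) (s := s) ?_ (by linarith) ?_ ?_
  · intro p
    by_cases hz : p = 0
    · left; subst hz; simp [el]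
    · right
      have := one_le_Nm hz
      positivity
  · intro t ht
    exact hasSum_thC ht
  · have h1 := (summable_Nm_rpow (r := s.re - 1) (by linarith)).mul_left
      (((2 * π / √7) ^ s.re)⁻¹)
    refine h1.congr fun p => ?_
    rw [norm_pow, ← Nm_eq]
    by_cases hz : p = 0
    · subst hz
      have : Nm (0 : ℤ × ℤ) = 0 := by simp [Nm]
      rw [this, Real.zero_rpow (by linarith)]
      simp
    · have h2 : 0 < Nm p := by linarith [one_le_Nm hz]
      rw [show 2 * π * Nm p / √7 = (2 * π / √7) * Nm p by ring,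
        Real.mul_rpow (by positivity) h2.le, show -(s.re - 1) = 1 - s.re by ring,
        Real.rpow_sub h2, Real.rpow_one]
      field_simp

/-- The L-function of the newform `f = 1/2 ∑ a ^ 2 q ^ |a| ^ 2`. -/
noncomputable def Lf (s : ℂ) : ℂ :=
  P.Λ s * (((2 * π / √7 : ℝ) : ℂ) ^ s / 2) * (Gamma s)⁻¹

lemma Lf_diff : Differentiable ℂ Lf := by
  have hr := sqrt7_pos
  have hp := pi_pos
  have h0 : ((2 * π / √7 : ℝ) : ℂ) ≠ 0 := by
    rw [Complex.ofReal_ne_zero]; positivity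
  refine (Lam_diff.mul ?_).mul Complex.differentiable_one_div_Gamma
  intro s
  refine DifferentiableAt.div_const ?_ 2
  exact (differentiableAt_id.const_cpow (Or.inl h0))

lemma hasSum_Lf {s : ℂ} (hs : 2 < s.re) :
    HasSum (fun p : ℤ × ℤ => 1 / 2 * (el p ^ 2 / ((Nm p : ℝ) : ℂ) ^ s)) (Lf s) := by
  have hr := sqrt7_pos
  have hp := pi_pos
  have h0 : ((2 * π / √7 : ℝ) : ℂ) ≠ 0 := by
    rw [Complex.ofReal_ne_zero]; positivity
  have hG : Gamma s ≠ 0 := Complex.Gamma_ne_zero_of_re_pos (by linarith)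
  have h := ((hasSum_Lam hs).mul_right (((2 * π / √7 : ℝ) : ℂ) ^ s / 2)).mul_right (Gamma s)⁻¹
  refine h.congr_fun'' fun p => ?_
  have e : (((2 * π * Nm p / √7 : ℝ)) : ℂ) ^ s
      = ((2 * π / √7 : ℝ) : ℂ) ^ s * ((Nm p : ℝ) : ℂ) ^ s := by
    rw [← Complex.mul_cpow_ofReal_nonneg (by positivity) (Nm_nonneg p), ← Complex.ofReal_mul]
    congr 2
    ring
  rw [e]
  have h1 : ((2 * π / √7 : ℝ) : ℂ) ^ s ≠ 0 := by
    rw [Complex.cpow_def_of_ne_zero h0]; exact Complex.exp_ne_zero _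
  by_cases h2 : ((Nm p : ℝ) : ℂ) ^ s = 0
  · rw [h2]; simp
  · field_simp

lemma hasDerivAt_invGamma : HasDerivAt (fun s : ℂ => (Complex.Gamma s)⁻¹) (-1) (-1) := by
  have e : (fun s : ℂ => (Complex.Gamma s)⁻¹) = fun s => s * ((s + 1) * (Complex.Gamma (s + 2))⁻¹) := by
    funext s
    rw [Complex.one_div_Gamma_eq_self_mul_one_div_Gamma_add_one,
      Complex.one_div_Gamma_eq_self_mul_one_div_Gamma_add_one (s + 1)]
    congr 4
    ring
  have hh : DifferentiableAt ℂ (fun s : ℂ => (Complex.Gamma (s + 2))⁻¹) (-1) :=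
    (Complex.differentiable_one_div_Gamma.comp (differentiable_id.add_const 2)) (-1)
  have h1 := ((hasDerivAt_id (-1 : ℂ)).add_const 1).mul hh.hasDerivAt
  have h2 := (hasDerivAt_id (-1 : ℂ)).mul h1
  rw [e]
  have hG1 : Complex.Gamma (-1 + 2) = 1 := by
    rw [show (-1 + 2 : ℂ) = 1 by norm_num, Complex.Gamma_one]
  refine (h2 : HasDerivAt (fun s : ℂ => s * ((s + 1) * (Complex.Gamma (s + 2))⁻¹)) _
    (-1)).congr_deriv ?_
  simp [hG1]

theorem deriv_Lf : deriv Lf (-1) = -(6 * ((√7 / (2 * π)) ^ 5 : ℝ)) * Lf 4 := by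
  have hr := sqrt7_pos
  have hp := pi_pos
  have h0 : ((2 * π / √7 : ℝ) : ℂ) ≠ 0 := by
    rw [Complex.ofReal_ne_zero]; positivity
  have hg : DifferentiableAt ℂ (fun s : ℂ => P.Λ s * (((2 * π / √7 : ℝ) : ℂ) ^ s / 2)) (-1) := by
    refine (Lam_diff (-1)).mul ?_
    refine DifferentiableAt.div_const ?_ 2
    exact (differentiableAt_id.const_cpow (Or.inl h0))
  have h1 := hg.hasDerivAt.mul hasDerivAt_invGamma
  have h2 : deriv Lf (-1) = _ := h1.deriv
  rw [h2]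
  have hG1 : Gamma (-1 : ℂ) = 0 := by
    have := Complex.Gamma_neg_nat_eq_zero 1
    simpa using this
  have hG4 : Gamma (4 : ℂ) = 6 := by
    have := Complex.Gamma_nat_eq_factorial 3
    have h3 : ((3 : ℕ) : ℂ) + 1 = 4 := by norm_num
    rw [h3] at this
    rw [this]
    norm_num [Nat.factorial]
  have hfe : P.Λ (-1) = P.Λ 4 := by
    have := Lam_fe 4
    rw [← this]; norm_num
  rw [hG1, inv_zero, mul_zero, zero_add, hfe, Lf, hG4]
  have e1 : ((2 * π / √7 : ℝ) : ℂ) ^ (-1 : ℂ) = (((√7 / (2 * π) : ℝ)) : ℂ) := by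
    rw [Complex.cpow_neg_one, ← Complex.ofReal_inv, inv_div]
  have e4 : ((2 * π / √7 : ℝ) : ℂ) ^ (4 : ℂ) = ((((√7 / (2 * π)) ^ 4)⁻¹ : ℝ) : ℂ) := by
    rw [show (4 : ℂ) = ((4 : ℕ) : ℂ) by norm_num, Complex.cpow_natCast, ← Complex.ofReal_pow]
    congr 1
    rw [← inv_pow, inv_div]
  rw [e1, e4]
  have hx : 0 < √7 / (2 * π) := by positivity
  generalize √7 / (2 * π) = x at *
  have hx' : (x : ℂ) ≠ 0 := by rw [Complex.ofReal_ne_zero]; exact hx.ne'
  push_cast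
  field_simp

theorem deriv_zeta_neg_two :
    deriv riemannZeta (-2) = -riemannZeta 3 / (4 * π ^ 2) := by
  have hp : (π : ℂ) ≠ 0 := Complex.ofReal_ne_zero.mpr pi_pos.ne'
  have hev : ∀ᶠ s : ℂ in 𝓝 3, 2 < s.re :=
    (isOpen_lt continuous_const Complex.continuous_re).mem_nhds (by simp; norm_num)
  have hg : DifferentiableAt ℂ (fun s : ℂ => 2 * (2 * (π : ℂ)) ^ (-s) * Complex.Gamma s *
      riemannZeta s) 3 := by
    have h1 : DifferentiableAt ℂ Complex.Gamma 3 := by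
      refine Complex.differentiableAt_Gamma 3 fun m hm => ?_
      have := congr_arg Complex.re hm
      simp at this
      have h2 : (0 : ℝ) ≤ m := Nat.cast_nonneg m
      linarith
    have h2 : DifferentiableAt ℂ riemannZeta 3 := differentiableAt_riemannZeta (by norm_num)
    have h3 : DifferentiableAt ℂ (fun s : ℂ => (2 * (π : ℂ)) ^ (-s)) 3 :=
      differentiableAt_id.neg.const_cpow (Or.inl (by simp [hp]))
    exact ((h3.const_mul 2).mul h1).mul h2
  have hcos : HasDerivAt (fun s : ℂ => Complex.cos (π * s / 2))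
      (-Complex.sin (π * 3 / 2) * (π / 2)) 3 := by
    have h1 : HasDerivAt (fun s : ℂ => (π : ℂ) * s / 2) (π / 2) 3 := by
      simpa using ((hasDerivAt_id (3 : ℂ)).const_mul (π : ℂ)).div_const 2
    exact h1.ccos
  have h1 := hg.hasDerivAt.mul hcos
  have hz : HasDerivAt (fun s : ℂ => riemannZeta (1 - s)) (deriv riemannZeta (-2) * (-1)) 3 := by
    have h2 : HasDerivAt riemannZeta (deriv riemannZeta (-2)) (1 - 3) := by
      rw [show (1 - 3 : ℂ) = -2 by norm_num]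
      exact (differentiableAt_riemannZeta (by norm_num)).hasDerivAt
    have h3 : HasDerivAt (fun s : ℂ => 1 - s) (-1) 3 := by
      simpa using (hasDerivAt_id (3 : ℂ)).const_sub 1
    exact h2.comp 3 h3
  have h2 := h1.congr_of_eventuallyEq (f₁ := fun s : ℂ => riemannZeta (1 - s)) (by
    filter_upwards [hev] with s hs
    rw [riemannZeta_one_sub (fun n hn => by
        have := congr_arg Complex.re hn
        simp at this
        have h2 : (0 : ℝ) ≤ n := Nat.cast_nonneg n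
        linarith) (fun hn => by
        have := congr_arg Complex.re hn
        simp at this
        linarith)]
    simp only [Pi.mul_apply]
    ring)
  have h3 := hz.unique h2
  have hc : Complex.cos (π * 3 / 2) = 0 := by
    rw [show (π : ℂ) * 3 / 2 = π / 2 + π by ring, Complex.cos_add_pi, Complex.cos_pi_div_two,
      neg_zero]
  have hs : Complex.sin (π * 3 / 2) = -1 := by
    rw [show (π : ℂ) * 3 / 2 = π / 2 + π by ring, Complex.sin_add_pi, Complex.sin_pi_div_two]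
  have hG : Complex.Gamma 3 = 2 := by
    have := Complex.Gamma_nat_eq_factorial 2
    have h3 : ((2 : ℕ) : ℂ) + 1 = 3 := by norm_num
    rw [h3] at this
    rw [this]
    norm_num [Nat.factorial]
  rw [hc, hs, hG] at h3
  have h4 : (2 * (π : ℂ)) ^ (-3 : ℂ) = ((2 * (π : ℂ)) ^ 3)⁻¹ := by
    rw [Complex.cpow_neg, show (3 : ℂ) = ((3 : ℕ) : ℂ) by norm_num, Complex.cpow_natCast]
  rw [h4] at h3
  have h5 : deriv riemannZeta (-2) = -(deriv riemannZeta (-2) * (-1)) := by ring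
  rw [h5, h3]
  field_simp
  ring

/-- the norm as a natural number -/
def nu (p : ℤ × ℤ) : ℕ := (p.1 ^ 2 + p.1 * p.2 + 2 * p.2 ^ 2).toNat

lemma norm_int_nonneg (p : ℤ × ℤ) : 0 ≤ p.1 ^ 2 + p.1 * p.2 + 2 * p.2 ^ 2 := by
  nlinarith [sq_nonneg (2 * p.1 + p.2), sq_nonneg p.2]

lemma nu_cast (p : ℤ × ℤ) : ((nu p : ℕ) : ℤ) = p.1 ^ 2 + p.1 * p.2 + 2 * p.2 ^ 2 :=
  Int.toNat_of_nonneg (norm_int_nonneg p)

lemma Nm_nu (p : ℤ × ℤ) : Nm p = nu p := by
  rw [Nm_int, ← nu_cast]; simp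

/-- The elements of norm `n`. -/
noncomputable def box (n : ℕ) : Finset (ℤ × ℤ) :=
  (Finset.Icc (-n : ℤ) n ×ˢ Finset.Icc (-n : ℤ) n).filter
    fun p => p.1 ^ 2 + p.1 * p.2 + 2 * p.2 ^ 2 = n

lemma mem_box (n : ℕ) (p : ℤ × ℤ) : p ∈ box n ↔ nu p = n := by
  unfold box
  rw [Finset.mem_filter, Finset.mem_product, Finset.mem_Icc, Finset.mem_Icc, ← nu_cast]
  constructor
  · rintro ⟨-, h⟩
    exact_mod_cast h
  · intro h
    refine ⟨?_, by rw [h]⟩
    have h1 := nu_cast p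
    rw [h] at h1
    have hn : (0 : ℤ) ≤ n := Int.natCast_nonneg n
    have b1 : p.1 ^ 2 * 7 ≤ 8 * n := by nlinarith [sq_nonneg (p.1 + 4 * p.2)]
    have b2 : p.2 ^ 2 * 7 ≤ 4 * n := by nlinarith [sq_nonneg (2 * p.1 + p.2)]
    have key : ∀ x : ℤ, x ^ 2 * 7 ≤ 8 * n → -(n : ℤ) ≤ x ∧ x ≤ n := by
      intro x hx
      have h3 : |x| ≤ n := by
        by_contra hc
        push Not at hc
        have h4 : (n : ℤ) + 1 ≤ |x| := hc
        have h5 : ((n : ℤ) + 1) ^ 2 ≤ x ^ 2 := by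
          rw [← sq_abs x]
          exact pow_le_pow_left₀ (by linarith) h4 2
        nlinarith
      exact abs_le.mp h3
    exact ⟨key _ b1, key _ (by linarith)⟩

/-- The coefficients of the newform. -/
noncomputable def cf (n : ℕ) : ℂ := 1 / 2 * ∑ p ∈ box n, el p ^ 2

theorem LSeries_cf {s : ℂ} (hs : 2 < s.re) : LSeriesHasSum cf s (Lf s) := by
  have h := hasSum_Lf hs
  have h1 := (Equiv.sigmaFiberEquiv nu).hasSum_iff.mpr h
  have h2 := h1.sigma (g := fun n => LSeries.term cf s n) ?_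
  · exact h2
  intro n
  have e1 : ∀ q : {p : ℤ × ℤ // nu p = n},
      ((fun p : ℤ × ℤ => 1 / 2 * (el p ^ 2 / ((Nm p : ℝ) : ℂ) ^ s)) ∘
        (Equiv.sigmaFiberEquiv nu)) ⟨n, q⟩ = 1 / 2 * (el q.1 ^ 2 / (n : ℂ) ^ s) := by
    rintro ⟨q, hq⟩
    simp only [Function.comp, Equiv.sigmaFiberEquiv, Equiv.coe_fn_mk]
    rw [Nm_nu, hq]
    simp
  have h3 : HasSum (fun q : {p : ℤ × ℤ // p ∈ (box n : Set (ℤ × ℤ))} =>
      1 / 2 * (el q.1 ^ 2 / (n : ℂ) ^ s)) (∑ p ∈ box n, 1 / 2 * (el p ^ 2 / (n : ℂ) ^ s)) := by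
    have := Finset.hasSum (box n) (fun p : ℤ × ℤ => 1 / 2 * (el p ^ 2 / (n : ℂ) ^ s))
    exact this
  have h4 : (∑ p ∈ box n, 1 / 2 * (el p ^ 2 / (n : ℂ) ^ s)) = LSeries.term cf s n := by
    rcases Nat.eq_zero_or_pos n with rfl | hn
    · rw [LSeries.term_zero]
      have : box 0 = {0} := by
        ext p
        rw [mem_box, Finset.mem_singleton]
        constructor
        · intro h
          by_contra hp
          have := one_le_Nm hp
          rw [Nm_nu, h] at this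
          norm_num at this
        · rintro rfl
          rfl
      rw [this]
      simp [el]
    · rw [LSeries.term_of_ne_zero hn.ne', cf, ← Finset.mul_sum, ← Finset.sum_div]
      ring
  rw [h4] at h3
  let e : {p : ℤ × ℤ // nu p = n} ≃ {p : ℤ × ℤ // p ∈ (box n : Set (ℤ × ℤ))} :=
    Equiv.subtypeEquivRight fun p => by
      rw [Finset.mem_coe, mem_box]
  rw [← e.hasSum_iff] at h3
  refine h3.congr_fun'' fun q => ?_
  rw [e1]
  rfl

/-- Summary: there is an entire function whose Dirichlet series is the L-series of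
`f = 1/2 ∑ a ^ 2 q ^ |a| ^ 2`, and its derivative at `-1` is given by its value at `4`. -/
theorem exists_entire_L :
    ∃ L : ℂ → ℂ, Differentiable ℂ L ∧ (∀ s : ℂ, 2 < s.re → LSeriesHasSum cf s (L s)) ∧
      (∀ s : ℂ, 2 < s.re →
        HasSum (fun p : ℤ × ℤ => 1 / 2 * (el p ^ 2 / ((‖el p‖ ^ 2 : ℝ) : ℂ) ^ s)) (L s)) ∧
      deriv L (-1) = -(6 * ((√7 / (2 * π)) ^ 5 : ℝ)) * L 4 :=
  ⟨Lf, Lf_diff, fun _ hs => LSeries_cf hs, fun s hs => by
    simpa only [Nm_eq] using hasSum_Lf hs, deriv_Lf⟩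

end BZLFun
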