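import Mathlib
import Pool.Agent.K3R.JacobiCube
import Pool.Agent.K3R.LFunSeven
import Pool.Agent.K3R.LFunLattice

/-!
`η(z)³ η(7 z)³ = 1/2 ∑ a² q^{|a|²}` over the ring of integers of `ℚ(√-7)`.
-/

open Complex Filter Topology

namespace EtaS

open JacCube

/-- the exponent `i (2 i + 1)` -/
def ex (i : ℤ) : ℕ := (i * (2 * i + 1)).toNat

lemma ex_cast (i : ℤ) : ((ex i : ℕ) : ℤ) = i * (2 * i + 1) := by
  refine Int.toNat_of_nonneg ?_
  rcases le_or_gt 0 i with h | h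
  · positivity
  · exact mul_nonneg_of_nonpos_of_nonpos h.le (by omega)

theorem jac_int {q : ℂ} (hq : ‖q‖ < 1) :
    HasSum (fun i : ℤ => (4 * (i : ℂ) + 1) * q ^ ex i) (pinf q ^ 3) := by
  have h := jacobi_hasSum hq
  have he : Summable (fun k : ℕ => (-1) ^ (2 * k) * (2 * ((2 * k : ℕ) : ℂ) + 1) *
      q ^ tri (2 * k + 1)) :=
    h.summable.comp_injective (i := fun k : ℕ => 2 * k) (fun a b hab => by simpa using hab)
  have ho : Summable (fun k : ℕ => (-1) ^ (2 * k + 1) * (2 * ((2 * k + 1 : ℕ) : ℂ) + 1) *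
      q ^ tri (2 * k + 1 + 1)) :=
    h.summable.comp_injective (i := fun k : ℕ => 2 * k + 1) (fun a b hab => by simpa using hab)
  have h2 := HasSum.even_add_odd (f := fun k : ℕ => (-1) ^ k * (2 * (k : ℂ) + 1) *
    q ^ tri (k + 1)) he.hasSum ho.hasSum
  rw [h.unique h2]
  refine HasSum.of_nat_of_neg_add_one ?_ ?_
  · refine hasSum_congr_aux he.hasSum fun k => ?_
    have e1 : ex (k : ℤ) = tri (2 * k + 1) := by
      have h1 := ex_cast (k : ℤ)
      have h3 := two_tri' (2 * k + 1)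
      have : (2 : ℤ) * (ex (k : ℤ) : ℕ) = 2 * (tri (2 * k + 1) : ℕ) := by
        rw [h1, h3]; push_cast; ring
      omega
    rw [e1, pow_mul]
    push_cast
    ring
  · refine hasSum_congr_aux ho.hasSum fun k => ?_
    have e1 : ex (-((k : ℤ) + 1)) = tri (2 * k + 1 + 1) := by
      have h1 := ex_cast (-((k : ℤ) + 1))
      have h3 := two_tri' (2 * k + 1 + 1)
      have : (2 : ℤ) * (ex (-((k : ℤ) + 1)) : ℕ) = 2 * (tri (2 * k + 1 + 1) : ℕ) := by
        rw [h1, h3]; push_cast; ring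
      omega
    rw [e1, pow_succ, pow_mul]
    push_cast
    ring

lemma anti_zero {h : ℤ × ℤ → ℂ} (σ : ℤ × ℤ ≃ ℤ × ℤ) (hs : Summable h)
    (ha : ∀ p, h (σ p) = - h p) : HasSum h 0 := by
  have h1 : ∑' p, h p = - ∑' p, h p := by
    conv_lhs => rw [← σ.tsum_eq]
    rw [← tsum_neg]
    exact tsum_congr ha
  have h2 : ∑' p, h p = 0 := by linear_combination (1 / 2) * h1
  rw [← h2]
  exact hs.hasSum

lemma total {c : ℤ × ℤ → ℂ} (hcneg : ∀ p, c (-p) = c p)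
    (G : ℤ × ℤ → ℤ × ℤ) (hG : Function.Injective G) (C : ℤ × ℤ → Prop) [DecidablePred C]
    (hr : ∀ p, C p ↔ p ∈ Set.range G) (hC : ∀ p, (C p ∨ C (-p)) ↔ p.1 % 2 = 1)
    (hC2 : ∀ p, ¬ (C p ∧ C (-p))) {S : ℂ} (hS : HasSum (c ∘ G) S)
    (he : HasSum (fun p : ℤ × ℤ => c (2 * p.1, p.2)) 0) : HasSum c (2 * S) := by
  have h1 : HasSum (fun p => if C p then c p else 0) S := by
    rw [← hG.hasSum_iff]
    · refine (by simpa using hS : HasSum (c ∘ G) S).congr_fun'' fun p => ?_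
      simp only [Function.comp]
      rw [if_pos ((hr _).mpr ⟨p, rfl⟩)]
    · intro p hp
      rw [if_neg (fun h => hp ((hr p).mp h))]
  have h2 : HasSum (fun p => if C (-p) then c p else 0) S := by
    rw [← (Equiv.neg (ℤ × ℤ)).hasSum_iff]
    refine h1.congr_fun'' fun p => ?_
    simp only [Function.comp, Equiv.neg_apply, neg_neg, hcneg]
  have h3 : HasSum (fun p : ℤ × ℤ => if p.1 % 2 = 0 then c p else 0) 0 := by
    have hinj : Function.Injective (fun p : ℤ × ℤ => ((2 * p.1, p.2) : ℤ × ℤ)) := by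
      rintro ⟨a, b⟩ ⟨a', b'⟩ h
      simp only [Prod.mk.injEq] at h ⊢
      omega
    rw [← hinj.hasSum_iff]
    · refine he.congr_fun'' fun p => ?_
      simp only [Function.comp]
      rw [if_pos (by omega)]
    · rintro ⟨a, b⟩ hp
      rw [if_neg]
      intro h
      exact hp ⟨(a / 2, b), by simp only [Prod.mk.injEq, and_true]; simp only at h; omega⟩
  have h4 := (h1.add h2).add h3
  rw [add_zero, ← two_mul] at h4
  refine h4.congr_fun'' fun p => ?_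
  by_cases hp : p.1 % 2 = 1
  · have hp0 : ¬ p.1 % 2 = 0 := by omega
    rcases (hC p).mpr hp with h5 | h5
    · have h6 : ¬ C (-p) := fun h => hC2 p ⟨h5, h⟩
      rw [if_pos h5, if_neg h6, if_neg hp0]; ring
    · have h6 : ¬ C p := fun h => hC2 p ⟨h, h5⟩
      rw [if_neg h6, if_pos h5, if_neg hp0]; ring
  · have hp0 : p.1 % 2 = 0 := by omega
    have h5 : ¬ C p := fun h => hp ((hC p).mp (Or.inl h))
    have h6 : ¬ C (-p) := fun h => hp ((hC p).mp (Or.inr h))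
    rw [if_neg h5, if_neg h6, if_pos hp0]; ring

lemma sumq {q : ℂ} (hq0 : q ≠ 0) (hq : ‖q‖ < 1) (ν : ℤ × ℤ → ℕ) {δ : ℝ} (hδ : 0 < δ)
    (hν : ∀ p : ℤ × ℤ, δ * ((p.1 : ℝ) ^ 2 + (p.2 : ℝ) ^ 2) ≤ ν p) (c : ℤ × ℤ → ℂ) (C : ℝ)
    (hc : ∀ p : ℤ × ℤ, ‖c p‖ ≤ C * ((p.1 : ℝ) ^ 2 + (p.2 : ℝ) ^ 2)) :
    Summable (fun p => c p * q ^ ν p) := by
  have hn : 0 < ‖q‖ := norm_pos_iff.mpr hq0
  set κ := -Real.log ‖q‖ with hκ
  have hκ0 : 0 < κ := by
    rw [hκ]; linarith [Real.log_neg hn hq]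
  have h1 := (LatL.sum_gauss1 (x := 0) (y := 1) one_pos (c := κ * δ) (by positivity)).mul_left C
  refine Summable.of_norm_bounded h1 fun p => ?_
  have e : LatL.Q 0 1 p = (p.1 : ℝ) ^ 2 + (p.2 : ℝ) ^ 2 := by simp [LatL.Q]
  rw [norm_mul, norm_pow, e, ← mul_assoc]
  refine mul_le_mul (hc p) ?_ (by positivity) ((norm_nonneg _).trans (hc p))
  have h2 : ‖q‖ ^ ν p = Real.exp (-κ * ν p) := by
    rw [hκ, neg_neg, mul_comm, Real.exp_nat_mul, Real.exp_log hn]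
  rw [h2]
  apply Real.exp_le_exp.mpr
  nlinarith [mul_le_mul_of_nonneg_left (hν p) hκ0.le]

lemma norm_pow7 {q : ℂ} (hq : ‖q‖ < 1) {k : ℕ} (hk : k ≠ 0) : ‖q ^ k‖ < 1 := by
  rw [norm_pow]; exact pow_lt_one₀ (norm_nonneg q) hq hk

lemma hs_mulC {f g : ℤ → ℂ} {a b : ℂ} (hf : HasSum f a) (hg : HasSum g b) :
    HasSum (fun p : ℤ × ℤ => f p.1 * g p.2) (a * b) :=
  hf.mul hg (summable_mul_of_summable_norm hf.summable.norm hg.summable.norm)

/-- product of two cubes, as a sum over pairs -/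
lemma prod_hasSum {q r : ℂ} (hq : ‖q‖ < 1) (hr : ‖r‖ < 1) :
    HasSum (fun p : ℤ × ℤ => ((4 * (p.1 : ℂ) + 1) * q ^ ex p.1) *
      ((4 * (p.2 : ℂ) + 1) * r ^ ex p.2)) (pinf q ^ 3 * pinf r ^ 3) := by
  have h3 := hs_mulC (jac_int hq) (jac_int hr)
  refine h3.congr_fun'' fun p => ?_
  rfl

lemma nu_ge (p : ℤ × ℤ) : (1 / 2 : ℝ) * ((p.1 : ℝ) ^ 2 + (p.2 : ℝ) ^ 2) ≤ BZLFun.nu p := by
  rw [← BZLFun.Nm_nu, BZLFun.Nm]
  nlinarith [sq_nonneg ((p.1 : ℝ) + p.2), sq_nonneg (p.2 : ℝ)]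

/-- `(x, y) ↦ (-x, x + y)` -/
def sh : ℤ × ℤ ≃ ℤ × ℤ where
  toFun p := (-p.1, p.1 + p.2)
  invFun p := (-p.1, p.1 + p.2)
  left_inv p := by ext <;> simp
  right_inv p := by ext <;> simp

lemma nu_eq_of {p p' : ℤ × ℤ}
    (h : p.1 ^ 2 + p.1 * p.2 + 2 * p.2 ^ 2 = p'.1 ^ 2 + p'.1 * p'.2 + 2 * p'.2 ^ 2) :
    BZLFun.nu p = BZLFun.nu p' := by
  rw [BZLFun.nu, BZLFun.nu, h]

lemma om_sq : BZLFun.om ^ 2 = BZLFun.om - 2 := by
  have h7 : (√(7 : ℝ) : ℂ) ^ 2 = 7 := by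
    rw [← Complex.ofReal_pow, Real.sq_sqrt (by norm_num)]; norm_num
  rw [BZLFun.om]
  push_cast
  have hI : I ^ 2 = -1 := Complex.I_sq
  linear_combination (I ^ 2 / 4) * h7 + (7 / 4) * hI

theorem theta7 {q : ℂ} (hq0 : q ≠ 0) (hq : ‖q‖ < 1) :
    HasSum (fun p : ℤ × ℤ => BZLFun.el p ^ 2 * q ^ BZLFun.nu p)
      (2 * (q * (pinf q ^ 3 * pinf (q ^ 7) ^ 3))) := by
  set c : ℤ × ℤ → ℂ := fun p => ((p.1 : ℂ) * (p.1 + 4 * p.2)) * q ^ BZLFun.nu p with hc
  have hsum : Summable c := by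
    refine sumq hq0 hq BZLFun.nu (δ := 1 / 2) (by norm_num) nu_ge
      (fun p => (p.1 : ℂ) * (p.1 + 4 * p.2)) 3 fun p => ?_
    have e : ((p.1 : ℂ) * (p.1 + 4 * p.2)) = (((p.1 : ℝ) * (p.1 + 4 * p.2) : ℝ) : ℂ) := by
      push_cast; ring
    rw [e, Complex.norm_real, Real.norm_eq_abs, abs_le]
    constructor <;> nlinarith [sq_nonneg ((p.1 : ℝ) + p.2), sq_nonneg ((p.1 : ℝ) - p.2)]
  have h1 : HasSum c (2 * (q * (pinf q ^ 3 * pinf (q ^ 7) ^ 3))) := by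
    refine total (c := c) ?_ (fun p => (4 * p.2 + 1, p.1 - p.2)) ?_ (fun p => p.1 % 4 = 1) ?_ ?_ ?_
      ?_ ?_
    · intro p
      simp only [hc, Prod.fst_neg, Prod.snd_neg, Int.cast_neg]
      rw [show BZLFun.nu (-p) = BZLFun.nu p from nu_eq_of (by simp)]
      ring
    · rintro ⟨a, b⟩ ⟨a', b'⟩ h
      simp only [Prod.mk.injEq] at h ⊢
      omega
    · rintro ⟨a, b⟩
      simp only [Set.mem_range, Prod.mk.injEq, Prod.exists]
      constructor
      · intro h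
        exact ⟨b + a / 4, a / 4, by omega, by omega⟩
      · rintro ⟨i, j, h, -⟩
        omega
    · intro p
      simp only [Prod.fst_neg]
      omega
    · intro p
      simp only [Prod.fst_neg]
      omega
    · have h2 := (prod_hasSum hq (norm_pow7 hq (k := 7) (by norm_num))).mul_left q
      refine h2.congr_fun'' fun p => ?_
      have e : BZLFun.nu (4 * p.2 + 1, p.1 - p.2) = 1 + ex p.1 + 7 * ex p.2 := by
        have h3 := BZLFun.nu_cast (4 * p.2 + 1, p.1 - p.2)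
        have h4 := ex_cast p.1
        have h5 := ex_cast p.2
        have : ((BZLFun.nu (4 * p.2 + 1, p.1 - p.2) : ℕ) : ℤ)
            = ((1 + ex p.1 + 7 * ex p.2 : ℕ) : ℤ) := by
          rw [h3]; push_cast; rw [h4, h5]; ring
        exact_mod_cast this
      simp only [Function.comp, hc, e]
      rw [pow_add, pow_add, pow_mul]
      push_cast
      ring
    · refine anti_zero sh ?_ ?_
      · exact hsum.comp_injective (i := fun p : ℤ × ℤ => ((2 * p.1, p.2) : ℤ × ℤ)) (by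
          rintro ⟨a, b⟩ ⟨a', b'⟩ h
          simp only [Prod.mk.injEq] at h ⊢
          omega)
      · intro p
        simp only [hc, sh, Equiv.coe_fn_mk]
        rw [show BZLFun.nu (2 * -p.1, p.1 + p.2) = BZLFun.nu (2 * p.1, p.2) from
          nu_eq_of (by ring)]
        push_cast
        ring
  have h2 : HasSum (fun p : ℤ × ℤ => ((p.2 : ℂ) * (2 * p.1 + p.2) * (BZLFun.om - 2)) *
      q ^ BZLFun.nu p) 0 := by
    refine anti_zero BZLFun.cj ?_ ?_
    · refine sumq hq0 hq BZLFun.nu (δ := 1 / 2) (by norm_num) nu_ge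
        (fun p => (p.2 : ℂ) * (2 * p.1 + p.2) * (BZLFun.om - 2)) (2 * ‖BZLFun.om - 2‖) fun p => ?_
      have e : ((p.2 : ℂ) * (2 * p.1 + p.2)) = (((p.2 : ℝ) * (2 * p.1 + p.2) : ℝ) : ℂ) := by
        push_cast; ring
      rw [e, norm_mul, Complex.norm_real, Real.norm_eq_abs]
      have h3 : |(p.2 : ℝ) * (2 * p.1 + p.2)| ≤ 2 * ((p.1 : ℝ) ^ 2 + (p.2 : ℝ) ^ 2) := by
        rw [abs_le]
        constructor <;> nlinarith [sq_nonneg ((p.1 : ℝ) + p.2), sq_nonneg ((p.1 : ℝ) - p.2)]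
      nlinarith [norm_nonneg (BZLFun.om - 2), mul_le_mul_of_nonneg_right h3
        (norm_nonneg (BZLFun.om - 2))]
    · intro p
      simp only [BZLFun.cj, Equiv.coe_fn_mk]
      rw [show BZLFun.nu (p.1 + p.2, -p.2) = BZLFun.nu p from nu_eq_of (by simp only; ring)]
      push_cast
      ring
  have h3 := h1.add h2
  rw [add_zero] at h3
  refine h3.congr_fun'' fun p => ?_
  simp only [hc, BZLFun.el]
  linear_combination (p.2 : ℂ) ^ 2 * q ^ BZLFun.nu p * om_sq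

/-- collecting the terms with the same exponent -/
lemma collect {c : ℤ × ℤ → ℂ} {ν : ℤ × ℤ → ℕ} (B : ℕ → Finset (ℤ × ℤ))
    (hB : ∀ n p, p ∈ B n ↔ ν p = n) {q T : ℂ} (h : HasSum (fun p => c p * q ^ ν p) T) :
    HasSum (fun n : ℕ => (∑ p ∈ B n, c p) * q ^ n) T := by
  have h1 := (Equiv.sigmaFiberEquiv ν).hasSum_iff.mpr h
  refine h1.sigma ?_
  intro n
  have h3 : HasSum (fun x : {p : ℤ × ℤ // p ∈ (B n : Set (ℤ × ℤ))} => c x.1 * q ^ n)
      (∑ p ∈ B n, c p * q ^ n) := Finset.hasSum (B n) (fun p : ℤ × ℤ => c p * q ^ n)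
  rw [← Finset.sum_mul] at h3
  let e : {p : ℤ × ℤ // ν p = n} ≃ {p : ℤ × ℤ // p ∈ (B n : Set (ℤ × ℤ))} :=
    Equiv.subtypeEquivRight fun p => by rw [Finset.mem_coe, hB]
  rw [← e.hasSum_iff] at h3
  refine h3.congr_fun'' fun x => ?_
  obtain ⟨x, hx⟩ := x
  simp only [Function.comp, Equiv.sigmaFiberEquiv, Equiv.coe_fn_mk]
  rw [hx]
  rfl

theorem cf_series {q : ℂ} (hq0 : q ≠ 0) (hq : ‖q‖ < 1) :
    HasSum (fun n : ℕ => BZLFun.cf n * q ^ n) (q * (pinf q ^ 3 * pinf (q ^ 7) ^ 3)) := by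
  have h := (collect (fun n => BZLFun.box n) BZLFun.mem_box (theta7 hq0 hq)).mul_left (1 / 2)
  rw [show (1 / 2 : ℂ) * (2 * (q * (pinf q ^ 3 * pinf (q ^ 7) ^ 3)))
    = q * (pinf q ^ 3 * pinf (q ^ 7) ^ 3) by ring] at h
  refine h.congr_fun'' fun n => ?_
  rw [BZLFun.cf]
  ring

lemma eta_eq (z : ℂ) : ModularForm.eta z = cexp (2 * Real.pi * I * z / 24) * pinf (cexp (2 * Real.pi * I * z)) := by
  rw [ModularForm.eta, pinf, Function.Periodic.qParam]
  congr 1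
  exact tprod_congr fun n => by rw [ModularForm.eta_q_eq_pow]

/-- `η(z)³ η(7 z)³` is the theta series `1/2 ∑ a² q^{|a|²}`. -/
theorem eta7_series {z : ℂ} (hz : 0 < z.im) :
    HasSum (fun n : ℕ => BZLFun.cf n * cexp (2 * Real.pi * I * n * z))
      (ModularForm.eta z ^ 3 * ModularForm.eta (7 * z) ^ 3) := by
  have hq : ‖cexp (2 * Real.pi * I * z)‖ < 1 := by
    rw [Complex.norm_exp]
    rw [Real.exp_lt_one_iff]
    have : (2 * Real.pi * I * z : ℂ).re = -(2 * Real.pi * z.im) := by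
      simp
    rw [this]
    have := Real.pi_pos
    nlinarith [mul_pos this hz]
  have h := cf_series (Complex.exp_ne_zero _) hq
  rw [eta_eq, eta_eq]
  have e7 : cexp (2 * Real.pi * I * (7 * z)) = cexp (2 * Real.pi * I * z) ^ 7 := by
    rw [← Complex.exp_nat_mul]; congr 1; push_cast; ring
  have e8 : cexp (2 * Real.pi * I * z)
      = cexp (2 * Real.pi * I * z / 24) ^ 3 * cexp (2 * Real.pi * I * (7 * z) / 24) ^ 3 := by
    rw [← Complex.exp_nat_mul, ← Complex.exp_nat_mul, ← Complex.exp_add]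
    congr 1; push_cast; ring
  have e9 : (cexp (2 * Real.pi * I * z / 24) * pinf (cexp (2 * Real.pi * I * z))) ^ 3 *
      (cexp (2 * Real.pi * I * (7 * z) / 24) * pinf (cexp (2 * Real.pi * I * (7 * z)))) ^ 3
      = cexp (2 * Real.pi * I * z) * (pinf (cexp (2 * Real.pi * I * z)) ^ 3 *
        pinf (cexp (2 * Real.pi * I * z) ^ 7) ^ 3) := by
    rw [e7]
    nth_rw 3 [e8]
    ring
  rw [e9]
  refine h.congr_fun'' fun n => ?_
  rw [← Complex.exp_nat_mul]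
  congr 2
  ring

end EtaS
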