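import Mathlib
import Pool.Agent.K3R.JacobiCube
import Pool.Agent.K3R.LFunLattice
import Pool.Agent.K3R.EtaSeries

/-!
`η(3z)³ η(5z)³` and `η(z)³ η(15z)³` as theta series of the two ideal classes of `ℚ(√-15)`.
-/

open Complex Filter Topology

namespace EtaF

open JacCube EtaS

/-- the norm form `x² + x y + 4 y²` of the ring of integers -/
def nuA (p : ℤ × ℤ) : ℕ := (p.1 ^ 2 + p.1 * p.2 + 4 * p.2 ^ 2).toNat

/-- the form `3 x² - 3 x y + 2 y²` of the other class -/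
def nuB (p : ℤ × ℤ) : ℕ := (3 * p.1 ^ 2 - 3 * p.1 * p.2 + 2 * p.2 ^ 2).toNat

lemma nuA_cast (p : ℤ × ℤ) : ((nuA p : ℕ) : ℤ) = p.1 ^ 2 + p.1 * p.2 + 4 * p.2 ^ 2 :=
  Int.toNat_of_nonneg (by nlinarith [sq_nonneg (2 * p.1 + p.2), sq_nonneg p.2])

lemma nuB_cast (p : ℤ × ℤ) : ((nuB p : ℕ) : ℤ) = 3 * p.1 ^ 2 - 3 * p.1 * p.2 + 2 * p.2 ^ 2 :=
  Int.toNat_of_nonneg (by nlinarith [sq_nonneg (2 * p.1 - p.2), sq_nonneg p.2])

lemma nuA_castR (p : ℤ × ℤ) :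
    ((nuA p : ℕ) : ℝ) = (p.1 : ℝ) ^ 2 + p.1 * p.2 + 4 * (p.2 : ℝ) ^ 2 := by
  have h := nuA_cast p
  have h2 : (((nuA p : ℕ) : ℤ) : ℝ) = ((p.1 ^ 2 + p.1 * p.2 + 4 * p.2 ^ 2 : ℤ) : ℝ) := by rw [h]
  push_cast at h2
  exact h2

lemma nuB_castR (p : ℤ × ℤ) :
    ((nuB p : ℕ) : ℝ) = 3 * (p.1 : ℝ) ^ 2 - 3 * p.1 * p.2 + 2 * (p.2 : ℝ) ^ 2 := by
  have h := nuB_cast p
  have h2 : (((nuB p : ℕ) : ℤ) : ℝ)
      = ((3 * p.1 ^ 2 - 3 * p.1 * p.2 + 2 * p.2 ^ 2 : ℤ) : ℝ) := by rw [h]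
  push_cast at h2
  exact h2

lemma nuA_ge (p : ℤ × ℤ) : (1 / 2 : ℝ) * ((p.1 : ℝ) ^ 2 + (p.2 : ℝ) ^ 2) ≤ nuA p := by
  rw [nuA_castR]
  nlinarith [sq_nonneg ((p.1 : ℝ) + p.2), sq_nonneg (p.2 : ℝ)]

lemma nuB_ge (p : ℤ × ℤ) : (1 / 4 : ℝ) * ((p.1 : ℝ) ^ 2 + (p.2 : ℝ) ^ 2) ≤ nuB p := by
  rw [nuB_castR]
  nlinarith [sq_nonneg ((p.1 : ℝ) - p.2), sq_nonneg (p.2 : ℝ),
    sq_nonneg (7 * (p.1 : ℝ) - 4 * p.2), sq_nonneg (11 * (p.1 : ℝ) - 6 * p.2)]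

/-- the lattice point `x + y (1 + √-15) / 2` -/
noncomputable def elA (p : ℤ × ℤ) : ℂ := LatL.lat (1 / 2) (√15 / 2) p

/-- the lattice point `x + y (-1/2 + √-15 / 6)` -/
noncomputable def elB (p : ℤ × ℤ) : ℂ := LatL.lat (-1 / 2) (√15 / 6) p

lemma s15 : (√(15 : ℝ) : ℂ) ^ 2 = 15 := by
  rw [← Complex.ofReal_pow, Real.sq_sqrt (by norm_num)]; norm_num

lemma elA_sq (p : ℤ × ℤ) : elA p ^ 2 = ((p.1 : ℂ) ^ 2 - 4 * (p.2 : ℂ) ^ 2)
    + (p.2 : ℂ) * (2 * p.1 + p.2) * (1 / 2 + √15 * I / 2) := by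
  rw [elA, LatL.lat]
  push_cast
  have hI : I ^ 2 = -1 := Complex.I_sq
  linear_combination ((p.2 : ℂ) ^ 2 / 4 * I ^ 2) * s15 + (15 / 4 * (p.2 : ℂ) ^ 2) * hI

lemma elB_sq (p : ℤ × ℤ) : elB p ^ 2 = -(2 / 3) * ((1 / 2) * ((p.1 : ℂ) * (4 * p.2 - 3 * p.1)))
    + (p.2 : ℂ) * (2 * p.1 - p.2) * (1 / 6 + √15 * I / 6) := by
  rw [elB, LatL.lat]
  push_cast
  have hI : I ^ 2 = -1 := Complex.I_sq
  linear_combination ((p.2 : ℂ) ^ 2 / 36 * I ^ 2) * s15 + (15 / 36 * (p.2 : ℂ) ^ 2) * hI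

/-- swapping the coordinates -/
lemma normC_le {a b : ℝ} {c : ℂ} {C : ℝ} (e : c = ((a : ℝ) : ℂ)) (h1 : -(C * b) ≤ a)
    (h2 : a ≤ C * b) : ‖c‖ ≤ C * b := by
  rw [e, Complex.norm_real, Real.norm_eq_abs]
  exact abs_le.mpr ⟨h1, h2⟩

/-- conjugation for the other class -/
def cjB : ℤ × ℤ ≃ ℤ × ℤ where
  toFun p := (p.1 - p.2, -p.2)
  invFun p := (p.1 - p.2, -p.2)
  left_inv p := by ext <;> simp
  right_inv p := by ext <;> simp

/-- `(x, y) ↦ (-x, y - 3 x)` -/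
def shB : ℤ × ℤ ≃ ℤ × ℤ where
  toFun p := (-p.1, p.2 - 3 * p.1)
  invFun p := (-p.1, p.2 - 3 * p.1)
  left_inv p := by ext <;> simp
  right_inv p := by ext <;> simp

lemma nuA_eq_of {p p' : ℤ × ℤ}
    (h : p.1 ^ 2 + p.1 * p.2 + 4 * p.2 ^ 2 = p'.1 ^ 2 + p'.1 * p'.2 + 4 * p'.2 ^ 2) :
    nuA p = nuA p' := by
  rw [nuA, nuA, h]

lemma nuB_eq_of {p p' : ℤ × ℤ}
    (h : 3 * p.1 ^ 2 - 3 * p.1 * p.2 + 2 * p.2 ^ 2
      = 3 * p'.1 ^ 2 - 3 * p'.1 * p'.2 + 2 * p'.2 ^ 2) :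
    nuB p = nuB p' := by
  rw [nuB, nuB, h]

theorem theta15a {q : ℂ} (hq0 : q ≠ 0) (hq : ‖q‖ < 1) :
    HasSum (fun p : ℤ × ℤ => elA p ^ 2 * q ^ nuA p)
      (2 * (q * (pinf (q ^ 3) ^ 3 * pinf (q ^ 5) ^ 3))) := by
  set c : ℤ × ℤ → ℂ := fun p => ((p.1 : ℂ) ^ 2 - 4 * (p.2 : ℂ) ^ 2) * q ^ nuA p with hc
  have hsum : Summable c := by
    refine sumq hq0 hq nuA (δ := 1 / 2) (by norm_num) nuA_ge
      (fun p => (p.1 : ℂ) ^ 2 - 4 * (p.2 : ℂ) ^ 2) 4 fun p => ?_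
    refine normC_le (a := (p.1 : ℝ) ^ 2 - 4 * (p.2 : ℝ) ^ 2) (by push_cast; ring) ?_ ?_ <;>
      nlinarith [sq_nonneg (p.1 : ℝ), sq_nonneg (p.2 : ℝ)]
  have h1 : HasSum c (2 * (q * (pinf (q ^ 3) ^ 3 * pinf (q ^ 5) ^ 3))) := by
    refine total (c := c) ?_ (fun p => (2 * (p.1 + p.2) + 1, p.2 - p.1)) ?_
      (fun p => (p.1 - 2 * p.2) % 4 = 1) ?_ ?_ ?_ ?_ ?_
    · intro p
      simp only [hc, Prod.fst_neg, Prod.snd_neg, Int.cast_neg]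
      rw [show nuA (-p) = nuA p from nuA_eq_of (by simp)]
      ring
    · rintro ⟨a, b⟩ ⟨a', b'⟩ h
      simp only [Prod.mk.injEq] at h ⊢
      omega
    · rintro ⟨a, b⟩
      simp only [Set.mem_range, Prod.mk.injEq, Prod.exists]
      constructor
      · intro h
        exact ⟨(a - 2 * b) / 4, (a - 2 * b) / 4 + b, by omega, by omega⟩
      · rintro ⟨i, j, h, h'⟩
        omega
    · intro p
      simp only [Prod.fst_neg, Prod.snd_neg]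
      omega
    · intro p
      simp only [Prod.fst_neg, Prod.snd_neg]
      omega
    · have h2 := (prod_hasSum (norm_pow7 hq (k := 3) (by norm_num))
        (norm_pow7 hq (k := 5) (by norm_num))).mul_left q
      refine h2.congr_fun'' fun p => ?_
      have e : nuA (2 * (p.1 + p.2) + 1, p.2 - p.1) = 1 + 3 * ex p.1 + 5 * ex p.2 := by
        have h3 := nuA_cast (2 * (p.1 + p.2) + 1, p.2 - p.1)
        have h4 := ex_cast p.1
        have h5 := ex_cast p.2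
        have : ((nuA (2 * (p.1 + p.2) + 1, p.2 - p.1) : ℕ) : ℤ)
            = ((1 + 3 * ex p.1 + 5 * ex p.2 : ℕ) : ℤ) := by
          rw [h3]; push_cast; rw [h4, h5]; ring
        exact_mod_cast this
      simp only [Function.comp, hc, e]
      rw [pow_add, pow_add, pow_mul, pow_mul]
      push_cast
      ring
    · refine anti_zero (Equiv.prodComm ℤ ℤ) ?_ ?_
      · exact hsum.comp_injective (i := fun p : ℤ × ℤ => ((2 * p.1, p.2) : ℤ × ℤ)) (by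
          rintro ⟨a, b⟩ ⟨a', b'⟩ h
          simp only [Prod.mk.injEq] at h ⊢
          omega)
      · intro p
        simp only [hc, Equiv.prodComm_apply, Prod.fst_swap, Prod.snd_swap]
        rw [show nuA (2 * p.2, p.1) = nuA (2 * p.1, p.2) from nuA_eq_of (by ring)]
        push_cast
        ring
  have h2 : HasSum (fun p : ℤ × ℤ => ((p.2 : ℂ) * (2 * p.1 + p.2) * (1 / 2 + √15 * I / 2)) *
      q ^ nuA p) 0 := by
    refine anti_zero BZLFun.cj ?_ ?_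
    · refine sumq hq0 hq nuA (δ := 1 / 2) (by norm_num) nuA_ge
        (fun p => (p.2 : ℂ) * (2 * p.1 + p.2) * (1 / 2 + √15 * I / 2))
        (2 * ‖(1 / 2 + √15 * I / 2 : ℂ)‖) fun p => ?_
      rw [norm_mul]
      have h3 : ‖(p.2 : ℂ) * (2 * p.1 + p.2)‖ ≤ 2 * ((p.1 : ℝ) ^ 2 + (p.2 : ℝ) ^ 2) := by
        refine normC_le (a := (p.2 : ℝ) * (2 * p.1 + p.2)) (by push_cast; ring) ?_ ?_ <;>
          nlinarith [sq_nonneg ((p.1 : ℝ) + p.2), sq_nonneg ((p.1 : ℝ) - p.2)]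
      nlinarith [mul_le_mul_of_nonneg_right h3 (norm_nonneg (1 / 2 + √15 * I / 2 : ℂ))]
    · intro p
      simp only [BZLFun.cj, Equiv.coe_fn_mk]
      rw [show nuA (p.1 + p.2, -p.2) = nuA p from nuA_eq_of (by simp only; ring)]
      push_cast
      ring
  have h3 := h1.add h2
  rw [add_zero] at h3
  refine h3.congr_fun'' fun p => ?_
  simp only [hc]
  rw [elA_sq]
  ring

theorem theta15b {q : ℂ} (hq0 : q ≠ 0) (hq : ‖q‖ < 1) :
    HasSum (fun p : ℤ × ℤ => elB p ^ 2 * q ^ nuB p)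
      (-(2 / 3) * (q ^ 2 * (pinf q ^ 3 * pinf (q ^ 15) ^ 3))) := by
  set c : ℤ × ℤ → ℂ := fun p => ((p.1 : ℂ) * (4 * p.2 - 3 * p.1)) * q ^ nuB p with hc
  have hsum : Summable c := by
    refine sumq hq0 hq nuB (δ := 1 / 4) (by norm_num) nuB_ge
      (fun p => (p.1 : ℂ) * (4 * p.2 - 3 * p.1)) 5 fun p => ?_
    refine normC_le (a := (p.1 : ℝ) * (4 * p.2 - 3 * p.1)) (by push_cast; ring) ?_ ?_ <;>
      nlinarith [sq_nonneg ((p.1 : ℝ) + p.2), sq_nonneg ((p.1 : ℝ) - p.2),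
        sq_nonneg (p.1 : ℝ), sq_nonneg (p.2 : ℝ)]
  have h1 : HasSum c (2 * (q ^ 2 * (pinf q ^ 3 * pinf (q ^ 15) ^ 3))) := by
    refine total (c := c) ?_ (fun p => (4 * p.2 + 1, p.1 + 3 * p.2 + 1)) ?_
      (fun p => p.1 % 4 = 1) ?_ ?_ ?_ ?_ ?_
    · intro p
      simp only [hc, Prod.fst_neg, Prod.snd_neg, Int.cast_neg]
      rw [show nuB (-p) = nuB p from nuB_eq_of (by simp)]
      ring
    · rintro ⟨a, b⟩ ⟨a', b'⟩ h
      simp only [Prod.mk.injEq] at h ⊢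
      omega
    · rintro ⟨a, b⟩
      simp only [Set.mem_range, Prod.mk.injEq, Prod.exists]
      constructor
      · intro h
        exact ⟨b - 3 * (a / 4) - 1, a / 4, by omega, by omega⟩
      · rintro ⟨i, j, h, -⟩
        omega
    · intro p
      simp only [Prod.fst_neg]
      omega
    · intro p
      simp only [Prod.fst_neg]
      omega
    · have h2 := (prod_hasSum hq (norm_pow7 hq (k := 15) (by norm_num))).mul_left (q ^ 2)
      refine h2.congr_fun'' fun p => ?_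
      have e : nuB (4 * p.2 + 1, p.1 + 3 * p.2 + 1) = 2 + ex p.1 + 15 * ex p.2 := by
        have h3 := nuB_cast (4 * p.2 + 1, p.1 + 3 * p.2 + 1)
        have h4 := ex_cast p.1
        have h5 := ex_cast p.2
        have : ((nuB (4 * p.2 + 1, p.1 + 3 * p.2 + 1) : ℕ) : ℤ)
            = ((2 + ex p.1 + 15 * ex p.2 : ℕ) : ℤ) := by
          rw [h3]; push_cast; rw [h4, h5]; ring
        exact_mod_cast this
      simp only [Function.comp, hc, e]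
      rw [pow_add, pow_add, pow_mul]
      push_cast
      ring
    · refine anti_zero shB ?_ ?_
      · exact hsum.comp_injective (i := fun p : ℤ × ℤ => ((2 * p.1, p.2) : ℤ × ℤ)) (by
          rintro ⟨a, b⟩ ⟨a', b'⟩ h
          simp only [Prod.mk.injEq] at h ⊢
          omega)
      · intro p
        simp only [hc, shB, Equiv.coe_fn_mk]
        rw [show nuB (2 * -p.1, p.2 - 3 * p.1) = nuB (2 * p.1, p.2) from
          nuB_eq_of (by ring)]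
        push_cast
        ring
  have h2 : HasSum (fun p : ℤ × ℤ => ((p.2 : ℂ) * (2 * p.1 - p.2) * (1 / 6 + √15 * I / 6)) *
      q ^ nuB p) 0 := by
    refine anti_zero cjB ?_ ?_
    · refine sumq hq0 hq nuB (δ := 1 / 4) (by norm_num) nuB_ge
        (fun p => (p.2 : ℂ) * (2 * p.1 - p.2) * (1 / 6 + √15 * I / 6))
        (2 * ‖(1 / 6 + √15 * I / 6 : ℂ)‖) fun p => ?_
      rw [norm_mul]
      have h3 : ‖(p.2 : ℂ) * (2 * p.1 - p.2)‖ ≤ 2 * ((p.1 : ℝ) ^ 2 + (p.2 : ℝ) ^ 2) := by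
        refine normC_le (a := (p.2 : ℝ) * (2 * p.1 - p.2)) (by push_cast; ring) ?_ ?_ <;>
          nlinarith [sq_nonneg ((p.1 : ℝ) + p.2), sq_nonneg ((p.1 : ℝ) - p.2)]
      nlinarith [mul_le_mul_of_nonneg_right h3 (norm_nonneg (1 / 6 + √15 * I / 6 : ℂ))]
    · intro p
      simp only [cjB, Equiv.coe_fn_mk]
      rw [show nuB (p.1 - p.2, -p.2) = nuB p from nuB_eq_of (by simp only; ring)]
      push_cast
      ring
  have h3 := (h1.mul_left (-(1 / 3))).add h2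
  rw [add_zero, show -(1 / 3 : ℂ) * (2 * (q ^ 2 * (pinf q ^ 3 * pinf (q ^ 15) ^ 3)))
    = -(2 / 3) * (q ^ 2 * (pinf q ^ 3 * pinf (q ^ 15) ^ 3)) by ring] at h3
  refine h3.congr_fun'' fun p => ?_
  simp only [hc]
  rw [elB_sq]
  ring

end EtaF
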