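import Mathlib
import Pool.Agent.K3R.EtaFifteen

/-!
The L-function of `f₁₅ = η(3z)³ η(5z)³ + η(z)³ η(15z)³` (weight 3, level 15, complex
multiplication by `ℚ(√-15)`).
-/

open Complex Filter Topology

namespace EtaF

open JacCube EtaS

lemma hyA : 0 < √(15 : ℝ) / 2 := by positivity

lemma hyB : 0 < √(15 : ℝ) / 6 := by positivity

/-- the pairs with `x² + x y + 4 y² = n` -/
noncomputable def boxA (n : ℕ) : Finset (ℤ × ℤ) :=
  (Finset.Icc (-n : ℤ) n ×ˢ Finset.Icc (-n : ℤ) n).filter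
    fun p => p.1 ^ 2 + p.1 * p.2 + 4 * p.2 ^ 2 = n

/-- the pairs with `3 x² - 3 x y + 2 y² = n` -/
noncomputable def boxB (n : ℕ) : Finset (ℤ × ℤ) :=
  (Finset.Icc (-n : ℤ) n ×ˢ Finset.Icc (-n : ℤ) n).filter
    fun p => 3 * p.1 ^ 2 - 3 * p.1 * p.2 + 2 * p.2 ^ 2 = n

lemma bd (n : ℕ) (x : ℤ) (hx : x ^ 2 * 15 ≤ 16 * n) : -(n : ℤ) ≤ x ∧ x ≤ n := by
  have hn : (0 : ℤ) ≤ n := Int.natCast_nonneg n
  have h3 : |x| ≤ n := by
    by_contra hc
    push Not at hc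
    have h4 : (n : ℤ) + 1 ≤ |x| := hc
    have h5 : ((n : ℤ) + 1) ^ 2 ≤ x ^ 2 := by
      rw [← sq_abs x]
      exact pow_le_pow_left₀ (by linarith) h4 2
    nlinarith
  exact abs_le.mp h3

lemma mem_boxA (n : ℕ) (p : ℤ × ℤ) : p ∈ boxA n ↔ nuA p = n := by
  unfold boxA
  rw [Finset.mem_filter, Finset.mem_product, Finset.mem_Icc, Finset.mem_Icc, ← nuA_cast]
  constructor
  · rintro ⟨-, h⟩
    exact_mod_cast h
  · intro h
    refine ⟨?_, by rw [h]⟩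
    have h1 := nuA_cast p
    rw [h] at h1
    exact ⟨bd n _ (by nlinarith [sq_nonneg (p.1 + 8 * p.2)]),
      bd n _ (by nlinarith [sq_nonneg (2 * p.1 + p.2), sq_nonneg p.2])⟩

lemma mem_boxB (n : ℕ) (p : ℤ × ℤ) : p ∈ boxB n ↔ nuB p = n := by
  unfold boxB
  rw [Finset.mem_filter, Finset.mem_product, Finset.mem_Icc, Finset.mem_Icc, ← nuB_cast]
  constructor
  · rintro ⟨-, h⟩
    exact_mod_cast h
  · intro h
    refine ⟨?_, by rw [h]⟩
    have h1 := nuB_cast p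
    rw [h] at h1
    exact ⟨bd n _ (by nlinarith [sq_nonneg (4 * p.2 - 3 * p.1), sq_nonneg p.1]),
      bd n _ (by nlinarith [sq_nonneg (2 * p.1 - p.2), sq_nonneg p.2])⟩

/-- The coefficients of `f₁₅`. -/
noncomputable def a15 (n : ℕ) : ℂ :=
  1 / 2 * (∑ p ∈ boxA n, elA p ^ 2 - 3 * ∑ p ∈ boxB n, elB p ^ 2)

theorem a15_series {q : ℂ} (hq0 : q ≠ 0) (hq : ‖q‖ < 1) :
    HasSum (fun n : ℕ => a15 n * q ^ n)
      (q * (pinf (q ^ 3) ^ 3 * pinf (q ^ 5) ^ 3) + q ^ 2 * (pinf q ^ 3 * pinf (q ^ 15) ^ 3)) := by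
  have hA := (collect (fun n => boxA n) mem_boxA (theta15a hq0 hq)).mul_left (1 / 2)
  have hB := (collect (fun n => boxB n) mem_boxB (theta15b hq0 hq)).mul_left (-3 / 2)
  have h := hA.add hB
  rw [show (1 / 2 : ℂ) * (2 * (q * (pinf (q ^ 3) ^ 3 * pinf (q ^ 5) ^ 3)))
      + (-3 / 2) * (-(2 / 3) * (q ^ 2 * (pinf q ^ 3 * pinf (q ^ 15) ^ 3)))
    = q * (pinf (q ^ 3) ^ 3 * pinf (q ^ 5) ^ 3) + q ^ 2 * (pinf q ^ 3 * pinf (q ^ 15) ^ 3)
    by ring] at h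
  refine h.congr_fun'' fun n => ?_
  rw [a15]
  ring

/-- `f₁₅(z) = η(3z)³ η(5z)³ + η(z)³ η(15z)³ = ∑ a₁₅(n) e(n z)`. -/
theorem eta15_series {z : ℂ} (hz : 0 < z.im) :
    HasSum (fun n : ℕ => a15 n * cexp (2 * Real.pi * I * n * z))
      (ModularForm.eta (3 * z) ^ 3 * ModularForm.eta (5 * z) ^ 3 +
        ModularForm.eta z ^ 3 * ModularForm.eta (15 * z) ^ 3) := by
  have hq : ‖cexp (2 * Real.pi * I * z)‖ < 1 := by
    rw [Complex.norm_exp]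
    rw [Real.exp_lt_one_iff]
    have : (2 * Real.pi * I * z : ℂ).re = -(2 * Real.pi * z.im) := by
      simp
    rw [this]
    have := Real.pi_pos
    nlinarith [mul_pos this hz]
  have h := a15_series (Complex.exp_ne_zero _) hq
  rw [eta_eq, eta_eq, eta_eq, eta_eq]
  have ek : ∀ k : ℕ, cexp (2 * Real.pi * I * (k * z)) = cexp (2 * Real.pi * I * z) ^ k := by
    intro k
    rw [← Complex.exp_nat_mul]; congr 1; ring
  have e3 := ek 3
  have e5 := ek 5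
  have e15 := ek 15
  push_cast at e3 e5 e15
  have e8 : cexp (2 * Real.pi * I * z)
      = cexp (2 * Real.pi * I * (3 * z) / 24) ^ 3 * cexp (2 * Real.pi * I * (5 * z) / 24) ^ 3 := by
    rw [← Complex.exp_nat_mul, ← Complex.exp_nat_mul, ← Complex.exp_add]
    congr 1; push_cast; ring
  have e9 : cexp (2 * Real.pi * I * z) ^ 2
      = cexp (2 * Real.pi * I * z / 24) ^ 3 * cexp (2 * Real.pi * I * (15 * z) / 24) ^ 3 := by
    rw [← Complex.exp_nat_mul, ← Complex.exp_nat_mul, ← Complex.exp_nat_mul, ← Complex.exp_add]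
    congr 1; push_cast; ring
  rw [e3, e5, e15]
  set Q := cexp (2 * Real.pi * I * z) with hQ
  have e10 : (cexp (2 * Real.pi * I * (3 * z) / 24) * pinf (Q ^ 3)) ^ 3 *
      (cexp (2 * Real.pi * I * (5 * z) / 24) * pinf (Q ^ 5)) ^ 3 +
      (cexp (2 * Real.pi * I * z / 24) * pinf Q) ^ 3 *
      (cexp (2 * Real.pi * I * (15 * z) / 24) * pinf (Q ^ 15)) ^ 3
      = Q * (pinf (Q ^ 3) ^ 3 * pinf (Q ^ 5) ^ 3) + Q ^ 2 * (pinf Q ^ 3 * pinf (Q ^ 15) ^ 3) := by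
    linear_combination (-(pinf (Q ^ 3) ^ 3 * pinf (Q ^ 5) ^ 3)) * e8 -
      (pinf Q ^ 3 * pinf (Q ^ 15) ^ 3) * e9
  rw [e10]
  refine h.congr_fun'' fun n => ?_
  rw [hQ, ← Complex.exp_nat_mul]
  congr 2
  ring

lemma QA (p : ℤ × ℤ) : LatL.Q (1 / 2) (√15 / 2) p = nuA p := by
  rw [nuA_castR, LatL.Q]
  have := Real.sq_sqrt (show (0 : ℝ) ≤ 15 by norm_num)
  linear_combination ((p.2 : ℝ) ^ 2 / 4) * this

lemma QB (p : ℤ × ℤ) : LatL.Q (-1 / 2) (√15 / 6) p = nuB p / 3 := by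
  rw [nuB_castR, LatL.Q]
  have := Real.sq_sqrt (show (0 : ℝ) ≤ 15 by norm_num)
  linear_combination ((p.2 : ℝ) ^ 2 / 36) * this

lemma collectD {c : ℤ × ℤ → ℂ} {ν : ℤ × ℤ → ℕ} (B : ℕ → Finset (ℤ × ℤ))
    (hB : ∀ n p, p ∈ B n ↔ ν p = n) {s T : ℂ} (hs : s ≠ 0)
    (h : HasSum (fun p => c p / ((ν p : ℕ) : ℂ) ^ s) T) :
    LSeriesHasSum (fun n => ∑ p ∈ B n, c p) s T := by
  have h1 := (Equiv.sigmaFiberEquiv ν).hasSum_iff.mpr h
  have h2 := h1.sigma (g := fun n => LSeries.term (fun n => ∑ p ∈ B n, c p) s n) ?_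
  · exact h2
  intro n
  have h3 : HasSum (fun x : {p : ℤ × ℤ // p ∈ (B n : Set (ℤ × ℤ))} => c x.1 / (n : ℂ) ^ s)
      (∑ p ∈ B n, c p / (n : ℂ) ^ s) := Finset.hasSum (B n) (fun p : ℤ × ℤ => c p / (n : ℂ) ^ s)
  have h4 : (∑ p ∈ B n, c p / (n : ℂ) ^ s)
      = LSeries.term (fun n => ∑ p ∈ B n, c p) s n := by
    rcases Nat.eq_zero_or_pos n with rfl | hn
    · rw [LSeries.term_zero]
      simp [Complex.zero_cpow hs]
    · rw [LSeries.term_of_ne_zero hn.ne', ← Finset.sum_div]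
  rw [h4] at h3
  let e : {p : ℤ × ℤ // ν p = n} ≃ {p : ℤ × ℤ // p ∈ (B n : Set (ℤ × ℤ))} :=
    Equiv.subtypeEquivRight fun p => by rw [Finset.mem_coe, hB]
  rw [← e.hasSum_iff] at h3
  refine h3.congr_fun'' fun x => ?_
  obtain ⟨x, hx⟩ := x
  simp only [Function.comp, Equiv.sigmaFiberEquiv, Equiv.coe_fn_mk]
  rw [hx]
  rfl

/-- the L-function of `f₁₅` -/
noncomputable def L15 (s : ℂ) : ℂ :=
  1 / 2 * (LatL.Z (1 / 2) hyA s - (3 : ℂ) ^ (1 - s) * LatL.Z (-1 / 2) hyB s)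

lemma three_diff : Differentiable ℂ (fun s : ℂ => (3 : ℂ) ^ (1 - s)) := fun s =>
  ((differentiableAt_const (1 : ℂ)).sub differentiableAt_id).const_cpow (Or.inl (by norm_num))

theorem L15_diff : Differentiable ℂ L15 := by
  have h1 := LatL.Z_diff (1 / 2) hyA
  have h2 := LatL.Z_diff (-1 / 2) hyB
  exact ((h1.sub (three_diff.mul h2)).const_mul (1 / 2))

theorem L15_LSeries {s : ℂ} (hs : 2 < s.re) : LSeriesHasSum a15 s (L15 s) := by
  have hs0 : s ≠ 0 := by rintro rfl; simp at hs; linarith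
  have hA : HasSum (fun p : ℤ × ℤ => elA p ^ 2 / ((nuA p : ℕ) : ℂ) ^ s)
      (LatL.Z (1 / 2) hyA s) := by
    refine (LatL.hasSum_Z (1 / 2) hyA hs).congr_fun'' fun p => ?_
    rw [QA, elA]
    simp
  have hB : HasSum (fun p : ℤ × ℤ => elB p ^ 2 / ((nuB p : ℕ) : ℂ) ^ s)
      ((3 : ℂ) ^ (-s) * LatL.Z (-1 / 2) hyB s) := by
    refine ((LatL.hasSum_Z (-1 / 2) hyB hs).mul_left ((3 : ℂ) ^ (-s))).congr_fun'' fun p => ?_
    rw [QB, elB]
    have e : (((nuB p : ℝ) / 3 : ℝ) : ℂ) ^ s = ((nuB p : ℕ) : ℂ) ^ s * (3 : ℂ) ^ (-s) := by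
      rw [show ((nuB p : ℝ) / 3 : ℝ) = (nuB p : ℝ) * (3 : ℝ)⁻¹ by ring, Complex.ofReal_mul,
        Complex.mul_cpow_ofReal_nonneg (by positivity) (by positivity)]
      congr 1
      rw [Complex.cpow_neg, Complex.ofReal_inv, Complex.inv_cpow]
      · norm_num
      · have : ((3 : ℝ) : ℂ) = ((3 : ℕ) : ℂ) := by norm_num
        rw [this, Complex.natCast_arg]
        exact Real.pi_pos.ne
    rw [e]
    have h3 : (3 : ℂ) ^ (-s) ≠ 0 := by
      rw [Complex.cpow_def_of_ne_zero (by norm_num)]; exact Complex.exp_ne_zero _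
    by_cases h4 : ((nuB p : ℕ) : ℂ) ^ s = 0
    · rw [h4]; simp
    · field_simp
  have h1 := collectD (fun n => boxA n) mem_boxA hs0 hA
  have h2 := collectD (fun n => boxB n) mem_boxB hs0 hB
  have h3 := (h1.mul_left (1 / 2)).add (h2.mul_left (-3 / 2))
  have e1 : (1 / 2 : ℂ) * LatL.Z (1 / 2) hyA s + (-3 / 2) * ((3 : ℂ) ^ (-s) *
      LatL.Z (-1 / 2) hyB s) = L15 s := by
    have e5 : (3 : ℂ) ^ (1 - s) = 3 * (3 : ℂ) ^ (-s) := by
      rw [sub_eq_add_neg, Complex.cpow_add _ _ (by norm_num), Complex.cpow_one]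
    rw [L15, e5]
    ring
  rw [e1] at h3
  refine h3.congr_fun'' fun n => ?_
  rcases Nat.eq_zero_or_pos n with rfl | hn
  · simp
  · rw [LSeries.term_of_ne_zero hn.ne', LSeries.term_of_ne_zero hn.ne',
      LSeries.term_of_ne_zero hn.ne', a15]
    ring

theorem deriv_L15 : deriv L15 (-1) = -(6 * ((√15 / (2 * Real.pi)) ^ 5 : ℝ)) * L15 4 := by
  have hA := LatL.hasDerivAt_Z (1 / 2) hyA
  have hB := LatL.hasDerivAt_Z (-1 / 2) hyB
  have h0 := LatL.Z_neg_one (-1 / 2) hyB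
  have h3 := (three_diff (-1)).hasDerivAt.mul hB
  have h := (hA.sub h3).const_mul (1 / 2)
  have h4 : HasDerivAt L15 _ (-1) := h
  rw [h4.deriv, h0, mul_zero, zero_add, L15]
  have hp : (Real.pi : ℂ) ≠ 0 := Complex.ofReal_ne_zero.mpr Real.pi_pos.ne'
  have e1 : (3 : ℂ) ^ (1 - (-1) : ℂ) = 9 := by
    rw [show (1 - (-1) : ℂ) = ((2 : ℕ) : ℂ) by norm_num, Complex.cpow_natCast]; norm_num
  have e2 : (3 : ℂ) ^ (1 - 4 : ℂ) = (27 : ℂ)⁻¹ := by
    rw [show (1 - 4 : ℂ) = -((3 : ℕ) : ℂ) by norm_num, Complex.cpow_neg, Complex.cpow_natCast]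
    norm_num
  rw [e1, e2]
  have e3 : ((√15 / 2 / Real.pi : ℝ)) = √15 / (2 * Real.pi) := by field_simp
  have e4 : ((√15 / 6 / Real.pi : ℝ)) = √15 / (2 * Real.pi) / 3 := by field_simp; norm_num
  rw [e3, e4]
  push_cast
  ring

/-- `∑ x⁻⁴ x̄⁻²` over the ring of integers -/
noncomputable def LamA : ℂ := ∑' p : ℤ × ℤ, 1 / (elA p ^ 4 * (starRingEnd ℂ (elA p)) ^ 2)

/-- `∑ x⁻⁴ x̄⁻²` over `P₃⁻¹` -/
noncomputable def LamB : ℂ := ∑' p : ℤ × ℤ, 1 / (elB p ^ 4 * (starRingEnd ℂ (elB p)) ^ 2)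

lemma four_aux (z : ℂ) : (starRingEnd ℂ z) ^ 2 / ((‖z‖ ^ 2 : ℝ) : ℂ) ^ (4 : ℂ)
    = 1 / (z ^ 4 * (starRingEnd ℂ z) ^ 2) := by
  rw [show (4 : ℂ) = ((4 : ℕ) : ℂ) by norm_num, Complex.cpow_natCast,
    ← Complex.normSq_eq_norm_sq, ← Complex.mul_conj]
  by_cases h : z = 0
  · simp [h]
  · have h2 : (starRingEnd ℂ) z ≠ 0 := by simpa using h
    field_simp

lemma elA_cj (p : ℤ × ℤ) : elA (BZLFun.cj p) = starRingEnd ℂ (elA p) := by
  simp only [elA, LatL.lat, BZLFun.cj, Equiv.coe_fn_mk, map_add, map_mul, Complex.conj_ofReal,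
    Complex.conj_I]
  push_cast
  ring

lemma elB_cj (p : ℤ × ℤ) : elB (cjB p) = starRingEnd ℂ (elB p) := by
  simp only [elB, LatL.lat, cjB, Equiv.coe_fn_mk, map_add, map_mul, Complex.conj_ofReal,
    Complex.conj_I]
  push_cast
  ring

theorem ZA_four : LatL.Z (1 / 2) hyA 4 = LamA := by
  have h := (LatL.hasSum_Z (1 / 2) hyA (s := 4) (by norm_num)).tsum_eq
  rw [← h, LamA, ← BZLFun.cj.tsum_eq]
  refine tsum_congr fun p => ?_
  have e := elA_cj p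
  rw [LatL.Q_eq, ← four_aux]
  rw [show LatL.lat (1 / 2) (√15 / 2) (BZLFun.cj p) = starRingEnd ℂ (elA p) from e,
    Complex.norm_conj]

theorem ZB_four : LatL.Z (-1 / 2) hyB 4 = LamB := by
  have h := (LatL.hasSum_Z (-1 / 2) hyB (s := 4) (by norm_num)).tsum_eq
  rw [← h, LamB, ← cjB.tsum_eq]
  refine tsum_congr fun p => ?_
  have e := elB_cj p
  rw [LatL.Q_eq, ← four_aux]
  rw [show LatL.lat (-1 / 2) (√15 / 6) (cjB p) = starRingEnd ℂ (elB p) from e,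
    Complex.norm_conj]

theorem L15_four : L15 4 = 1 / 2 * (LamA - LamB / 27) := by
  rw [L15, ZA_four, ZB_four]
  have e2 : (3 : ℂ) ^ (1 - 4 : ℂ) = (27 : ℂ)⁻¹ := by
    rw [show (1 - 4 : ℂ) = -((3 : ℕ) : ℂ) by norm_num, Complex.cpow_neg, Complex.cpow_natCast]
    norm_num
  rw [e2]
  ring

theorem LamA_im : LamA.im = 0 := by
  apply Complex.conj_eq_iff_im.mp
  unfold LamA
  rw [Complex.conj_tsum, ← BZLFun.cj.tsum_eq]
  refine tsum_congr fun p => ?_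
  rw [elA_cj, map_div₀, map_mul, map_pow, map_pow, Complex.conj_conj, map_one]

theorem LamB_im : LamB.im = 0 := by
  apply Complex.conj_eq_iff_im.mp
  unfold LamB
  rw [Complex.conj_tsum, ← cjB.tsum_eq]
  refine tsum_congr fun p => ?_
  rw [elB_cj, map_div₀, map_mul, map_pow, map_pow, Complex.conj_conj, map_one]

/-- Summary. -/
theorem exists_L15 :
    ∃ (a : ℕ → ℂ) (L : ℂ → ℂ),
      (∀ z : ℂ, 0 < z.im → HasSum (fun n : ℕ => a n * cexp (2 * Real.pi * I * n * z))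
        (ModularForm.eta (3 * z) ^ 3 * ModularForm.eta (5 * z) ^ 3 +
          ModularForm.eta z ^ 3 * ModularForm.eta (15 * z) ^ 3)) ∧
      Differentiable ℂ L ∧ (∀ s : ℂ, 2 < s.re → LSeriesHasSum a s (L s)) ∧
      deriv L (-1) = -(6 * ((√15 / (2 * Real.pi)) ^ 5 : ℝ)) * L 4 ∧
      L 4 = 1 / 2 * (LamA - LamB / 27) :=
  ⟨a15, L15, fun _ hz => eta15_series hz, L15_diff, fun _ hs => L15_LSeries hs, deriv_L15,
    L15_four⟩

end EtaF
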