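import Mathlib
import Pool.Agent.K3R.LFunFifteen

/-!
The L-function of the newform `f₈ = 1/2 ∑ a² q^{|a|²}`, `a ∈ ℤ[√-2]` (weight 3, level 8).
-/

open Complex Filter Topology

namespace EtaE

open EtaF

lemma hy8 : 0 < √(2 : ℝ) := by positivity

/-- the norm form `x² + 2 y²` -/
def nu8 (p : ℤ × ℤ) : ℕ := (p.1 ^ 2 + 2 * p.2 ^ 2).toNat

lemma nu8_cast (p : ℤ × ℤ) : ((nu8 p : ℕ) : ℤ) = p.1 ^ 2 + 2 * p.2 ^ 2 :=
  Int.toNat_of_nonneg (by positivity)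

lemma nu8_castR (p : ℤ × ℤ) : ((nu8 p : ℕ) : ℝ) = (p.1 : ℝ) ^ 2 + 2 * (p.2 : ℝ) ^ 2 := by
  have h := nu8_cast p
  have h2 : (((nu8 p : ℕ) : ℤ) : ℝ) = ((p.1 ^ 2 + 2 * p.2 ^ 2 : ℤ) : ℝ) := by rw [h]
  push_cast at h2
  exact h2

/-- the element `x + y √-2` -/
noncomputable def el8 (p : ℤ × ℤ) : ℂ := LatL.lat 0 √2 p

/-- the pairs with `x² + 2 y² = n` -/
noncomputable def box8 (n : ℕ) : Finset (ℤ × ℤ) :=
  (Finset.Icc (-n : ℤ) n ×ˢ Finset.Icc (-n : ℤ) n).filter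
    fun p => p.1 ^ 2 + 2 * p.2 ^ 2 = n

lemma mem_box8 (n : ℕ) (p : ℤ × ℤ) : p ∈ box8 n ↔ nu8 p = n := by
  unfold box8
  rw [Finset.mem_filter, Finset.mem_product, Finset.mem_Icc, Finset.mem_Icc, ← nu8_cast]
  constructor
  · rintro ⟨-, h⟩
    exact_mod_cast h
  · intro h
    refine ⟨?_, by rw [h]⟩
    have h1 := nu8_cast p
    rw [h] at h1
    exact ⟨bd n _ (by nlinarith [sq_nonneg p.1, sq_nonneg p.2]),
      bd n _ (by nlinarith [sq_nonneg p.1, sq_nonneg p.2])⟩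

/-- The coefficients of `f₈`: `1/2 ∑_{|a|² = n} a²`. -/
noncomputable def a8 (n : ℕ) : ℂ := 1 / 2 * ∑ p ∈ box8 n, el8 p ^ 2

/-- the L-function of `f₈` -/
noncomputable def L8 (s : ℂ) : ℂ := 1 / 2 * LatL.Z 0 hy8 s

theorem L8_diff : Differentiable ℂ L8 := (LatL.Z_diff 0 hy8).const_mul (1 / 2)

lemma Q8 (p : ℤ × ℤ) : LatL.Q 0 √2 p = nu8 p := by
  rw [nu8_castR, LatL.Q]
  have := Real.sq_sqrt (show (0 : ℝ) ≤ 2 by norm_num)
  linear_combination ((p.2 : ℝ) ^ 2) * this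

theorem hasSum_L8 {s : ℂ} (hs : 2 < s.re) :
    HasSum (fun p : ℤ × ℤ => 1 / 2 * (el8 p ^ 2 / ((‖el8 p‖ ^ 2 : ℝ) : ℂ) ^ s)) (L8 s) := by
  refine ((LatL.hasSum_Z 0 hy8 hs).mul_left (1 / 2)).congr_fun'' fun p => ?_
  rw [LatL.Q_eq, el8]

theorem L8_LSeries {s : ℂ} (hs : 2 < s.re) : LSeriesHasSum a8 s (L8 s) := by
  have hs0 : s ≠ 0 := by rintro rfl; simp at hs; linarith
  have hA : HasSum (fun p : ℤ × ℤ => el8 p ^ 2 / ((nu8 p : ℕ) : ℂ) ^ s)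
      (LatL.Z 0 hy8 s) := by
    refine (LatL.hasSum_Z 0 hy8 hs).congr_fun'' fun p => ?_
    rw [Q8, el8]
    simp
  have h1 := collectD (fun n => box8 n) mem_box8 hs0 hA
  refine (h1.mul_left (1 / 2)).congr_fun'' fun n => ?_
  rcases Nat.eq_zero_or_pos n with rfl | hn
  · simp
  · rw [LSeries.term_of_ne_zero hn.ne', LSeries.term_of_ne_zero hn.ne', a8]
    ring

theorem deriv_L8 : deriv L8 (-1) = -(6 * ((√2 / Real.pi) ^ 5 : ℝ)) * L8 4 := by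
  have h : HasDerivAt L8 _ (-1) := (LatL.hasDerivAt_Z 0 hy8).const_mul (1 / 2)
  rw [h.deriv, L8]
  ring

/-- `∑ x⁻⁴ x̄⁻²` over `ℤ[√-2]` -/
noncomputable def Lam8 : ℂ := ∑' p : ℤ × ℤ, 1 / (el8 p ^ 4 * (starRingEnd ℂ (el8 p)) ^ 2)

/-- complex conjugation on the index set -/
def cj8 : ℤ × ℤ ≃ ℤ × ℤ where
  toFun p := (p.1, -p.2)
  invFun p := (p.1, -p.2)
  left_inv p := by ext <;> simp
  right_inv p := by ext <;> simp

lemma el8_cj (p : ℤ × ℤ) : el8 (cj8 p) = starRingEnd ℂ (el8 p) := by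
  simp only [el8, LatL.lat, cj8, Equiv.coe_fn_mk, map_add, map_mul, Complex.conj_ofReal,
    Complex.conj_I]
  push_cast
  ring

theorem Z8_four : LatL.Z 0 hy8 4 = Lam8 := by
  have h := (LatL.hasSum_Z 0 hy8 (s := 4) (by norm_num)).tsum_eq
  rw [← h, Lam8, ← cj8.tsum_eq]
  refine tsum_congr fun p => ?_
  have e := el8_cj p
  rw [LatL.Q_eq, ← four_aux]
  rw [show LatL.lat 0 √2 (cj8 p) = starRingEnd ℂ (el8 p) from e, Complex.norm_conj]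

theorem L8_four : L8 4 = Lam8 / 2 := by
  rw [L8, Z8_four]; ring

theorem Lam8_im : Lam8.im = 0 := by
  apply Complex.conj_eq_iff_im.mp
  unfold Lam8
  rw [Complex.conj_tsum, ← cj8.tsum_eq]
  refine tsum_congr fun p => ?_
  rw [el8_cj, map_div₀, map_mul, map_pow, map_pow, Complex.conj_conj, map_one]

end EtaE
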