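import Mathlib
import Pool.Agent.K3R.JacobiCube

/-!
Gauss' product formulas for `∑ (±1)^n q^(n²)` from the `q`-binomial theorem.
-/

open Finset Filter Topology

namespace ThP

open JacCube

variable {q : ℂ}

/-- `∑ e^n q^(n²)`, `e = ±1` -/
noncomputable def thz (e q : ℂ) : ℂ := ∑' n : ℤ, e ^ n.natAbs * q ^ (n.natAbs ^ 2)

lemma norm_sq_lt (hq : ‖q‖ < 1) : ‖q ^ 2‖ < 1 := by
  rw [norm_pow]; exact pow_lt_one₀ (norm_nonneg q) hq (by norm_num)

lemma prod_odd (q : ℂ) (N : ℕ) : ∏ k ∈ range N, q ^ (2 * k + 1) = q ^ (N ^ 2) := by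
  induction N with
  | zero => simp
  | succ N ih => rw [prod_range_succ, ih, ← pow_add]; congr 1; ring

lemma e_pow_abs {e : ℂ} (he : e ^ 2 = 1) (N j : ℕ) :
    e ^ N * e ^ j = e ^ ((j : ℤ) - N).natAbs := by
  rcases le_total N j with h | h
  · obtain ⟨k, rfl⟩ := Nat.exists_eq_add_of_le h
    have e1 : (((N + k : ℕ) : ℤ) - N).natAbs = k := by omega
    rw [e1, pow_add, ← mul_assoc, ← pow_add, ← two_mul, pow_mul, he, one_pow, one_mul]
  · obtain ⟨k, rfl⟩ := Nat.exists_eq_add_of_le h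
    have e1 : ((j : ℤ) - ((j + k : ℕ) : ℤ)).natAbs = k := by omega
    rw [e1, pow_add, mul_comm, ← mul_assoc, ← pow_add, ← two_mul, pow_mul, he, one_pow, one_mul]

lemma q_pow_abs (hq0 : q ≠ 0) (N j : ℕ) :
    q ^ (N ^ 2) * ((q ^ 2) ^ tri j * ((q ^ (2 * N))⁻¹ * q) ^ j)
      = q ^ (((j : ℤ) - N).natAbs ^ 2) := by
  have h1 : (2 * tri j + j : ℕ) = j ^ 2 := by
    have := two_tri' j
    have h2 : ((2 * tri j + j : ℕ) : ℤ) = ((j ^ 2 : ℕ) : ℤ) := by
      push_cast; rw [this]; ring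
    exact_mod_cast h2
  have h3 : (((j : ℤ) - N).natAbs ^ 2) + 2 * N * j = N ^ 2 + j ^ 2 := by
    have h4 : (((((j : ℤ) - N).natAbs ^ 2) + 2 * N * j : ℕ) : ℤ) = ((N ^ 2 + j ^ 2 : ℕ) : ℤ) := by
      push_cast
      rw [sq_abs]
      ring
    exact_mod_cast h4
  have h5 : q ^ (2 * N * j) ≠ 0 := pow_ne_zero _ hq0
  have h6 : q ^ (((j : ℤ) - N).natAbs ^ 2) * q ^ (2 * N * j) = q ^ (N ^ 2) * q ^ (2 * tri j + j) := by
    rw [← pow_add, h3, h1, ← pow_add]
  have h7 : ((q ^ (2 * N))⁻¹ * q) ^ j = (q ^ (2 * N * j))⁻¹ * q ^ j := by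
    rw [mul_pow, inv_pow, ← pow_mul]
  rw [h7]
  field_simp
  rw [mul_comm (q ^ (2 * N * j)), h6, pow_add, pow_mul]
  ring

/-- the finite triple product at `z = e`, `e² = 1` -/
lemma finite_triple (hq : ‖q‖ < 1) (hq0 : q ≠ 0) {e : ℂ} (he : e ^ 2 = 1) (N : ℕ) :
    (∏ i ∈ range N, (1 + e * q ^ (2 * i + 1))) ^ 2 =
      ∑ j ∈ range (2 * N + 1), e ^ ((j : ℤ) - N).natAbs * q ^ (((j : ℤ) - N).natAbs ^ 2) *
        gb (q ^ 2) (2 * N) j := by
  have hb := qbinomial (norm_sq_lt hq) (e * ((q ^ (2 * N))⁻¹ * q)) (2 * N)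
  have he0 : e ≠ 0 := by rintro rfl; norm_num at he
  have hq2N : q ^ (2 * N) ≠ 0 := pow_ne_zero _ hq0
  -- left side
  have hL : ∏ k ∈ range (2 * N), (1 + e * ((q ^ (2 * N))⁻¹ * q) * (q ^ 2) ^ k)
      = (e ^ N * (q ^ (N ^ 2))⁻¹) * (∏ i ∈ range N, (1 + e * q ^ (2 * i + 1))) ^ 2 := by
    rw [two_mul N, prod_range_add]
    have h1 : ∏ k ∈ range N, (1 + e * ((q ^ (N + N))⁻¹ * q) * (q ^ 2) ^ k)
        = (e ^ N * (q ^ (N ^ 2))⁻¹) * ∏ i ∈ range N, (1 + e * q ^ (2 * i + 1)) := by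
      rw [← prod_range_reflect]
      have h2 : ∀ k ∈ range N, (1 + e * ((q ^ (N + N))⁻¹ * q) * (q ^ 2) ^ (N - 1 - k))
          = (e * (q ^ (2 * k + 1))⁻¹) * (1 + e * q ^ (2 * k + 1)) := by
        intro k hk
        have hk' : k < N := mem_range.mp hk
        obtain ⟨i, rfl⟩ : ∃ i, N = k + 1 + i := ⟨N - (k + 1), by omega⟩
        have e1 : k + 1 + i - 1 - k = i := by omega
        have e2 : q ^ (k + 1 + i + (k + 1 + i)) = q ^ (2 * k + 1) * q * (q ^ 2) ^ i := by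
          rw [← pow_mul, ← pow_succ, ← pow_add]; congr 1; ring
        rw [e1, e2]
        have h3 : q ^ (2 * k + 1) ≠ 0 := pow_ne_zero _ hq0
        have h4 : (q ^ 2) ^ i ≠ 0 := pow_ne_zero _ (pow_ne_zero _ hq0)
        field_simp
        linear_combination (-q ^ (2 * k + 1)) * he
      rw [prod_congr rfl h2, prod_mul_distrib, prod_mul_distrib, prod_const, card_range,
        prod_inv_distrib, prod_odd]
    have h2 : ∏ k ∈ range N, (1 + e * ((q ^ (N + N))⁻¹ * q) * (q ^ 2) ^ (N + k))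
        = ∏ i ∈ range N, (1 + e * q ^ (2 * i + 1)) := by
      refine prod_congr rfl fun k _ => ?_
      have e2 : (q ^ 2) ^ (N + k) = q ^ (N + N) * q ^ (2 * k) := by
        rw [← pow_mul, ← pow_add]; congr 1; ring
      have h3 : q ^ (N + N) ≠ 0 := pow_ne_zero _ hq0
      rw [e2, pow_succ]
      field_simp
    rw [h1, h2]
    ring
  rw [hL] at hb
  have hN2 : q ^ (N ^ 2) ≠ 0 := pow_ne_zero _ hq0
  have heN : e ^ N * e ^ N = 1 := by rw [← pow_add, ← two_mul, pow_mul, he, one_pow]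
  have h3 : (∏ i ∈ range N, (1 + e * q ^ (2 * i + 1))) ^ 2
      = e ^ N * q ^ (N ^ 2) * ((e ^ N * (q ^ (N ^ 2))⁻¹) *
        (∏ i ∈ range N, (1 + e * q ^ (2 * i + 1))) ^ 2) := by
    field_simp
    linear_combination (-(∏ i ∈ range N, (1 + e * q ^ (2 * i + 1))) ^ 2) * heN
  rw [h3, hb, mul_sum]
  refine sum_congr rfl fun j _ => ?_
  rw [← e_pow_abs he, ← q_pow_abs hq0, mul_pow]
  ring

/-- `∏ (1 + e q^(2 n + 1))` -/
noncomputable def podd (e q : ℂ) : ℂ := ∏' n : ℕ, (1 + e * q ^ (2 * n + 1))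

lemma podd_tendsto (hq : ‖q‖ < 1) (e : ℂ) :
    Tendsto (fun N : ℕ => ∏ i ∈ range N, (1 + e * q ^ (2 * i + 1))) atTop (𝓝 (podd e q)) := by
  have h : Multipliable fun n : ℕ => 1 + e * q ^ (2 * n + 1) := by
    apply multipliable_one_add_of_summable
    have h1 : Summable fun n : ℕ => ‖q‖ ^ n := summable_geometric_of_lt_one (norm_nonneg _) hq
    have h2 : Summable fun n : ℕ => ‖q‖ ^ (2 * n + 1) :=
      h1.comp_injective (i := fun n : ℕ => 2 * n + 1) (fun a b hab => by simpa using hab)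
    refine (h2.mul_left ‖e‖).congr fun n => ?_
    rw [norm_mul, norm_pow]
  exact h.hasProd.tendsto_prod_nat

lemma gb_tendsto' (hq : ‖q‖ < 1) (n : ℤ) :
    Tendsto (fun N : ℕ => gb q (2 * N) (n + N).toNat) atTop (𝓝 (pinf q)⁻¹) := by
  have h := poch_tendsto hq
  have h1 : Tendsto (fun N : ℕ => poch q (2 * N)) atTop (𝓝 (pinf q)) :=
    h.comp (tendsto_atTop_mono (fun n => by omega : ∀ n : ℕ, n ≤ 2 * n) tendsto_id)
  have h2 : Tendsto (fun N : ℕ => poch q (n + N).toNat) atTop (𝓝 (pinf q)) :=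
    h.comp (tendsto_atTop_mono (fun N => by omega : ∀ N : ℕ, N - n.natAbs ≤ (n + N).toNat)
      (tendsto_sub_atTop_nat n.natAbs))
  have h3 : Tendsto (fun N : ℕ => poch q (2 * N - (n + N).toNat)) atTop (𝓝 (pinf q)) :=
    h.comp (tendsto_atTop_mono (fun N => by omega :
      ∀ N : ℕ, N - n.natAbs ≤ 2 * N - (n + N).toNat) (tendsto_sub_atTop_nat n.natAbs))
  have h4 := h1.div (h2.mul h3) (mul_ne_zero (pinf_ne hq) (pinf_ne hq))
  have e : pinf q / (pinf q * pinf q) = (pinf q)⁻¹ := by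
    have := pinf_ne hq
    field_simp
  rw [e] at h4
  exact h4

lemma summable_norm_sq (hq : ‖q‖ < 1) : Summable fun n : ℤ => ‖q‖ ^ (n.natAbs ^ 2) := by
  have h1 : Summable fun n : ℕ => ‖q‖ ^ n := summable_geometric_of_lt_one (norm_nonneg _) hq
  have h2 : Summable fun n : ℕ => ‖q‖ ^ (n ^ 2) := by
    refine Summable.of_nonneg_of_le (fun n => by positivity) (fun n => ?_) h1
    exact pow_le_pow_of_le_one (norm_nonneg _) hq.le (Nat.le_self_pow (by norm_num) n)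
  refine Summable.of_nat_of_neg_add_one ?_ ?_
  · simpa using h2
  · refine (h2.comp_injective (i := fun n : ℕ => n + 1) (add_left_injective 1)).congr fun n => ?_
    have : (-((n : ℤ) + 1)).natAbs = n + 1 := by omega
    simp only [Function.comp, this]

lemma norm_e {e : ℂ} (he : e ^ 2 = 1) : ‖e‖ = 1 := by
  have : ‖e‖ ^ 2 = 1 := by rw [← norm_pow, he, norm_one]
  nlinarith [norm_nonneg e, sq_nonneg (‖e‖ - 1)]

/-- **Gauss**: `∑ e^n q^(n²) = ∏ (1 - q^(2n)) (1 + e q^(2n-1))²`, `e = ±1`. -/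
theorem thz_prod (hq : ‖q‖ < 1) (hq0 : q ≠ 0) {e : ℂ} (he : e ^ 2 = 1) :
    HasSum (fun n : ℤ => e ^ n.natAbs * q ^ (n.natAbs ^ 2)) (pinf (q ^ 2) * podd e q ^ 2) := by
  have hn := norm_e he
  have hsum : Summable (fun n : ℤ => e ^ n.natAbs * q ^ (n.natAbs ^ 2)) := by
    refine Summable.of_norm_bounded (summable_norm_sq hq) fun n => le_of_eq ?_
    rw [norm_mul, norm_pow, norm_pow, hn, one_pow, one_mul]
  obtain ⟨C, hC0, hC⟩ := gb_bdd (norm_sq_lt hq)
  have hlim : Tendsto (fun N : ℕ => ∑' n : ℤ, if n ∈ Finset.Icc (-N : ℤ) N then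
      e ^ n.natAbs * q ^ (n.natAbs ^ 2) * gb (q ^ 2) (2 * N) (n + N).toNat else 0) atTop
      (𝓝 (∑' n : ℤ, e ^ n.natAbs * q ^ (n.natAbs ^ 2) * (pinf (q ^ 2))⁻¹)) := by
    refine tendsto_tsum_of_dominated_convergence
      (bound := fun n : ℤ => ‖q‖ ^ (n.natAbs ^ 2) * C)
      ((summable_norm_sq hq).mul_right C) ?_ ?_
    · intro n
      have h1 := (gb_tendsto' (norm_sq_lt hq) n).const_mul (e ^ n.natAbs * q ^ (n.natAbs ^ 2))
      refine h1.congr' ?_
      filter_upwards [eventually_ge_atTop n.natAbs] with N hN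
      rw [if_pos (Finset.mem_Icc.mpr (by omega))]
    · refine Eventually.of_forall fun N n => ?_
      split_ifs
      · rw [norm_mul, norm_mul, norm_pow, norm_pow, hn, one_pow, one_mul]
        exact mul_le_mul_of_nonneg_left (hC _ _) (by positivity)
      · rw [norm_zero]; positivity
  have hfin : ∀ N : ℕ, (∑' n : ℤ, if n ∈ Finset.Icc (-N : ℤ) N then
      e ^ n.natAbs * q ^ (n.natAbs ^ 2) * gb (q ^ 2) (2 * N) (n + N).toNat else 0)
      = (∏ i ∈ range N, (1 + e * q ^ (2 * i + 1))) ^ 2 := by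
    intro N
    rw [finite_triple hq hq0 he, tsum_eq_sum (s := Finset.Icc (-N : ℤ) N) (fun k hk => if_neg hk)]
    refine Finset.sum_bij' (fun n _ => (n + N).toNat) (fun j _ => (j : ℤ) - N) ?_ ?_ ?_ ?_ ?_
    · intro n hn
      rw [Finset.mem_Icc] at hn
      rw [mem_range]
      omega
    · intro j hj
      rw [mem_range] at hj
      rw [Finset.mem_Icc]
      omega
    · intro n hn
      rw [Finset.mem_Icc] at hn
      omega
    · intro j hj
      omega
    · intro n hn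
      rw [if_pos hn]
      rw [Finset.mem_Icc] at hn
      have e1 : (((n + N).toNat : ℕ) : ℤ) - N = n := by omega
      rw [e1]
  simp only [hfin] at hlim
  have h2 := tendsto_nhds_unique ((podd_tendsto hq e).pow 2) hlim
  rw [tsum_mul_right] at h2
  have h3 : pinf (q ^ 2) * podd e q ^ 2 = ∑' n : ℤ, e ^ n.natAbs * q ^ (n.natAbs ^ 2) := by
    have h4 := pinf_ne (norm_sq_lt hq)
    rw [h2]
    field_simp
  rw [h3]
  exact hsum.hasSum

end ThP
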