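import Mathlib
import Pool.Agent.K3R.ThetaProd

/-!
`∑ q^(n (n + 1)) = 2 ∏ (1 - q^(4 n))² / (1 - q^(2 n))`.
-/

open Finset Filter Topology

namespace ThP

open JacCube

variable {q : ℂ}

/-- `n (n + 1)` as a natural number -/
def ext (n : ℤ) : ℕ := (n * (n + 1)).toNat

lemma ext_cast (n : ℤ) : ((ext n : ℕ) : ℤ) = n * (n + 1) := by
  refine Int.toNat_of_nonneg ?_
  rcases le_or_gt 0 n with h | h
  · positivity
  · nlinarith

noncomputable def tT (q : ℂ) : ℂ := ∑' n : ℤ, q ^ ext n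

lemma ext_ge (n : ℤ) : n.natAbs ≤ ext n + 1 := by
  have h := ext_cast n
  zify
  rw [h]
  rcases le_or_gt 0 n with h1 | h1
  · rw [abs_of_nonneg h1]; nlinarith
  · rw [abs_of_neg h1]; nlinarith

lemma natAbs_summable {r : ℝ} (hr : 0 ≤ r) (hr1 : r < 1) : Summable fun n : ℤ => r ^ n.natAbs := by
  have h1 : Summable fun n : ℕ => r ^ n := summable_geometric_of_lt_one hr hr1
  refine Summable.of_nat_of_neg_add_one ?_ ?_
  · simpa using h1
  · refine (h1.comp_injective (i := fun n : ℕ => n + 1) (add_left_injective 1)).congr fun n => ?_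
    have : (-((n : ℤ) + 1)).natAbs = n + 1 := by omega
    simp only [Function.comp, this]

lemma ext_summable (hq : ‖q‖ < 1) (hq0 : q ≠ 0) : Summable fun n : ℤ => ‖q‖ ^ ext n := by
  have hp : 0 < ‖q‖ := norm_pos_iff.mpr hq0
  have h := (natAbs_summable (norm_nonneg q) hq).mul_left (‖q‖⁻¹)
  refine Summable.of_nonneg_of_le (fun n => by positivity) (fun n => ?_) h
  have h2 : ‖q‖ ^ (ext n + 1) ≤ ‖q‖ ^ n.natAbs :=
    pow_le_pow_of_le_one (norm_nonneg _) hq.le (ext_ge n)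
  rw [pow_succ] at h2
  rw [inv_mul_eq_div, le_div_iff₀ hp]
  exact h2

lemma q_pow_ext (hq0 : q ≠ 0) (N j : ℕ) :
    q ^ (2 * tri N) * ((q ^ 2) ^ tri j * ((q ^ (2 * N))⁻¹ * q ^ 2) ^ j)
      = q ^ ext ((j : ℤ) - N) := by
  have h3 : ext ((j : ℤ) - N) + 2 * N * j = 2 * tri N + (2 * tri j + 2 * j) := by
    have h4 : ((ext ((j : ℤ) - N) + 2 * N * j : ℕ) : ℤ)
        = ((2 * tri N + (2 * tri j + 2 * j) : ℕ) : ℤ) := by
      push_cast
      rw [ext_cast, two_tri', two_tri']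
      ring
    exact_mod_cast h4
  have h5 : q ^ (2 * N * j) ≠ 0 := pow_ne_zero _ hq0
  have h6 : q ^ ext ((j : ℤ) - N) * q ^ (2 * N * j) = q ^ (2 * tri N) * q ^ (2 * tri j + 2 * j) := by
    rw [← pow_add, h3, ← pow_add]
  have h7 : ((q ^ (2 * N))⁻¹ * q ^ 2) ^ j = (q ^ (2 * N * j))⁻¹ * q ^ (2 * j) := by
    rw [mul_pow, inv_pow, ← pow_mul, ← pow_mul]
  rw [h7]
  field_simp
  rw [mul_comm (q ^ (2 * N * j)), h6, pow_add, pow_mul q 2 (tri j)]
  ring

lemma prod_even (q : ℂ) (N : ℕ) : ∏ k ∈ range N, q ^ (2 * k) = q ^ (2 * tri N) := by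
  induction N with
  | zero => simp [tri]
  | succ N ih => rw [prod_range_succ, ih, ← pow_add, tri_succ]; congr 1; ring

/-- the finite triple product at `z = q` -/
lemma finite_triple_q (hq : ‖q‖ < 1) (hq0 : q ≠ 0) (N : ℕ) :
    (∏ i ∈ range N, (1 + q ^ (2 * i))) * (∏ i ∈ range N, (1 + q ^ (2 * i + 2))) =
      ∑ j ∈ range (2 * N + 1), q ^ ext ((j : ℤ) - N) * gb (q ^ 2) (2 * N) j := by
  have hb := qbinomial (norm_sq_lt hq) ((q ^ (2 * N))⁻¹ * q ^ 2) (2 * N)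
  have hq2N : q ^ (2 * N) ≠ 0 := pow_ne_zero _ hq0
  -- left side
  have hL : ∏ k ∈ range (2 * N), (1 + ((q ^ (2 * N))⁻¹ * q ^ 2) * (q ^ 2) ^ k)
      = (q ^ (2 * tri N))⁻¹ * ((∏ i ∈ range N, (1 + q ^ (2 * i))) *
        (∏ i ∈ range N, (1 + q ^ (2 * i + 2)))) := by
    rw [two_mul N, prod_range_add]
    have h1 : ∏ k ∈ range N, (1 + ((q ^ (N + N))⁻¹ * q ^ 2) * (q ^ 2) ^ k)
        = (q ^ (2 * tri N))⁻¹ * ∏ i ∈ range N, (1 + q ^ (2 * i)) := by
      rw [← prod_range_reflect]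
      have h2 : ∀ k ∈ range N, (1 + ((q ^ (N + N))⁻¹ * q ^ 2) * (q ^ 2) ^ (N - 1 - k))
          = (q ^ (2 * k))⁻¹ * (1 + q ^ (2 * k)) := by
        intro k hk
        have hk' : k < N := mem_range.mp hk
        obtain ⟨i, rfl⟩ : ∃ i, N = k + 1 + i := ⟨N - (k + 1), by omega⟩
        have e1 : k + 1 + i - 1 - k = i := by omega
        have e2 : q ^ (k + 1 + i + (k + 1 + i)) = q ^ (2 * k) * q ^ 2 * (q ^ 2) ^ i := by
          rw [← pow_mul, ← pow_add, ← pow_add]; congr 1; ring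
        rw [e1, e2]
        have h3 : q ^ (2 * k) ≠ 0 := pow_ne_zero _ hq0
        have h4 : (q ^ 2) ^ i ≠ 0 := pow_ne_zero _ (pow_ne_zero _ hq0)
        field_simp
        ring
      rw [prod_congr rfl h2, prod_mul_distrib, prod_inv_distrib, prod_even]
    have h2 : ∏ k ∈ range N, (1 + ((q ^ (N + N))⁻¹ * q ^ 2) * (q ^ 2) ^ (N + k))
        = ∏ i ∈ range N, (1 + q ^ (2 * i + 2)) := by
      refine prod_congr rfl fun k _ => ?_
      have e2 : (q ^ 2) ^ (N + k) = q ^ (N + N) * q ^ (2 * k) := by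
        rw [← pow_mul, ← pow_add]; congr 1; ring
      have h3 : q ^ (N + N) ≠ 0 := pow_ne_zero _ hq0
      rw [e2, pow_add q (2 * k) 2]
      field_simp
    rw [h1, h2]
    ring
  rw [hL] at hb
  have hN2 : q ^ (2 * tri N) ≠ 0 := pow_ne_zero _ hq0
  have h3 : (∏ i ∈ range N, (1 + q ^ (2 * i))) * (∏ i ∈ range N, (1 + q ^ (2 * i + 2)))
      = q ^ (2 * tri N) * ((q ^ (2 * tri N))⁻¹ * ((∏ i ∈ range N, (1 + q ^ (2 * i))) *
        (∏ i ∈ range N, (1 + q ^ (2 * i + 2))))) := by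
    field_simp
  rw [h3, hb, mul_sum]
  refine sum_congr rfl fun j _ => ?_
  rw [← q_pow_ext hq0]
  ring

lemma poch_quot (hq : ‖q‖ < 1) (N : ℕ) :
    ∏ i ∈ range N, (1 + q ^ (2 * i + 2)) = poch (q ^ 4) N / poch (q ^ 2) N := by
  rw [eq_div_iff (poch_ne (norm_sq_lt hq) N)]
  unfold poch
  rw [← prod_mul_distrib]
  refine prod_congr rfl fun i _ => ?_
  ring

lemma norm_four_lt (hq : ‖q‖ < 1) : ‖q ^ 4‖ < 1 := by
  rw [norm_pow]; exact pow_lt_one₀ (norm_nonneg q) hq (by norm_num)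

lemma plus_tendsto (hq : ‖q‖ < 1) :
    Tendsto (fun N : ℕ => ∏ i ∈ range N, (1 + q ^ (2 * i + 2))) atTop
      (𝓝 (pinf (q ^ 4) / pinf (q ^ 2))) := by
  have h := (poch_tendsto (norm_four_lt hq)).div (poch_tendsto (norm_sq_lt hq))
    (pinf_ne (norm_sq_lt hq))
  refine h.congr fun N => ?_
  rw [poch_quot hq]
  rfl

lemma plus_tendsto' (hq : ‖q‖ < 1) :
    Tendsto (fun N : ℕ => ∏ i ∈ range N, (1 + q ^ (2 * i))) atTop
      (𝓝 (2 * (pinf (q ^ 4) / pinf (q ^ 2)))) := by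
  rw [← tendsto_add_atTop_iff_nat 1]
  refine ((plus_tendsto hq).const_mul 2).congr fun N => ?_
  rw [prod_range_succ', mul_zero, pow_zero, mul_comm]
  congr 1
  norm_num

/-- **Gauss**: `∑ q^(n(n+1)) = 2 ∏ (1 - q^(4n))² / (1 - q^(2n))`. -/
theorem tT_prod (hq : ‖q‖ < 1) (hq0 : q ≠ 0) :
    HasSum (fun n : ℤ => q ^ ext n) (2 * pinf (q ^ 4) ^ 2 / pinf (q ^ 2)) := by
  have hsum : Summable (fun n : ℤ => q ^ ext n) := by
    refine Summable.of_norm_bounded (ext_summable hq hq0) fun n => le_of_eq ?_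
    rw [norm_pow]
  obtain ⟨C, hC0, hC⟩ := gb_bdd (norm_sq_lt hq)
  have hlim : Tendsto (fun N : ℕ => ∑' n : ℤ, if n ∈ Finset.Icc (-N : ℤ) N then
      q ^ ext n * gb (q ^ 2) (2 * N) (n + N).toNat else 0) atTop
      (𝓝 (∑' n : ℤ, q ^ ext n * (pinf (q ^ 2))⁻¹)) := by
    refine tendsto_tsum_of_dominated_convergence
      (bound := fun n : ℤ => ‖q‖ ^ ext n * C)
      ((ext_summable hq hq0).mul_right C) ?_ ?_
    · intro n
      have h1 := (gb_tendsto' (norm_sq_lt hq) n).const_mul (q ^ ext n)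
      refine h1.congr' ?_
      filter_upwards [eventually_ge_atTop n.natAbs] with N hN
      rw [if_pos (Finset.mem_Icc.mpr (by omega))]
    · refine Eventually.of_forall fun N n => ?_
      split_ifs
      · rw [norm_mul, norm_pow]
        exact mul_le_mul_of_nonneg_left (hC _ _) (by positivity)
      · rw [norm_zero]; positivity
  have hfin : ∀ N : ℕ, (∑' n : ℤ, if n ∈ Finset.Icc (-N : ℤ) N then
      q ^ ext n * gb (q ^ 2) (2 * N) (n + N).toNat else 0)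
      = (∏ i ∈ range N, (1 + q ^ (2 * i))) * (∏ i ∈ range N, (1 + q ^ (2 * i + 2))) := by
    intro N
    rw [finite_triple_q hq hq0, tsum_eq_sum (s := Finset.Icc (-N : ℤ) N) (fun k hk => if_neg hk)]
    refine Finset.sum_bij' (fun n _ => (n + N).toNat) (fun j _ => (j : ℤ) - N) ?_ ?_ ?_ ?_ ?_
    · intro n hn
      rw [Finset.mem_Icc] at hn
      rw [mem_range]
      omega
    · intro j hj
      rw [mem_range] at hj
      rw [Finset.mem_Icc]
      omega
    · intro n hn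
      rw [Finset.mem_Icc] at hn
      omega
    · intro j hj
      omega
    · intro n hn
      rw [if_pos hn]
      rw [Finset.mem_Icc] at hn
      have e1 : (((n + N).toNat : ℕ) : ℤ) - N = n := by omega
      rw [e1]
  simp only [hfin] at hlim
  have h2 := tendsto_nhds_unique ((plus_tendsto' hq).mul (plus_tendsto hq)) hlim
  rw [tsum_mul_right] at h2
  have h3 : 2 * pinf (q ^ 4) ^ 2 / pinf (q ^ 2) = ∑' n : ℤ, q ^ ext n := by
    have h4 := pinf_ne (norm_sq_lt hq)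
    field_simp at h2 ⊢
    linear_combination h2
  rw [h3]
  exact hsum.hasSum

end ThP
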