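import Mathlib
import Pool.Agent.K3R.ThetaTri
import Pool.Agent.K3R.EtaSeries

/-!
Landen identities for the theta functions and `θ₄ D θ₃ - θ₃ D θ₄ = θ₃ θ₄ (θ₃⁴ - θ₄⁴) / 4`.
-/

open Finset Filter Topology

namespace ThP

open JacCube

variable {q : ℂ}

noncomputable def t3 (q : ℂ) : ℂ := ∑' n : ℤ, q ^ (n.natAbs ^ 2)
noncomputable def t4 (q : ℂ) : ℂ := ∑' n : ℤ, (-1) ^ n.natAbs * q ^ (n.natAbs ^ 2)
noncomputable def D3 (q : ℂ) : ℂ := ∑' n : ℤ, (n : ℂ) ^ 2 * q ^ (n.natAbs ^ 2)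
noncomputable def D4 (q : ℂ) : ℂ := ∑' n : ℤ, (n : ℂ) ^ 2 * ((-1) ^ n.natAbs * q ^ (n.natAbs ^ 2))

lemma t3_hasSum (hq : ‖q‖ < 1) : HasSum (fun n : ℤ => q ^ (n.natAbs ^ 2)) (t3 q) := by
  refine (Summable.of_norm_bounded (summable_norm_sq hq) fun n => le_of_eq ?_).hasSum
  rw [norm_pow]

lemma t4_hasSum (hq : ‖q‖ < 1) :
    HasSum (fun n : ℤ => (-1) ^ n.natAbs * q ^ (n.natAbs ^ 2)) (t4 q) := by
  refine (Summable.of_norm_bounded (summable_norm_sq hq) fun n => le_of_eq ?_).hasSum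
  rw [norm_mul, norm_pow, norm_pow, norm_neg, norm_one, one_pow, one_mul]

lemma dsum (hq : ‖q‖ < 1) : Summable fun n : ℤ => (n : ℝ) ^ 2 * ‖q‖ ^ (n.natAbs ^ 2) := by
  have h1 : Summable fun n : ℕ => (n : ℝ) ^ 1 * ‖q‖ ^ n :=
    summable_pow_mul_geometric_of_norm_lt_one 1 (by rwa [norm_norm])
  have h2 : Summable fun n : ℕ => (n : ℝ) ^ 2 * ‖q‖ ^ (n ^ 2) := by
    refine (h1.comp_injective (i := fun n : ℕ => n ^ 2) ?_).congr fun n => ?_
    · exact fun a b hab => by simpa using hab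
    · simp [Function.comp]
  refine Summable.of_nat_of_neg_add_one ?_ ?_
  · simpa using h2
  · refine (h2.comp_injective (i := fun n : ℕ => n + 1) (add_left_injective 1)).congr fun n => ?_
    have : (-((n : ℤ) + 1)).natAbs = n + 1 := by omega
    simp only [Function.comp, this]
    push_cast
    ring

lemma D3_hasSum (hq : ‖q‖ < 1) :
    HasSum (fun n : ℤ => (n : ℂ) ^ 2 * q ^ (n.natAbs ^ 2)) (D3 q) := by
  refine (Summable.of_norm_bounded (dsum hq) fun n => le_of_eq ?_).hasSum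
  rw [norm_mul, norm_pow, norm_pow, Complex.norm_intCast, sq_abs]

lemma D4_hasSum (hq : ‖q‖ < 1) :
    HasSum (fun n : ℤ => (n : ℂ) ^ 2 * ((-1) ^ n.natAbs * q ^ (n.natAbs ^ 2))) (D4 q) := by
  refine (Summable.of_norm_bounded (dsum hq) fun n => le_of_eq ?_).hasSum
  rw [norm_mul, norm_mul, norm_pow, norm_pow, norm_pow, norm_neg, norm_one, one_pow, one_mul,
    Complex.norm_intCast, sq_abs]

lemma tT_hasSum (hq : ‖q‖ < 1) (hq0 : q ≠ 0) : HasSum (fun n : ℤ => q ^ ext n) (tT q) :=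
  (tT_prod hq hq0).summable.hasSum

lemma tT_eq (hq : ‖q‖ < 1) (hq0 : q ≠ 0) : tT q = 2 * pinf (q ^ 4) ^ 2 / pinf (q ^ 2) :=
  (tT_prod hq hq0).tsum_eq

lemma hsm {f g : ℤ → ℂ} {a b : ℂ} (hf : HasSum f a) (hg : HasSum g b) :
    HasSum (fun p : ℤ × ℤ => f p.1 * g p.2) (a * b) :=
  hf.mul hg (summable_mul_of_summable_norm hf.summable.norm hg.summable.norm)

/-- the two cosets: `(a, b) ↦ (a + b, a - b)` and `(a, b) ↦ (a + b + 1, a - b)` -/
def spl2 : (ℤ × ℤ) ⊕ (ℤ × ℤ) ≃ ℤ × ℤ where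
  toFun := Sum.elim (fun p => (p.1 + p.2, p.1 - p.2)) (fun p => (p.1 + p.2 + 1, p.1 - p.2))
  invFun p := if (p.1 + p.2) % 2 = 0 then Sum.inl ((p.1 + p.2) / 2, (p.1 - p.2) / 2)
    else Sum.inr ((p.1 + p.2) / 2, (p.1 - p.2) / 2)
  left_inv := by
    rintro (⟨x, y⟩ | ⟨x, y⟩)
    · have h1 : (x + y + (x - y)) % 2 = 0 := by omega
      have h2 : (x + y + (x - y)) / 2 = x := by omega
      have h3 : (x + y - (x - y)) / 2 = y := by omega
      show (if _ then _ else _) = _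
      rw [Sum.elim_inl]
      dsimp only
      rw [if_pos h1, h2, h3]
    · have h1 : ¬ (x + y + 1 + (x - y)) % 2 = 0 := by omega
      have h2 : (x + y + 1 + (x - y)) / 2 = x := by omega
      have h3 : (x + y + 1 - (x - y)) / 2 = y := by omega
      simp [h1, h2, h3]
  right_inv := by
    rintro ⟨x, y⟩
    by_cases h : (x + y) % 2 = 0
    · simp only [h, if_true, Sum.elim_inl, Prod.mk.injEq]
      omega
    · simp only [h, if_false, Sum.elim_inr, Prod.mk.injEq]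
      omega

/-- splitting a sum over `ℤ²` -/
lemma split_eq {F : ℤ × ℤ → ℂ} {T A B : ℂ} (h : HasSum F T)
    (h1 : HasSum (fun p : ℤ × ℤ => F (p.1 + p.2, p.1 - p.2)) A)
    (h2 : HasSum (fun p : ℤ × ℤ => F (p.1 + p.2 + 1, p.1 - p.2)) B) : T = A + B := by
  have h3 : HasSum (F ∘ spl2) (A + B) := HasSum.sum h1 h2
  exact ((spl2.hasSum_iff.mpr h).unique h3)

lemma natAbs_cast_sq (n : ℤ) : ((n.natAbs ^ 2 : ℕ) : ℤ) = n ^ 2 := by
  push_cast; rw [sq_abs]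

lemma sgn_add (m n : ℤ) : (-1 : ℂ) ^ m.natAbs * (-1) ^ n.natAbs = (-1) ^ (m + n).natAbs := by
  rw [← pow_add]
  rcases Nat.even_or_odd (m.natAbs + n.natAbs) with h | h
  · have h2 : Even (m + n).natAbs := by
      rw [Int.natAbs_even]
      have h3 : Even (m.natAbs + n.natAbs) := h
      rw [Nat.even_add] at h3
      rw [Int.even_add]
      simpa using h3
    rw [h.neg_one_pow, h2.neg_one_pow]
  · have h2 : Odd (m + n).natAbs := by
      rw [Int.natAbs_odd]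
      have h3 : Odd (m.natAbs + n.natAbs) := h
      rw [← Nat.not_even_iff_odd, Nat.even_add] at h3
      rw [← Int.not_even_iff_odd, Int.even_add]
      simpa using h3
    rw [h.neg_one_pow, h2.neg_one_pow]

lemma sgn_even (a b : ℤ) : (-1 : ℂ) ^ (a + b).natAbs * (-1) ^ (a - b).natAbs = 1 := by
  rw [sgn_add]
  have : Even (a + b + (a - b)).natAbs := by
    rw [Int.natAbs_even]; exact ⟨a, by ring⟩
  exact this.neg_one_pow

lemma sgn_odd (a b : ℤ) : (-1 : ℂ) ^ (a + b + 1).natAbs * (-1) ^ (a - b).natAbs = -1 := by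
  rw [sgn_add]
  have : Odd (a + b + 1 + (a - b)).natAbs := by
    rw [Int.natAbs_odd]; exact ⟨a, by ring⟩
  exact this.neg_one_pow

lemma sgn_sub (a b : ℤ) : (-1 : ℂ) ^ (a - b).natAbs = (-1) ^ a.natAbs * (-1) ^ b.natAbs := by
  rw [sub_eq_add_neg, ← sgn_add, Int.natAbs_neg]

lemma sgn_neg1 (a b : ℤ) : (-1 : ℂ) ^ (-1 - a - b).natAbs = - (-1) ^ (a - b).natAbs := by
  have h : -1 - a - b = (a - b) + (-1 + -(2 * a)) := by ring
  rw [h, ← sgn_add]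
  have : Odd (-1 + -(2 * a)).natAbs := by
    rw [Int.natAbs_odd]; exact ⟨-1 - a, by ring⟩
  rw [this.neg_one_pow]
  ring

lemma A_even (a b : ℤ) : q ^ ((a + b).natAbs ^ 2) * q ^ ((a - b).natAbs ^ 2)
    = (q ^ 2) ^ (a.natAbs ^ 2) * (q ^ 2) ^ (b.natAbs ^ 2) := by
  rw [← pow_mul, ← pow_mul, ← pow_add, ← pow_add]
  congr 1
  have : ((((a + b).natAbs ^ 2 + (a - b).natAbs ^ 2 : ℕ)) : ℤ)
      = ((2 * a.natAbs ^ 2 + 2 * b.natAbs ^ 2 : ℕ) : ℤ) := by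
    rw [Nat.cast_add, Nat.cast_add, Nat.cast_mul, Nat.cast_mul, natAbs_cast_sq, natAbs_cast_sq,
      natAbs_cast_sq, natAbs_cast_sq]
    push_cast
    ring
  exact_mod_cast this

lemma A_odd (a b : ℤ) : q ^ ((a + b + 1).natAbs ^ 2) * q ^ ((a - b).natAbs ^ 2)
    = q * ((q ^ 2) ^ ext a * (q ^ 2) ^ ext b) := by
  have h : q ^ (1 + (2 * ext a + 2 * ext b)) = q * ((q ^ 2) ^ ext a * (q ^ 2) ^ ext b) := by
    rw [pow_add, pow_add, pow_one, pow_mul, pow_mul]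
  rw [← h, ← pow_add]
  congr 1
  have : ((((a + b + 1).natAbs ^ 2 + (a - b).natAbs ^ 2 : ℕ)) : ℤ)
      = ((1 + (2 * ext a + 2 * ext b) : ℕ) : ℤ) := by
    rw [Nat.cast_add, natAbs_cast_sq, natAbs_cast_sq]
    push_cast
    rw [ext_cast, ext_cast]
    ring
  exact_mod_cast this

/-- `(a, b) ↦ (-1 - a, b)` -/
def refl1 : ℤ × ℤ ≃ ℤ × ℤ where
  toFun p := (-1 - p.1, p.2)
  invFun p := (-1 - p.1, p.2)
  left_inv p := by ext <;> simp
  right_inv p := by ext <;> simp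

lemma ext_refl (a : ℤ) : ext (-1 - a) = ext a := by
  have h : ((ext (-1 - a) : ℕ) : ℤ) = ((ext a : ℕ) : ℤ) := by
    rw [ext_cast, ext_cast]; ring
  exact_mod_cast h

/-- `θ₃² + θ₄² = 2 θ₃(q²)²` -/
theorem landen_a (hq : ‖q‖ < 1) : t3 q ^ 2 + t4 q ^ 2 = 2 * t3 (q ^ 2) ^ 2 := by
  have h3 := hsm (t3_hasSum hq) (t3_hasSum hq)
  have h4 := hsm (t4_hasSum hq) (t4_hasSum hq)
  have hs := h3.add h4
  have hr := ((hsm (t3_hasSum (norm_sq_lt hq)) (t3_hasSum (norm_sq_lt hq))).mul_left 2)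
  have := split_eq (A := 2 * (t3 (q ^ 2) * t3 (q ^ 2))) (B := 0) hs
    (hr.congr_fun'' fun p => by
      simp only
      linear_combination (1 + (-1 : ℂ) ^ (p.1 + p.2).natAbs * (-1) ^ (p.1 - p.2).natAbs) *
        A_even (q := q) p.1 p.2 + (q ^ 2) ^ (p.1.natAbs ^ 2) * (q ^ 2) ^ (p.2.natAbs ^ 2) *
        sgn_even p.1 p.2)
    (hasSum_zero.congr_fun'' fun p => by
      simp only
      linear_combination q ^ ((p.1 + p.2 + 1).natAbs ^ 2) * q ^ ((p.1 - p.2).natAbs ^ 2) *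
        sgn_odd p.1 p.2)
  linear_combination this

/-- `θ₃² - θ₄² = 2 q T(q²)²` -/
theorem landen_c (hq : ‖q‖ < 1) (hq0 : q ≠ 0) :
    t3 q ^ 2 - t4 q ^ 2 = 2 * q * tT (q ^ 2) ^ 2 := by
  have h3 := hsm (t3_hasSum hq) (t3_hasSum hq)
  have h4 := hsm (t4_hasSum hq) (t4_hasSum hq)
  have hs := h3.sub h4
  have hT := tT_hasSum (norm_sq_lt hq) (pow_ne_zero 2 hq0)
  have hr := ((hsm hT hT).mul_left (2 * q))
  have := split_eq (A := 0) (B := 2 * q * (tT (q ^ 2) * tT (q ^ 2))) hs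
    (hasSum_zero.congr_fun'' fun p => by
      simp only
      linear_combination (-(q ^ ((p.1 + p.2).natAbs ^ 2) * q ^ ((p.1 - p.2).natAbs ^ 2))) *
        sgn_even p.1 p.2)
    (hr.congr_fun'' fun p => by
      simp only
      linear_combination (1 - (-1 : ℂ) ^ (p.1 + p.2 + 1).natAbs * (-1) ^ (p.1 - p.2).natAbs) *
        A_odd (q := q) p.1 p.2 - q * ((q ^ 2) ^ ext p.1 * (q ^ 2) ^ ext p.2) *
        sgn_odd p.1 p.2)
  linear_combination this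

/-- `θ₃ θ₄ = θ₄(q²)²` -/
theorem landen_b (hq : ‖q‖ < 1) (hq0 : q ≠ 0) : t3 q * t4 q = t4 (q ^ 2) ^ 2 := by
  have hs := hsm (t3_hasSum hq) (t4_hasSum hq)
  have hT := tT_hasSum (norm_sq_lt hq) (pow_ne_zero 2 hq0)
  have hr := (hsm (t4_hasSum (norm_sq_lt hq)) (t4_hasSum (norm_sq_lt hq)))
  have hodd : HasSum (fun p : ℤ × ℤ => (-1 : ℂ) ^ (p.1 - p.2).natAbs *
      (q * ((q ^ 2) ^ ext p.1 * (q ^ 2) ^ ext p.2))) 0 := by
    refine EtaS.anti_zero refl1 ?_ ?_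
    · refine Summable.of_norm_bounded (((hsm hT hT).summable.norm).mul_left ‖q‖) fun p =>
        le_of_eq ?_
      rw [norm_mul, norm_pow, norm_neg, norm_one, one_pow, one_mul, norm_mul]
    · intro p
      simp only [refl1, Equiv.coe_fn_mk, ext_refl, sgn_neg1]
      ring
  have := split_eq (A := t4 (q ^ 2) * t4 (q ^ 2)) (B := 0) hs
    (hr.congr_fun'' fun p => by
      simp only
      linear_combination (-1 : ℂ) ^ (p.1 - p.2).natAbs * A_even (q := q) p.1 p.2 +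
        (q ^ 2) ^ (p.1.natAbs ^ 2) * (q ^ 2) ^ (p.2.natAbs ^ 2) * sgn_sub p.1 p.2)
    (hodd.congr_fun'' fun p => by
      simp only
      linear_combination (-1 : ℂ) ^ (p.1 - p.2).natAbs * A_odd (q := q) p.1 p.2)
  linear_combination this

/-- `D` of `landen_a` -/
theorem dlanden_a (hq : ‖q‖ < 1) :
    t3 q * D3 q + t4 q * D4 q = 4 * (t3 (q ^ 2) * D3 (q ^ 2)) := by
  have hs := ((hsm (D3_hasSum hq) (t3_hasSum hq)).add (hsm (t3_hasSum hq) (D3_hasSum hq))).add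
    ((hsm (D4_hasSum hq) (t4_hasSum hq)).add (hsm (t4_hasSum hq) (D4_hasSum hq)))
  have hq2 := norm_sq_lt hq
  have hr := ((hsm (D3_hasSum hq2) (t3_hasSum hq2)).add
    (hsm (t3_hasSum hq2) (D3_hasSum hq2))).mul_left 4
  have := split_eq (B := 0) hs
    (hr.congr_fun'' fun p => by
      simp only
      push_cast
      linear_combination (((p.1 : ℂ) + p.2) ^ 2 + ((p.1 : ℂ) - p.2) ^ 2) *
        ((1 + (-1 : ℂ) ^ (p.1 + p.2).natAbs * (-1) ^ (p.1 - p.2).natAbs) *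
        A_even (q := q) p.1 p.2 + (q ^ 2) ^ (p.1.natAbs ^ 2) * (q ^ 2) ^ (p.2.natAbs ^ 2) *
        sgn_even p.1 p.2))
    (hasSum_zero.congr_fun'' fun p => by
      simp only
      push_cast
      linear_combination (((p.1 : ℂ) + p.2 + 1) ^ 2 + ((p.1 : ℂ) - p.2) ^ 2) *
        (q ^ ((p.1 + p.2 + 1).natAbs ^ 2) * q ^ ((p.1 - p.2).natAbs ^ 2)) *
        sgn_odd p.1 p.2)
  linear_combination (1 / 2) * this

/-- `D` of `landen_b` -/
theorem dlanden_b (hq : ‖q‖ < 1) :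
    D3 q * t4 q + t3 q * D4 q = 4 * (t4 (q ^ 2) * D4 (q ^ 2)) := by
  have hs := (hsm (D3_hasSum hq) (t4_hasSum hq)).add (hsm (t3_hasSum hq) (D4_hasSum hq))
  have hq2 := norm_sq_lt hq
  have hr := ((hsm (D4_hasSum hq2) (t4_hasSum hq2)).add
    (hsm (t4_hasSum hq2) (D4_hasSum hq2))).mul_left 2
  set F : ℤ × ℤ → ℂ := fun p => ((p.1 : ℂ) ^ 2 * q ^ (p.1.natAbs ^ 2)) *
    ((-1) ^ p.2.natAbs * q ^ (p.2.natAbs ^ 2)) +
    q ^ (p.1.natAbs ^ 2) * ((p.2 : ℂ) ^ 2 * ((-1) ^ p.2.natAbs * q ^ (p.2.natAbs ^ 2))) with hF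
  have hsF : HasSum F (D3 q * t4 q + t3 q * D4 q) := hs
  have hodd : HasSum (fun p : ℤ × ℤ => F (p.1 + p.2 + 1, p.1 - p.2)) 0 := by
    refine EtaS.anti_zero refl1 ?_ ?_
    · refine hsF.summable.comp_injective
        (i := fun p : ℤ × ℤ => ((p.1 + p.2 + 1, p.1 - p.2) : ℤ × ℤ)) ?_
      rintro ⟨a, b⟩ ⟨a', b'⟩ h
      simp only [Prod.mk.injEq] at h ⊢
      omega
    · intro p
      have e1 := A_odd (q := q) p.1 p.2
      have e2 := A_odd (q := q) (-1 - p.1) p.2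
      rw [ext_refl, ← e1] at e2
      have e3 := sgn_neg1 p.1 p.2
      simp only [hF, refl1, Equiv.coe_fn_mk]
      push_cast
      linear_combination ((p.1 - p.2 : ℂ) ^ 2 + ((p.1 : ℂ) + p.2 + 1) ^ 2) *
        ((-1 : ℂ) ^ (-1 - p.1 - p.2).natAbs * e2 +
        q ^ ((p.1 + p.2 + 1).natAbs ^ 2) * q ^ ((p.1 - p.2).natAbs ^ 2) * e3)
  have := split_eq (B := 0) hsF
    (hr.congr_fun'' fun p => by
      simp only [hF]
      push_cast
      linear_combination (((p.1 : ℂ) + p.2) ^ 2 + ((p.1 : ℂ) - p.2) ^ 2) *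
        ((-1 : ℂ) ^ (p.1 - p.2).natAbs * A_even (q := q) p.1 p.2 +
        (q ^ 2) ^ (p.1.natAbs ^ 2) * (q ^ 2) ^ (p.2.natAbs ^ 2) * sgn_sub p.1 p.2))
    hodd
  linear_combination this

end ThP
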