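import Mathlib
import Pool.Agent.K3R.ThetaLanden
import Pool.Agent.K3R.LFunEight

/-!
`θ₄ D θ₃ - θ₃ D θ₄ = θ₃ θ₄ (θ₃⁴ - θ₄⁴) / 4` and
`f₈(z) = η(z)² η(2 z) η(4 z) η(8 z)² = 1/2 ∑ (x² - 2 y²) q^(x² + 2 y²)`.
-/

open Finset Filter Topology

namespace ThP

open JacCube

variable {q : ℂ}

lemma poch_double (q : ℂ) (N : ℕ) : poch q (2 * N)
    = (∏ i ∈ range N, (1 + (-1) * q ^ (2 * i + 1))) * poch (q ^ 2) N := by
  induction N with
  | zero => simp [poch_zero]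
  | succ N ih =>
    rw [show 2 * (N + 1) = (2 * N + 1) + 1 by ring, poch_succ, poch_succ, ih, prod_range_succ,
      poch_succ]
    ring

lemma pinf_double (hq : ‖q‖ < 1) : pinf q = podd (-1) q * pinf (q ^ 2) := by
  have h1 : Tendsto (fun N : ℕ => poch q (2 * N)) atTop (𝓝 (pinf q)) :=
    (poch_tendsto hq).comp
      (tendsto_atTop_mono (fun n => by omega : ∀ n : ℕ, n ≤ 2 * n) tendsto_id)
  have h2 := (podd_tendsto hq (-1)).mul (poch_tendsto (norm_sq_lt hq))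
  refine tendsto_nhds_unique h1 (h2.congr fun N => ?_)
  rw [poch_double]

/-- `θ₄ = P₁² / P₂` -/
lemma t4_eq (hq : ‖q‖ < 1) (hq0 : q ≠ 0) : t4 q = pinf q ^ 2 / pinf (q ^ 2) := by
  have h := (thz_prod hq hq0 (e := -1) (by norm_num)).tsum_eq
  have h2 := pinf_ne (norm_sq_lt hq)
  rw [t4, h, pinf_double hq]
  field_simp

lemma t4_ne (hq : ‖q‖ < 1) (hq0 : q ≠ 0) : t4 q ≠ 0 := by
  rw [t4_eq hq hq0]
  exact div_ne_zero (pow_ne_zero _ (pinf_ne hq)) (pinf_ne (norm_sq_lt hq))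

lemma t3_ne (hq : ‖q‖ < 1) (hq0 : q ≠ 0) : t3 q ≠ 0 := by
  intro h
  have h1 := landen_b hq hq0
  rw [h, zero_mul] at h1
  exact pow_ne_zero 2 (t4_ne (norm_sq_lt hq) (pow_ne_zero 2 hq0)) h1.symm

lemma tT_ne (hq : ‖q‖ < 1) (hq0 : q ≠ 0) : tT q ≠ 0 := by
  rw [tT_eq hq hq0]
  exact div_ne_zero (mul_ne_zero two_ne_zero (pow_ne_zero _ (pinf_ne (norm_four_lt hq))))
    (pinf_ne (norm_sq_lt hq))

/-- `θ₃ = P₂⁵ / (P₁² P₄²)` -/
lemma t3_eq (hq : ‖q‖ < 1) (hq0 : q ≠ 0) :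
    t3 q = pinf (q ^ 2) ^ 5 / (pinf q ^ 2 * pinf (q ^ 4) ^ 2) := by
  have h1 := landen_b hq hq0
  rw [t4_eq hq hq0, t4_eq (norm_sq_lt hq) (pow_ne_zero 2 hq0)] at h1
  have e4 : (q ^ 2) ^ 2 = q ^ 4 := by ring
  rw [e4] at h1
  have n1 := pinf_ne hq
  have n2 := pinf_ne (norm_sq_lt hq)
  have n4 := pinf_ne (norm_four_lt hq)
  field_simp at h1 ⊢
  linear_combination h1

/-- the Wronskian -/
noncomputable def Wr (q : ℂ) : ℂ := t4 q * D3 q - t3 q * D4 q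

noncomputable def Vr (q : ℂ) : ℂ := t3 q * t4 q * (t3 q ^ 4 - t4 q ^ 4) / 4

lemma W_rec (hq : ‖q‖ < 1) (hq0 : q ≠ 0) :
    t3 (q ^ 2) * t4 (q ^ 2) * Wr (q ^ 2) = (t3 q ^ 2 - t4 q ^ 2) / 8 * Wr q := by
  have a := landen_a hq
  have b := landen_b hq hq0
  have da := dlanden_a hq
  have db := dlanden_b hq
  unfold Wr
  linear_combination (-(t4 (q ^ 2) ^ 2) / 4) * da + (t3 (q ^ 2) ^ 2 / 4) * db -
    ((t3 q * D3 q + t4 q * D4 q) / 4) * b + ((D3 q * t4 q + t3 q * D4 q) / 8) * a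

lemma V_rec (hq : ‖q‖ < 1) (hq0 : q ≠ 0) :
    t3 (q ^ 2) * t4 (q ^ 2) * Vr (q ^ 2) = (t3 q ^ 2 - t4 q ^ 2) / 8 * Vr q := by
  have a := landen_a hq
  have b := landen_b hq hq0
  have a' : t3 (q ^ 2) ^ 2 = (t3 q ^ 2 + t4 q ^ 2) / 2 := by linear_combination (-1 / 2) * a
  have b' : t4 (q ^ 2) ^ 2 = t3 q * t4 q := b.symm
  have e : t3 (q ^ 2) * t4 (q ^ 2) * Vr (q ^ 2)
      = t3 (q ^ 2) ^ 2 * t4 (q ^ 2) ^ 2 * ((t3 (q ^ 2) ^ 2) ^ 2 - (t4 (q ^ 2) ^ 2) ^ 2) / 4 := by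
    unfold Vr; ring
  rw [e, a', b', Vr]
  ring

lemma V_ne (hq : ‖q‖ < 1) (hq0 : q ≠ 0) : Vr q ≠ 0 := by
  have a := landen_a hq
  have c := landen_c hq hq0
  have hq2 := norm_sq_lt hq
  have hq20 : q ^ 2 ≠ 0 := pow_ne_zero 2 hq0
  have e : Vr q = t3 q * t4 q * ((2 * t3 (q ^ 2) ^ 2) * (2 * q * tT (q ^ 2) ^ 2)) / 4 := by
    rw [← a, ← c, Vr]; ring
  rw [e]
  refine div_ne_zero (mul_ne_zero (mul_ne_zero (t3_ne hq hq0) (t4_ne hq hq0))
    (mul_ne_zero (mul_ne_zero two_ne_zero (pow_ne_zero _ (t3_ne hq2 hq20)))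
      (mul_ne_zero (mul_ne_zero two_ne_zero hq0) (pow_ne_zero _ (tT_ne hq2 hq20))))) (by norm_num)

lemma R_rec (hq : ‖q‖ < 1) (hq0 : q ≠ 0) : Wr (q ^ 2) / Vr (q ^ 2) = Wr q / Vr q := by
  have hq2 := norm_sq_lt hq
  have hq20 : q ^ 2 ≠ 0 := pow_ne_zero 2 hq0
  have h1 := W_rec hq hq0
  have h2 := V_rec hq hq0
  have n1 := V_ne hq hq0
  have n2 := V_ne hq2 hq20
  have n3 := t3_ne hq2 hq20
  have n4 := t4_ne hq2 hq20
  rw [div_eq_div_iff n2 n1]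
  refine mul_left_cancel₀ (mul_ne_zero n3 n4) ?_
  linear_combination (Vr q) * h1 - (Wr q) * h2

/-- the sequence `q^(2^k)` -/
noncomputable def sq_it (q : ℂ) (k : ℕ) : ℂ := q ^ (2 ^ k)

lemma sq_it_succ (q : ℂ) (k : ℕ) : sq_it q (k + 1) = sq_it q k ^ 2 := by
  rw [sq_it, sq_it, ← pow_mul, pow_succ]

lemma sq_it_ne (hq0 : q ≠ 0) (k : ℕ) : sq_it q k ≠ 0 := pow_ne_zero _ hq0

lemma sq_it_le (hq : ‖q‖ < 1) (k : ℕ) : ‖sq_it q k‖ ≤ ‖q‖ := by
  rw [sq_it, norm_pow]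
  exact pow_le_of_le_one (norm_nonneg _) hq.le (by positivity)

lemma sq_it_lt (hq : ‖q‖ < 1) (k : ℕ) : ‖sq_it q k‖ < 1 := (sq_it_le hq k).trans_lt hq

lemma sq_it_tendsto (hq : ‖q‖ < 1) : Tendsto (sq_it q) atTop (𝓝 0) := by
  have h := tendsto_pow_atTop_nhds_zero_of_norm_lt_one hq
  exact h.comp (tendsto_pow_atTop_atTop_of_one_lt (by norm_num : 1 < 2))

lemma R_it (hq : ‖q‖ < 1) (hq0 : q ≠ 0) (k : ℕ) :
    Wr (sq_it q k) / Vr (sq_it q k) = Wr q / Vr q := by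
  induction k with
  | zero => simp [sq_it]
  | succ k ih => rw [sq_it_succ, R_rec (sq_it_lt hq k) (sq_it_ne hq0 k), ih]

lemma pow_term_tendsto (hq : ‖q‖ < 1) (m : ℕ) :
    Tendsto (fun k => sq_it q k ^ m) atTop (𝓝 (if m = 0 then 1 else 0)) := by
  have h := (sq_it_tendsto hq).pow m
  split_ifs with h1
  · subst h1; simp
  · rwa [zero_pow h1] at h

lemma t3_lim (hq : ‖q‖ < 1) : Tendsto (fun k => t3 (sq_it q k)) atTop (𝓝 1) := by
  have h := tendsto_tsum_of_dominated_convergence (𝓕 := atTop)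
    (f := fun (k : ℕ) (n : ℤ) => sq_it q k ^ (n.natAbs ^ 2))
    (g := fun n : ℤ => if n.natAbs ^ 2 = 0 then (1 : ℂ) else 0)
    (bound := fun n : ℤ => ‖q‖ ^ (n.natAbs ^ 2)) (summable_norm_sq hq)
    (fun n => pow_term_tendsto hq _)
    (Eventually.of_forall fun k n => by
      rw [norm_pow]; exact pow_le_pow_left₀ (norm_nonneg _) (sq_it_le hq k) _)
  have e : ∑' n : ℤ, (if n.natAbs ^ 2 = 0 then (1 : ℂ) else 0) = 1 := by
    rw [tsum_eq_single 0 (fun n hn => by simp [hn])]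
    simp
  rw [e] at h
  exact h

lemma t4_lim (hq : ‖q‖ < 1) : Tendsto (fun k => t4 (sq_it q k)) atTop (𝓝 1) := by
  have h := tendsto_tsum_of_dominated_convergence (𝓕 := atTop)
    (f := fun (k : ℕ) (n : ℤ) => (-1) ^ n.natAbs * sq_it q k ^ (n.natAbs ^ 2))
    (g := fun n : ℤ => (-1) ^ n.natAbs * if n.natAbs ^ 2 = 0 then (1 : ℂ) else 0)
    (bound := fun n : ℤ => ‖q‖ ^ (n.natAbs ^ 2)) (summable_norm_sq hq)
    (fun n => (pow_term_tendsto hq _).const_mul _)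
    (Eventually.of_forall fun k n => by
      rw [norm_mul, norm_pow, norm_neg, norm_one, one_pow, one_mul, norm_pow]
      exact pow_le_pow_left₀ (norm_nonneg _) (sq_it_le hq k) _)
  have e : ∑' n : ℤ, ((-1) ^ n.natAbs * if n.natAbs ^ 2 = 0 then (1 : ℂ) else 0) = 1 := by
    rw [tsum_eq_single 0 (fun n hn => by simp [hn])]
    simp
  rw [e] at h
  exact h

lemma tT_lim (hq : ‖q‖ < 1) (hq0 : q ≠ 0) : Tendsto (fun k => tT (sq_it q k)) atTop (𝓝 2) := by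
  have h := tendsto_tsum_of_dominated_convergence (𝓕 := atTop)
    (f := fun (k : ℕ) (n : ℤ) => sq_it q k ^ ext n)
    (g := fun n : ℤ => if ext n = 0 then (1 : ℂ) else 0)
    (bound := fun n : ℤ => ‖q‖ ^ ext n) (ext_summable hq hq0)
    (fun n => pow_term_tendsto hq _)
    (Eventually.of_forall fun k n => by
      rw [norm_pow]; exact pow_le_pow_left₀ (norm_nonneg _) (sq_it_le hq k) _)
  have e : ∑' n : ℤ, (if ext n = 0 then (1 : ℂ) else 0) = 2 := by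
    rw [tsum_eq_sum (s := {0, -1}) (fun n hn => ?_)]
    · rw [Finset.sum_pair (by norm_num), if_pos (by decide), if_pos (by decide)]
      norm_num
    · rw [if_neg]
      intro h1
      have h2 := ext_cast n
      rw [h1] at h2
      simp only [Finset.mem_insert, Finset.mem_singleton] at hn
      push_cast at h2
      rcases mul_eq_zero.mp h2.symm with h3 | h3
      · exact hn (Or.inl h3)
      · exact hn (Or.inr (by omega))
  rw [e] at h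
  exact h

lemma dterm_eq (hx : q ≠ 0) (n : ℤ) :
    (n : ℂ) ^ 2 * q ^ (n.natAbs ^ 2) / q = (n : ℂ) ^ 2 * q ^ (n.natAbs ^ 2 - 1) := by
  rcases eq_or_ne n 0 with rfl | hn
  · simp
  · have h1 : 0 < n.natAbs ^ 2 := pow_pos (Int.natAbs_pos.mpr hn) 2
    obtain ⟨m, hm⟩ := Nat.exists_eq_add_of_lt h1
    rw [hm, show 0 + m + 1 - 1 = m by omega, show 0 + m + 1 = m + 1 by omega]
    field_simp
    ring

lemma dbound (hq : ‖q‖ < 1) (hq0 : q ≠ 0) :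
    Summable fun n : ℤ => (n : ℝ) ^ 2 * ‖q‖ ^ (n.natAbs ^ 2 - 1) := by
  refine ((dsum hq).mul_left ‖q‖⁻¹).congr fun n => ?_
  have hp : ‖q‖ ≠ 0 := norm_ne_zero_iff.mpr hq0
  rcases eq_or_ne n 0 with rfl | hn
  · simp
  · have h1 : 0 < n.natAbs ^ 2 := pow_pos (Int.natAbs_pos.mpr hn) 2
    obtain ⟨m, hm⟩ := Nat.exists_eq_add_of_lt h1
    rw [hm, show 0 + m + 1 - 1 = m by omega, show 0 + m + 1 = m + 1 by omega]
    field_simp
    ring

lemma lim_val : ∀ n : ℤ, n ∉ ({1, -1} : Finset ℤ) →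
    ((n : ℂ) ^ 2 * if n.natAbs ^ 2 - 1 = 0 then (1 : ℂ) else 0) = 0 := by
  intro n hn
  simp only [Finset.mem_insert, Finset.mem_singleton] at hn
  rcases eq_or_ne n 0 with rfl | h0
  · simp
  · have h2 : 2 ≤ n.natAbs := by omega
    rw [if_neg, mul_zero]
    have : 4 ≤ n.natAbs ^ 2 := by nlinarith
    omega

lemma D3_lim (hq : ‖q‖ < 1) (hq0 : q ≠ 0) :
    Tendsto (fun k => D3 (sq_it q k) / sq_it q k) atTop (𝓝 2) := by
  have h := tendsto_tsum_of_dominated_convergence (𝓕 := atTop)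
    (f := fun (k : ℕ) (n : ℤ) => (n : ℂ) ^ 2 * sq_it q k ^ (n.natAbs ^ 2 - 1))
    (g := fun n : ℤ => (n : ℂ) ^ 2 * if n.natAbs ^ 2 - 1 = 0 then (1 : ℂ) else 0)
    (bound := fun n : ℤ => (n : ℝ) ^ 2 * ‖q‖ ^ (n.natAbs ^ 2 - 1)) (dbound hq hq0)
    (fun n => (pow_term_tendsto hq _).const_mul _)
    (Eventually.of_forall fun k n => by
      rw [norm_mul, norm_pow, norm_pow, Complex.norm_intCast, sq_abs]
      exact mul_le_mul_of_nonneg_left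
        (pow_le_pow_left₀ (norm_nonneg _) (sq_it_le hq k) _) (by positivity))
  have e : ∑' n : ℤ, ((n : ℂ) ^ 2 * if n.natAbs ^ 2 - 1 = 0 then (1 : ℂ) else 0) = 2 := by
    rw [tsum_eq_sum (s := {1, -1}) lim_val, Finset.sum_pair (by norm_num)]
    norm_num
  rw [e] at h
  refine h.congr fun k => ?_
  rw [D3, ← tsum_div_const]
  exact tsum_congr fun n => (dterm_eq (sq_it_ne hq0 k) n).symm

lemma D4_lim (hq : ‖q‖ < 1) (hq0 : q ≠ 0) :
    Tendsto (fun k => D4 (sq_it q k) / sq_it q k) atTop (𝓝 (-2)) := by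
  have h := tendsto_tsum_of_dominated_convergence (𝓕 := atTop)
    (f := fun (k : ℕ) (n : ℤ) => (-1) ^ n.natAbs *
      ((n : ℂ) ^ 2 * sq_it q k ^ (n.natAbs ^ 2 - 1)))
    (g := fun n : ℤ => (-1) ^ n.natAbs *
      ((n : ℂ) ^ 2 * if n.natAbs ^ 2 - 1 = 0 then (1 : ℂ) else 0))
    (bound := fun n : ℤ => (n : ℝ) ^ 2 * ‖q‖ ^ (n.natAbs ^ 2 - 1)) (dbound hq hq0)
    (fun n => ((pow_term_tendsto hq _).const_mul _).const_mul _)
    (Eventually.of_forall fun k n => by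
      rw [norm_mul, norm_pow, norm_neg, norm_one, one_pow, one_mul, norm_mul, norm_pow, norm_pow,
        Complex.norm_intCast, sq_abs]
      exact mul_le_mul_of_nonneg_left
        (pow_le_pow_left₀ (norm_nonneg _) (sq_it_le hq k) _) (by positivity))
  have e : ∑' n : ℤ, ((-1) ^ n.natAbs *
      ((n : ℂ) ^ 2 * if n.natAbs ^ 2 - 1 = 0 then (1 : ℂ) else 0)) = -2 := by
    rw [tsum_eq_sum (s := {1, -1}) (fun n hn => by rw [lim_val n hn, mul_zero]),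
      Finset.sum_pair (by norm_num)]
    norm_num
  rw [e] at h
  refine h.congr fun k => ?_
  rw [D4, ← tsum_div_const]
  refine tsum_congr fun n => ?_
  rw [← dterm_eq (sq_it_ne hq0 k) n]
  ring

/-- `θ₄ D θ₃ - θ₃ D θ₄ = θ₃ θ₄ (θ₃⁴ - θ₄⁴) / 4` -/
theorem wronskian (hq : ‖q‖ < 1) (hq0 : q ≠ 0) : Wr q = Vr q := by
  have hW : Tendsto (fun k => Wr (sq_it q k) / sq_it q k) atTop (𝓝 4) := by
    have h := ((t4_lim hq).mul (D3_lim hq hq0)).sub ((t3_lim hq).mul (D4_lim hq hq0))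
    rw [show (1 * 2 - 1 * -2 : ℂ) = 4 by norm_num] at h
    refine h.congr fun k => ?_
    rw [Wr]
    ring
  have hV : Tendsto (fun k => Vr (sq_it q k) / sq_it q k) atTop (𝓝 4) := by
    have h1 := (tT_lim hq hq0).comp (tendsto_add_atTop_nat 1)
    have h := ((((t3_lim hq).mul (t4_lim hq)).mul (((t3_lim hq).pow 2).add
      ((t4_lim hq).pow 2))).mul (h1.pow 2)).div_const 2
    rw [show (1 * 1 * (1 ^ 2 + 1 ^ 2) * 2 ^ 2 / 2 : ℂ) = 4 by norm_num] at h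
    refine h.congr fun k => ?_
    have h0 := sq_it_ne hq0 k
    have c := landen_c (sq_it_lt hq k) h0
    simp only [Function.comp, sq_it_succ, Vr]
    rw [eq_div_iff h0]
    linear_combination (-(t3 (sq_it q k) * t4 (sq_it q k) *
      (t3 (sq_it q k) ^ 2 + t4 (sq_it q k) ^ 2)) / 4) * c
  have hR := hW.div hV (by norm_num)
  have hR2 : Tendsto (fun _ : ℕ => Wr q / Vr q) atTop (𝓝 (4 / 4)) := by
    refine hR.congr fun k => ?_
    rw [← R_it hq hq0 k]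
    have h0 := sq_it_ne hq0 k
    have hv := V_ne (sq_it_lt hq k) h0
    simp only [Pi.div_apply]
    field_simp
  have h3 := tendsto_nhds_unique tendsto_const_nhds hR2
  have hv := V_ne hq hq0
  rw [div_eq_iff hv] at h3
  rw [h3]
  norm_num

/-- `∑ (x² - 2 y²) q^(x² + 2 y²) = 2 q P₁² P₂ P₄ P₈²` -/
theorem theta8 (hq : ‖q‖ < 1) (hq0 : q ≠ 0) :
    D3 q * t3 (q ^ 2) - 2 * (t3 q * D3 (q ^ 2))
      = 2 * (q * (pinf q ^ 2 * pinf (q ^ 2) * pinf (q ^ 4) * pinf (q ^ 8) ^ 2)) := by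
  have hq2 := norm_sq_lt hq
  have hq20 : q ^ 2 ≠ 0 := pow_ne_zero 2 hq0
  have a := landen_a hq
  have c := landen_c hq hq0
  have da := dlanden_a hq
  have w := wronskian hq hq0
  have n3 := t3_ne hq2 hq20
  have key : (D3 q * t3 (q ^ 2) - 2 * (t3 q * D3 (q ^ 2)))
      = q * t3 q * t4 q ^ 2 * tT (q ^ 2) ^ 2 * t3 (q ^ 2) / 2 := by
    refine mul_left_cancel₀ n3 ?_
    rw [Wr, Vr] at w
    linear_combination (-(D3 q) / 2) * a + (t3 q / 2) * da + (t4 q / 2) * w +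
      (t3 q * t4 q ^ 2 * (t3 q ^ 2 + t4 q ^ 2) / 8) * c +
      (q * t3 q * t4 q ^ 2 * tT (q ^ 2) ^ 2 / 4) * a
  rw [key, t3_eq hq hq0, t4_eq hq hq0, t3_eq hq2 hq20, tT_eq hq2 hq20]
  have e4 : (q ^ 2) ^ 2 = q ^ 4 := by ring
  have e8 : (q ^ 2) ^ 4 = q ^ 8 := by ring
  rw [e4, e8]
  have n1 := pinf_ne hq
  have n2 := pinf_ne hq2
  have n4 := pinf_ne (norm_four_lt hq)
  have n8 : pinf (q ^ 8) ≠ 0 := by rw [← e8]; exact pinf_ne (norm_four_lt hq2)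
  field_simp

end ThP
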