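import Mathlib
import Pool.Agent.K3R.ThetaEight

/-!
`f₈(z) = η(z)² η(2 z) η(4 z) η(8 z)² = 1/2 ∑ a² q^{|a|²}`, `a ∈ ℤ[√-2]`, with its L-function.
-/

open Complex Filter Topology

namespace EtaE

open EtaF EtaS ThP JacCube

lemma el8_sq (p : ℤ × ℤ) : el8 p ^ 2 = ((p.1 : ℂ) ^ 2 - 2 * (p.2 : ℂ) ^ 2)
    + (p.1 : ℂ) * p.2 * (2 * (√2 * I)) := by
  have h : ((√(2 : ℝ) : ℝ) : ℂ) ^ 2 = 2 := by
    rw [← Complex.ofReal_pow, Real.sq_sqrt (by norm_num)]; norm_num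
  simp only [el8, LatL.lat]
  push_cast
  linear_combination (p.2 : ℂ) ^ 2 * I ^ 2 * h + 2 * (p.2 : ℂ) ^ 2 * I_sq

lemma nu8_ge (p : ℤ × ℤ) : (1 : ℝ) * ((p.1 : ℝ) ^ 2 + (p.2 : ℝ) ^ 2) ≤ nu8 p := by
  rw [nu8_castR]; nlinarith [sq_nonneg (p.2 : ℝ)]

lemma q_nu8 (q : ℂ) (p : ℤ × ℤ) :
    q ^ (p.1.natAbs ^ 2) * (q ^ 2) ^ (p.2.natAbs ^ 2) = q ^ nu8 p := by
  rw [← pow_mul, ← pow_add]
  congr 1
  have : (((p.1.natAbs ^ 2 + 2 * p.2.natAbs ^ 2 : ℕ)) : ℤ) = ((nu8 p : ℕ) : ℤ) := by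
    rw [nu8_cast, Nat.cast_add, Nat.cast_mul, natAbs_cast_sq, natAbs_cast_sq]
    push_cast
    ring
  exact_mod_cast this

theorem theta8_hasSum {q : ℂ} (hq0 : q ≠ 0) (hq : ‖q‖ < 1) :
    HasSum (fun p : ℤ × ℤ => el8 p ^ 2 * q ^ nu8 p)
      (2 * (q * (pinf q ^ 2 * pinf (q ^ 2) * pinf (q ^ 4) * pinf (q ^ 8) ^ 2))) := by
  have hq2 := norm_sq_lt hq
  have h1 := (hsm (D3_hasSum hq) (t3_hasSum hq2)).sub
    ((hsm (t3_hasSum hq) (D3_hasSum hq2)).mul_left 2)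
  rw [theta8 hq hq0] at h1
  have h2 : HasSum (fun p : ℤ × ℤ => ((p.1 : ℂ) * p.2 * (2 * (√2 * I))) * q ^ nu8 p) 0 := by
    refine anti_zero cj8 ?_ ?_
    · refine sumq hq0 hq nu8 (δ := 1) (by norm_num) nu8_ge
        (fun p => (p.1 : ℂ) * p.2 * (2 * (√2 * I))) (1 * ‖(2 * (√2 * I) : ℂ)‖) fun p => ?_
      rw [norm_mul]
      have h3 : ‖(p.1 : ℂ) * p.2‖ ≤ 1 * ((p.1 : ℝ) ^ 2 + (p.2 : ℝ) ^ 2) := by
        refine normC_le (a := (p.1 : ℝ) * p.2) (by push_cast; ring) ?_ ?_ <;>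
          nlinarith [sq_nonneg ((p.1 : ℝ) + p.2), sq_nonneg ((p.1 : ℝ) - p.2)]
      nlinarith [mul_le_mul_of_nonneg_right h3 (norm_nonneg (2 * (√2 * I) : ℂ))]
    · intro p
      have e : nu8 (cj8 p) = nu8 p := by
        have : ((nu8 (cj8 p) : ℕ) : ℤ) = ((nu8 p : ℕ) : ℤ) := by
          rw [nu8_cast, nu8_cast]; simp [cj8]
        exact_mod_cast this
      rw [e]
      simp only [cj8, Equiv.coe_fn_mk]
      push_cast
      ring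
  have h3 := h1.add h2
  rw [add_zero] at h3
  refine h3.congr_fun'' fun p => ?_
  rw [el8_sq, ← q_nu8]
  ring

theorem a8_series {q : ℂ} (hq0 : q ≠ 0) (hq : ‖q‖ < 1) :
    HasSum (fun n : ℕ => a8 n * q ^ n)
      (q * (pinf q ^ 2 * pinf (q ^ 2) * pinf (q ^ 4) * pinf (q ^ 8) ^ 2)) := by
  have h := (collect (fun n => box8 n) mem_box8 (theta8_hasSum hq0 hq)).mul_left (1 / 2)
  rw [show (1 / 2 : ℂ) * (2 * (q * (pinf q ^ 2 * pinf (q ^ 2) * pinf (q ^ 4) * pinf (q ^ 8) ^ 2)))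
    = q * (pinf q ^ 2 * pinf (q ^ 2) * pinf (q ^ 4) * pinf (q ^ 8) ^ 2) by ring] at h
  refine h.congr_fun'' fun n => ?_
  rw [a8]
  ring

/-- `f₈(z) = η(z)² η(2 z) η(4 z) η(8 z)² = ∑ a₈(n) e(n z)`. -/
theorem eta8_series {z : ℂ} (hz : 0 < z.im) :
    HasSum (fun n : ℕ => a8 n * cexp (2 * Real.pi * I * n * z))
      (ModularForm.eta z ^ 2 * ModularForm.eta (2 * z) * ModularForm.eta (4 * z) *
        ModularForm.eta (8 * z) ^ 2) := by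
  have hq : ‖cexp (2 * Real.pi * I * z)‖ < 1 := by
    rw [Complex.norm_exp]
    rw [Real.exp_lt_one_iff]
    have : (2 * Real.pi * I * z : ℂ).re = -(2 * Real.pi * z.im) := by
      simp
    rw [this]
    have := Real.pi_pos
    nlinarith [mul_pos this hz]
  have h := a8_series (Complex.exp_ne_zero _) hq
  rw [eta_eq, eta_eq, eta_eq, eta_eq]
  have ek : ∀ k : ℕ, cexp (2 * Real.pi * I * (k * z)) = cexp (2 * Real.pi * I * z) ^ k := by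
    intro k
    rw [← Complex.exp_nat_mul]; congr 1; ring
  have e2 := ek 2
  have e4 := ek 4
  have e8 := ek 8
  push_cast at e2 e4 e8
  have e9 : cexp (2 * Real.pi * I * z)
      = cexp (2 * Real.pi * I * z / 24) ^ 2 * cexp (2 * Real.pi * I * (2 * z) / 24) *
        cexp (2 * Real.pi * I * (4 * z) / 24) * cexp (2 * Real.pi * I * (8 * z) / 24) ^ 2 := by
    rw [← Complex.exp_nat_mul, ← Complex.exp_nat_mul, ← Complex.exp_add, ← Complex.exp_add,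
      ← Complex.exp_add]
    congr 1; push_cast; ring
  rw [e2, e4, e8]
  set Q := cexp (2 * Real.pi * I * z) with hQ
  have e10 : (cexp (2 * Real.pi * I * z / 24) * pinf Q) ^ 2 *
      (cexp (2 * Real.pi * I * (2 * z) / 24) * pinf (Q ^ 2)) *
      (cexp (2 * Real.pi * I * (4 * z) / 24) * pinf (Q ^ 4)) *
      (cexp (2 * Real.pi * I * (8 * z) / 24) * pinf (Q ^ 8)) ^ 2
      = Q * (pinf Q ^ 2 * pinf (Q ^ 2) * pinf (Q ^ 4) * pinf (Q ^ 8) ^ 2) := by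
    linear_combination (-(pinf Q ^ 2 * pinf (Q ^ 2) * pinf (Q ^ 4) * pinf (Q ^ 8) ^ 2)) * e9
  rw [e10]
  refine h.congr_fun'' fun n => ?_
  rw [hQ, ← Complex.exp_nat_mul]
  congr 2
  ring

/-- The L-function of `f₈(z) = η(z)² η(2z) η(4z) η(8z)²`. -/
theorem exists_L8 : ∃ (a : ℕ → ℂ) (L : ℂ → ℂ),
    (∀ z : ℂ, 0 < z.im → HasSum (fun n : ℕ => a n * cexp (2 * Real.pi * I * n * z))
      (ModularForm.eta z ^ 2 * ModularForm.eta (2 * z) * ModularForm.eta (4 * z) *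
        ModularForm.eta (8 * z) ^ 2)) ∧
      Differentiable ℂ L ∧ (∀ s : ℂ, 2 < s.re → LSeriesHasSum a s (L s)) ∧
      deriv L (-1) = -(6 * ((√2 / Real.pi) ^ 5 : ℝ)) * L 4 ∧
      L 4 = 1 / 2 * Lam8 :=
  ⟨a8, L8, fun _ hz => eta8_series hz, L8_diff, fun _ hs => L8_LSeries hs, deriv_L8,
    by rw [L8_four]; ring⟩

end EtaE
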